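import Pool.Agent.Lib.MP_44a246_nt.HP.Defs

set_option autoImplicit false

open NumberField IsDedekindDomain Height
open Pool.Agent.Lib.MP_4d5ce1_nt (ordv fa nv)

namespace Pool.Agent.Lib.MP_44a246_nt.HP

/-! ## HP-2 -/

section bal

variable {K : Type*} [Field K] [NumberField K]

omit [NumberField K] in
private lemma bal_sup_pos {m : ℕ} {Y : Fin m → 𝓞 K} (hY : Y ≠ 0) (w : InfinitePlace K) :
    0 < ⨆ i, w (Y i : K) := by
  obtain ⟨i, hi⟩ := Function.ne_iff.mp hY
  refine lt_of_lt_of_le ?_ (le_ciSup (Set.finite_range _).bddAbove i)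
  exact InfinitePlace.pos_iff.mpr (RingOfIntegers.coe_ne_zero_iff.mpr hi)

omit [NumberField K] in
private lemma bal_ne {m : ℕ} {Y : Fin m → 𝓞 K} (hY : Y ≠ 0) : (fun i => (Y i : K)) ≠ 0 := by
  obtain ⟨i, hi⟩ := Function.ne_iff.mp hY
  exact Function.ne_iff.mpr ⟨i, RingOfIntegers.coe_ne_zero_iff.mpr hi⟩

private lemma bal_norm_pos {m : ℕ} {Y : Fin m → 𝓞 K} (hY : Y ≠ 0) :
    1 ≤ ((Ideal.span (Set.range Y)).absNorm : ℝ) := by
  have h : (Ideal.span (Set.range Y)) ≠ ⊥ := by
    intro h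
    obtain ⟨i, hi⟩ := Function.ne_iff.mp hY
    exact hi ((Ideal.span_eq_bot.mp h) _ ⟨i, rfl⟩)
  have h2 := Ideal.absNorm_ne_zero_iff (Ideal.span (Set.range Y))
  have h3 : (Ideal.span (Set.range Y)).absNorm ≠ 0 := by
    intro h0
    exact h (Ideal.absNorm_eq_zero_iff.mp h0)
  exact_mod_cast Nat.one_le_iff_ne_zero.mpr h3

private lemma bal_fin_le {m : ℕ} (Y : Fin m → 𝓞 K) (v : FinitePlace K) (i : Fin m) :
    v (Y i : K) ≤ 1 :=
  FinitePlace.norm_embedding_eq v (Y i : K) ▸ FinitePlace.norm_le_one K v.maximalIdeal (Y i)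

private lemma bal_finprod {m : ℕ} {Y : Fin m → 𝓞 K} (hY : Y ≠ 0) :
    ∏ᶠ v : FinitePlace K, ⨆ i, v (Y i : K) = (((Ideal.span (Set.range Y)).absNorm : ℝ))⁻¹ := by
  have h := absNorm_mul_finprod_finitePlace_eq_one hY
  have h1 := bal_norm_pos hY
  field_simp
  linarith

private lemma bal_exp {m : ℕ} {Y : Fin m → 𝓞 K} (hY : Y ≠ 0) :
    Real.exp (logHeight (fun i => (Y i : K))) =
      (∏ w : InfinitePlace K, (⨆ i, w (Y i : K)) ^ w.mult) *
        (((Ideal.span (Set.range Y)).absNorm : ℝ))⁻¹ := by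
  rw [logHeight_eq_log_mulHeight, Real.exp_log (mulHeight_pos _), NumberField.mulHeight_eq (bal_ne hY),
    bal_finprod hY]

private lemma bal_single {m : ℕ} {Y : Fin m → 𝓞 K} (hY : Y ≠ 0) (v₀ : FinitePlace K) :
    (((Ideal.span (Set.range Y)).absNorm : ℝ))⁻¹ ≤ ⨆ i, v₀ (Y i : K) := by
  classical
  rw [← bal_finprod hY]
  obtain ⟨i₀, hi₀⟩ := Function.ne_iff.mp hY
  have hi₀' : (Y i₀ : K) ≠ 0 := RingOfIntegers.coe_ne_zero_iff.mpr hi₀
  have : Nonempty (Fin m) := ⟨i₀⟩
  have hfin : (Function.mulSupport fun v : FinitePlace K => v (Y i₀ : K)).Finite :=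
    FinitePlace.hasFiniteMulSupport (K := K) hi₀'
  have hle : ∀ v : FinitePlace K, ⨆ i, v (Y i : K) ≤ 1 := fun v => ciSup_le fun i => bal_fin_le Y v i
  have h0 : ∀ v : FinitePlace K, 0 ≤ ⨆ i, v (Y i : K) := fun v =>
    Real.iSup_nonneg fun i => apply_nonneg v _
  have hsub : (Function.mulSupport fun v : FinitePlace K => ⨆ i, v (Y i : K)) ⊆
      ↑(insert v₀ hfin.toFinset) := by
    intro v hv
    rw [Finset.coe_insert, Set.Finite.coe_toFinset]
    right
    intro h1
    apply hv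
    refine le_antisymm (hle v) ?_
    have h1' : v (Y i₀ : K) = 1 := h1
    rw [← h1']
    exact le_ciSup (f := fun i => v (Y i : K)) (Set.finite_range _).bddAbove i₀
  rw [finprod_eq_prod_of_mulSupport_subset _ hsub, ← Finset.mul_prod_erase _ _
    (Finset.mem_insert_self _ _)]
  refine mul_le_of_le_one_right (h0 v₀) ?_
  exact Finset.prod_le_one (fun v _ => h0 v) (fun v _ => hle v)

/-- Integral vectors with balanced archimedean sizes satisfy the conditions of `Bal`. -/
private lemma bal_of_up {m : ℕ} {Y : Fin m → 𝓞 K} (hY : Y ≠ 0) (C : ℝ) (hC : 1 ≤ C)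
    (hup : ∀ (w : InfinitePlace K) (i : Fin m),
      w (Y i : K) ≤ C * Real.exp (logHeight (fun i => (Y i : K)) / dg K)) :
    Bal (C ^ Module.finrank ℚ K) (fun i => (Y i : K)) := by
  classical
  have hd : 0 < Module.finrank ℚ K := Module.finrank_pos
  have hdR : (0 : ℝ) < dg K := by unfold dg; exact_mod_cast hd
  have hC0 : 0 < C := by linarith
  obtain ⟨i₀, hi₀⟩ := Function.ne_iff.mp hY
  have : Nonempty (Fin m) := ⟨i₀⟩
  set h : ℝ := logHeight (fun i => (Y i : K)) with hh
  set E : ℝ := Real.exp (h / dg K) with hE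
  have hE0 : 0 < E := Real.exp_pos _
  have hEd : E ^ Module.finrank ℚ K = Real.exp h := by
    rw [hE, ← Real.exp_nat_mul]
    congr 1
    have : (Module.finrank ℚ K : ℝ) = dg K := rfl
    rw [this]; field_simp
  have hsum : ∑ w : InfinitePlace K, w.mult = Module.finrank ℚ K := InfinitePlace.sum_mult_eq
  have hexp := bal_exp hY
  have hN := bal_norm_pos hY
  set N : ℝ := ((Ideal.span (Set.range Y)).absNorm : ℝ) with hNdef
  set z : InfinitePlace K → ℝ := fun w => ⨆ i, w (Y i : K) with hz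
  have hz0 : ∀ w, 0 < z w := fun w => bal_sup_pos hY w
  have hzC : ∀ w, z w ≤ C * E := fun w => ciSup_le fun i => hup w i
  have hprod : ∏ w : InfinitePlace K, z w ^ w.mult = Real.exp h * N := by
    have hN0 : N ≠ 0 := by linarith
    rw [hh, hexp, mul_assoc, inv_mul_cancel₀ hN0, mul_one]
  have hCpow : C ≤ C ^ Module.finrank ℚ K := by
    calc C = C ^ 1 := (pow_one C).symm
      _ ≤ _ := pow_le_pow_right₀ hC hd
  refine ⟨bal_ne hY, ?_, ?_, ?_, ?_⟩
  · intro v i
    exact bal_fin_le Y (FinitePlace.mk v) i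
  · intro v
    have h1 := bal_single hY (FinitePlace.mk v)
    obtain ⟨i, hi⟩ := exists_eq_ciSup_of_finite (f := fun i => (FinitePlace.mk v) (Y i : K))
    refine ⟨i, ?_⟩
    have h2 : fa v (Y i : K) = ⨆ i, (FinitePlace.mk v) (Y i : K) := hi
    rw [h2]
    refine le_trans ?_ h1
    apply inv_anti₀ (by linarith)
    have h3 : Real.exp h * N ≤ (C * E) ^ Module.finrank ℚ K := by
      rw [← hprod, ← hsum, ← Finset.prod_pow_eq_pow_sum]
      exact Finset.prod_le_prod (fun w _ => pow_nonneg (hz0 w).le _)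
        (fun w _ => pow_le_pow_left₀ (hz0 w).le (hzC w) _)
    rw [mul_pow, hEd, mul_comm] at h3
    exact le_of_mul_le_mul_right h3 (Real.exp_pos _)
  · intro w i
    refine (hup w i).trans ?_
    exact mul_le_mul_of_nonneg_right hCpow hE0.le
  · intro w
    obtain ⟨i, hi⟩ := exists_eq_ciSup_of_finite (f := fun i => w (Y i : K))
    refine ⟨i, ?_⟩
    have hi' : w (Y i : K) = z w := hi
    rw [hi']
    by_contra hlt
    push Not at hlt
    have hCd : 1 ≤ C ^ Module.finrank ℚ K := one_le_pow₀ hC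
    -- the product would be too small
    have h1 : z w ^ w.mult < (C ^ Module.finrank ℚ K)⁻¹ * E ^ w.mult := by
      have hm : w.mult ≠ 0 := InfinitePlace.mult_ne_zero
      calc z w ^ w.mult < ((C ^ Module.finrank ℚ K)⁻¹ * E) ^ w.mult :=
            pow_lt_pow_left₀ hlt (hz0 w).le hm
        _ = ((C ^ Module.finrank ℚ K)⁻¹) ^ w.mult * E ^ w.mult := mul_pow _ _ _
        _ ≤ (C ^ Module.finrank ℚ K)⁻¹ * E ^ w.mult := by
            refine mul_le_mul_of_nonneg_right ?_ (pow_nonneg hE0.le _)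
            exact pow_le_of_le_one (by positivity) (inv_le_one_of_one_le₀ hCd) hm
    have h2 : ∏ w' ∈ Finset.univ.erase w, z w' ^ w'.mult ≤
        C ^ Module.finrank ℚ K * ∏ w' ∈ Finset.univ.erase w, E ^ w'.mult := by
      calc ∏ w' ∈ Finset.univ.erase w, z w' ^ w'.mult
          ≤ ∏ w' ∈ Finset.univ.erase w, (C * E) ^ w'.mult :=
            Finset.prod_le_prod (fun w _ => pow_nonneg (hz0 w).le _)
              (fun w _ => pow_le_pow_left₀ (hz0 w).le (hzC w) _)
        _ = (∏ w' ∈ Finset.univ.erase w, C ^ w'.mult) *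
            ∏ w' ∈ Finset.univ.erase w, E ^ w'.mult := by
            rw [← Finset.prod_mul_distrib]
            exact Finset.prod_congr rfl fun w' _ => mul_pow _ _ _
        _ ≤ _ := by
            refine mul_le_mul_of_nonneg_right ?_ (Finset.prod_nonneg fun w' _ => by positivity)
            rw [Finset.prod_pow_eq_pow_sum]
            refine pow_le_pow_right₀ hC ?_
            rw [← hsum]
            exact Finset.sum_le_sum_of_subset (Finset.erase_subset _ _)
    have h3 : Real.exp h * N < Real.exp h := by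
      calc Real.exp h * N = ∏ w : InfinitePlace K, z w ^ w.mult := hprod.symm
        _ = z w ^ w.mult * ∏ w' ∈ Finset.univ.erase w, z w' ^ w'.mult :=
            (Finset.mul_prod_erase _ _ (Finset.mem_univ w)).symm
        _ < ((C ^ Module.finrank ℚ K)⁻¹ * E ^ w.mult) *
            (C ^ Module.finrank ℚ K * ∏ w' ∈ Finset.univ.erase w, E ^ w'.mult) := by
            refine mul_lt_mul h1 h2 (Finset.prod_pos fun w' _ => pow_pos (hz0 w') _) (by positivity)
        _ = E ^ w.mult * ∏ w' ∈ Finset.univ.erase w, E ^ w'.mult := by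
            have : C ^ Module.finrank ℚ K ≠ 0 := by positivity
            field_simp
        _ = ∏ w' : InfinitePlace K, E ^ w'.mult :=
            Finset.mul_prod_erase Finset.univ (fun w' : InfinitePlace K => E ^ w'.mult)
              (Finset.mem_univ w)
        _ = E ^ Module.finrank ℚ K := by rw [Finset.prod_pow_eq_pow_sum, hsum]
        _ = Real.exp h := hEd
    have h4 : Real.exp h ≤ Real.exp h * N := le_mul_of_one_le_right (Real.exp_pos _).le hN
    linarith

open MeasureTheory NumberField.mixedEmbedding in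
open scoped nonZeroDivisors ENNReal NNReal in
variable (K) in
/-- Minkowski's theorem, in the form used here. -/
private lemma bal_minkowski : ∃ C : ℝ, 1 ≤ C ∧ ∀ (m : ℕ) (X : Fin m → 𝓞 K), X ≠ 0 →
    ∃ t : K, t ≠ 0 ∧ (∀ i, ∃ y : 𝓞 K, (y : K) = t * X i) ∧
      ∀ (w : InfinitePlace K) (i : Fin m),
        w (t * X i) ≤ C * Real.exp (logHeight (fun i => (X i : K)) / dg K) := by
  classical
  set M : ℝ≥0∞ := volume (ZSpan.fundamentalDomain (latticeBasis K)) *
    (2 : ℝ≥0∞) ^ (Module.finrank ℝ (mixedSpace K)) with hM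
  have hMJ : ∀ J : (FractionalIdeal (𝓞 K)⁰ K)ˣ,
      minkowskiBound K J = ENNReal.ofReal (FractionalIdeal.absNorm J.1) * M := by
    intro J
    rw [minkowskiBound, volume_fundamentalDomain_fractionalIdealLatticeBasis, mul_assoc]
  have hMtop : M < ⊤ := by
    have h := minkowskiBound_lt_top K (1 : (FractionalIdeal (𝓞 K)⁰ K)ˣ)
    rw [hMJ] at h
    simpa [FractionalIdeal.absNorm_one] using h
  refine ⟨M.toReal + 1, by linarith [ENNReal.toReal_nonneg (a := M)], ?_⟩
  intro m X hX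
  set C : ℝ := M.toReal + 1 with hC
  have hM0 : 0 ≤ M.toReal := ENNReal.toReal_nonneg
  have hC1 : 1 ≤ C := by linarith
  have hC0 : 0 < C := by linarith
  have hd : 0 < Module.finrank ℚ K := Module.finrank_pos
  have hdR : (0 : ℝ) < dg K := by unfold dg; exact_mod_cast hd
  set h : ℝ := logHeight (fun i => (X i : K)) with hh
  set E : ℝ := Real.exp (h / dg K) with hE
  have hE0 : 0 < E := Real.exp_pos _
  have hEd : E ^ Module.finrank ℚ K = Real.exp h := by
    rw [hE, ← Real.exp_nat_mul]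
    congr 1
    have : (Module.finrank ℚ K : ℝ) = dg K := rfl
    rw [this]; field_simp
  have hsum : ∑ w : InfinitePlace K, w.mult = Module.finrank ℚ K := InfinitePlace.sum_mult_eq
  have hexp := bal_exp hX
  have hN := bal_norm_pos hX
  set I : Ideal (𝓞 K) := Ideal.span (Set.range X) with hI
  set N : ℝ := (I.absNorm : ℝ) with hNdef
  set z : InfinitePlace K → ℝ := fun w => ⨆ i, w (X i : K) with hz
  have hz0 : ∀ w, 0 < z w := fun w => bal_sup_pos hX w
  have hN0 : 0 < N := by linarith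
  have hprod : ∏ w : InfinitePlace K, z w ^ w.mult = Real.exp h * N := by
    rw [hh, hexp, mul_assoc, inv_mul_cancel₀ hN0.ne', mul_one]
  have hIne : I ≠ ⊥ := by
    intro hb
    obtain ⟨i, hi⟩ := Function.ne_iff.mp hX
    exact hi ((Ideal.span_eq_bot.mp hb) _ ⟨i, rfl⟩)
  have hIne' : (I : FractionalIdeal (𝓞 K)⁰ K) ≠ 0 := FractionalIdeal.coeIdeal_ne_zero.mpr hIne
  let J : (FractionalIdeal (𝓞 K)⁰ K)ˣ := Units.mk0 ((I : FractionalIdeal (𝓞 K)⁰ K))⁻¹
    (inv_ne_zero hIne')
  have hJn : ((FractionalIdeal.absNorm J.1 : ℚ) : ℝ) = N⁻¹ := by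
    have : (J.1 : FractionalIdeal (𝓞 K)⁰ K) = ((I : FractionalIdeal (𝓞 K)⁰ K))⁻¹ := rfl
    rw [this, map_inv₀, FractionalIdeal.coeIdeal_absNorm]
    push_cast
    rfl
  let f : InfinitePlace K → ℝ≥0 := fun w => Real.toNNReal (C * E / z w)
  have hf : ∀ w, ((f w : ℝ≥0) : ℝ) = C * E / z w := fun w =>
    Real.coe_toNNReal _ (div_nonneg (by positivity) (hz0 w).le)
  have hP : ((∏ w, f w ^ w.mult : ℝ≥0) : ℝ) = C ^ Module.finrank ℚ K / N := by
    push_cast
    have : ∀ w : InfinitePlace K, (f w : ℝ) ^ w.mult = (C * E) ^ w.mult / z w ^ w.mult := by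
      intro w
      rw [hf, div_pow]
    simp_rw [this]
    rw [Finset.prod_div_distrib, Finset.prod_pow_eq_pow_sum, hsum, mul_pow, hEd, hprod]
    have := Real.exp_pos h
    field_simp
  have hlt : minkowskiBound K J < volume (convexBodyLT K f) := by
    rw [hMJ, convexBodyLT_volume, hJn]
    have h1 : M = ENNReal.ofReal M.toReal := (ENNReal.ofReal_toReal hMtop.ne).symm
    have h2 : (((∏ w, f w ^ w.mult : ℝ≥0)) : ℝ≥0∞) =
        ENNReal.ofReal (C ^ Module.finrank ℚ K / N) := by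
      rw [← hP, ENNReal.ofReal_coe_nnreal]
    calc ENNReal.ofReal N⁻¹ * M = ENNReal.ofReal (N⁻¹ * M.toReal) := by
          rw [ENNReal.ofReal_mul (by positivity), ← h1]
      _ < ENNReal.ofReal (C ^ Module.finrank ℚ K / N) := by
          rw [ENNReal.ofReal_lt_ofReal_iff (by positivity)]
          rw [div_eq_mul_inv, mul_comm]
          refine mul_lt_mul_of_pos_right ?_ (by positivity)
          calc M.toReal < C := by linarith
            _ = C ^ 1 := (pow_one C).symm
            _ ≤ _ := pow_le_pow_right₀ hC1 hd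
      _ = 1 * (((∏ w, f w ^ w.mult : ℝ≥0)) : ℝ≥0∞) := by rw [h2, one_mul]
      _ ≤ _ := by
          gcongr
          exact_mod_cast one_le_convexBodyLTFactor K
  obtain ⟨t, htJ, ht0, htf⟩ := exists_ne_zero_mem_ideal_lt K J hlt
  refine ⟨t, ht0, ?_, ?_⟩
  · intro i
    have h1 : t ∈ ((I : FractionalIdeal (𝓞 K)⁰ K))⁻¹ := htJ
    rw [FractionalIdeal.mem_inv_iff hIne'] at h1
    have h2 := h1 (X i : K) (by
      rw [FractionalIdeal.mem_coeIdeal]
      exact ⟨X i, Ideal.subset_span ⟨i, rfl⟩, rfl⟩)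
    obtain ⟨y, hy⟩ := (FractionalIdeal.mem_one_iff _).mp h2
    exact ⟨y, hy⟩
  · intro w i
    rw [map_mul]
    have h1 : w t < C * E / z w := by rw [← hf w]; exact htf w
    have h2 : w (X i : K) ≤ z w := le_ciSup (f := fun i => w (X i : K))
      (Set.finite_range _).bddAbove i
    calc w t * w (X i : K) ≤ (C * E / z w) * z w :=
          mul_le_mul h1.le h2 (apply_nonneg _ _) (div_nonneg (by positivity) (hz0 w).le)
      _ = C * E := div_mul_cancel₀ _ (hz0 w).ne'

end bal

open scoped nonZeroDivisors in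
theorem exists_bal (K : Type*) [Field K] [NumberField K] (m : ℕ) :
    ∃ C₀ : ℝ, 1 ≤ C₀ ∧ ∀ x : Fin m → K, x ≠ 0 → ∃ t : K, t ≠ 0 ∧ Bal C₀ (t • x) := by
  obtain ⟨C, hC, hmin⟩ := bal_minkowski K
  refine ⟨C ^ Module.finrank ℚ K, one_le_pow₀ hC, ?_⟩
  intro x hx
  obtain ⟨b, hb⟩ := IsLocalization.exist_integer_multiples_of_finite (𝓞 K)⁰ x
  choose X hX using hb
  have hb0 : ((b : 𝓞 K) : K) ≠ 0 :=
    RingOfIntegers.coe_ne_zero_iff.mpr (nonZeroDivisors.coe_ne_zero b)
  have hX' : ∀ i, (X i : K) = (b : 𝓞 K) * x i := by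
    intro i
    have := hX i
    rw [Algebra.smul_def] at this
    exact this
  have hXf : (fun i => (X i : K)) = ((b : 𝓞 K) : K) • x := funext fun i => hX' i
  have hXne : X ≠ 0 := by
    obtain ⟨i, hi⟩ := Function.ne_iff.mp hx
    refine Function.ne_iff.mpr ⟨i, ?_⟩
    intro h0
    have h1 : (X i : K) = 0 := by rw [h0]; simp
    rw [hX' i] at h1
    exact hi ((mul_eq_zero.mp h1).resolve_left hb0)
  obtain ⟨t, ht0, hint, hw⟩ := hmin m X hXne
  choose Y hY using hint
  have hYf : (fun i => (Y i : K)) = (t * ((b : 𝓞 K) : K)) • x := by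
    funext i
    rw [hY i, hX' i, Pi.smul_apply, smul_eq_mul, mul_assoc]
  have htb : t * ((b : 𝓞 K) : K) ≠ 0 := mul_ne_zero ht0 hb0
  have hht : logHeight (fun i => (Y i : K)) = logHeight (fun i => (X i : K)) := by
    rw [hYf, hXf, logHeight_smul_eq_logHeight _ htb, logHeight_smul_eq_logHeight _ hb0]
  have hYne : Y ≠ 0 := by
    obtain ⟨i, hi⟩ := Function.ne_iff.mp hx
    refine Function.ne_iff.mpr ⟨i, ?_⟩
    intro h0
    have h1 : (Y i : K) = 0 := by rw [h0]; simp
    have h2 := congrFun hYf i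
    rw [h1, Pi.smul_apply, smul_eq_mul] at h2
    exact hi ((mul_eq_zero.mp h2.symm).resolve_left htb)
  refine ⟨t * ((b : 𝓞 K) : K), htb, ?_⟩
  rw [← hYf]
  refine bal_of_up hYne C hC ?_
  intro w i
  rw [hht, hY i]
  exact hw w i

end Pool.Agent.Lib.MP_44a246_nt.HP
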