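import Pool.Agent.Lib.MP_44a246_nt.HP.Defs
import Pool.Agent.Lib.MP_4d5ce1_nt.Rankin

set_option autoImplicit false

open NumberField IsDedekindDomain Height
open Pool.Agent.Lib.MP_4d5ce1_nt (ordv fa nv sum_nv_bound nv_pos two_le_nv one_lt_nv sum_pow_block
  sum_finsupp_le rankin_sum)

namespace Pool.Agent.Lib.MP_44a246_nt.HP

/-! ## HP-8 -/

private theorem code_count_free' (K : Type*) [Field K] [NumberField K] (q : ℕ) (hq : 1 ≤ q) (A₀ η : ℝ) (hA₀ : 0 ≤ A₀) (hη : 0 < η) :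
    ∃ C : ℝ, 0 < C ∧ ∀ β : ℝ, 0 ≤ β → ∀ (U : Finset (HeightOneSpectrum (𝓞 K)))
      (F : Finset (HeightOneSpectrum (𝓞 K) →₀ ℕ)),
      ∑ v ∈ U, lnv v ≤ A₀ * (β + 1) →
      (∀ κ ∈ F, κ.support ⊆ U) →
      (∀ κ ∈ F, ∑ v ∈ κ.support, (((κ v - 1) / q + 1 : ℕ) : ℝ) * lnv v ≤ A₀ * (β + 1)) →
      (F.card : ℝ) ≤ C * Real.exp (η * β) := by
  classical
  set t : ℝ := η / (2 * (A₀ + 1)) with ht
  have ht0 : 0 < t := by rw [ht]; positivity
  have h2t : (2 : ℝ) ^ (-t) < 1 := Real.rpow_lt_one_of_one_lt_of_neg (by norm_num) (by linarith)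
  set D : ℝ := q / (1 - (2 : ℝ) ^ (-t)) with hD
  have hq0 : (0 : ℝ) < q := by exact_mod_cast hq
  have hD0 : 0 < D := by
    rw [hD]
    exact div_pos hq0 (by linarith)
  obtain ⟨C2, hC2, hV⟩ := sum_nv_bound K 2 (by norm_num)
  have hlog2 : 0 < Real.log 2 := Real.log_pos (by norm_num)
  set T0 : ℝ := (D / (t * Real.log 2)) ^ (1 / t) with hT0
  have hT0pos : 0 < T0 := by
    rw [hT0]; positivity
  -- local bound
  have hloc : ∀ v : HeightOneSpectrum (𝓞 K),
      D * (nv v) ^ (-t) ≤ t * lnv v + D * T0 ^ (2 : ℕ) * (nv v) ^ (-(2 : ℝ)) := by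
    intro v
    have hn := nv_pos v
    have hl := lnv_pos v
    have hn1 := one_lt_nv v
    have hr0 : 0 < (nv v) ^ (-t) := Real.rpow_pos_of_pos hn _
    have hr1 : (nv v) ^ (-t) ≤ 1 := Real.rpow_le_one_of_one_le_of_nonpos hn1.le (by linarith)
    have e2 : (nv v) ^ (-(2 : ℝ)) = 1 / (nv v) ^ (2 : ℕ) := by
      rw [Real.rpow_neg hn.le, one_div]
      norm_cast
    rcases le_total T0 (nv v) with hc | hc
    · -- large norm
      have h1 : T0 ^ t = D / (t * Real.log 2) := by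
        rw [hT0, ← Real.rpow_mul (by positivity)]
        rw [one_div, inv_mul_cancel₀ ht0.ne', Real.rpow_one]
      have h2 : T0 ^ t ≤ (nv v) ^ t := Real.rpow_le_rpow hT0pos.le hc ht0.le
      rw [h1] at h2
      have h3 : D ≤ (nv v) ^ t * (t * Real.log 2) := by
        rwa [div_le_iff₀ (by positivity)] at h2
      have h4 : D * (nv v) ^ (-t) ≤ t * Real.log 2 := by
        calc D * (nv v) ^ (-t) ≤ (nv v) ^ t * (t * Real.log 2) * (nv v) ^ (-t) :=
              mul_le_mul_of_nonneg_right h3 hr0.le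
          _ = ((nv v) ^ t * (nv v) ^ (-t)) * (t * Real.log 2) := by ring
          _ = t * Real.log 2 := by
              rw [← Real.rpow_add hn]; simp
      have h5 : Real.log 2 ≤ lnv v := by
        unfold lnv
        exact Real.log_le_log (by norm_num) (two_le_nv v)
      have h6 : 0 ≤ D * T0 ^ (2 : ℕ) * (nv v) ^ (-(2 : ℝ)) := by positivity
      have h7 : t * Real.log 2 ≤ t * lnv v := mul_le_mul_of_nonneg_left h5 ht0.le
      linarith
    · -- small norm
      have h1 : D * (nv v) ^ (-t) ≤ D := by nlinarith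
      have h2 : D ≤ D * T0 ^ (2 : ℕ) * (nv v) ^ (-(2 : ℝ)) := by
        rw [e2]
        have h3 : (nv v) ^ (2 : ℕ) ≤ T0 ^ (2 : ℕ) := pow_le_pow_left₀ hn.le hc 2
        rw [mul_one_div, le_div_iff₀ (by positivity)]
        exact mul_le_mul_of_nonneg_left h3 hD0.le
      have h4 : 0 ≤ t * lnv v := by positivity
      linarith
  refine ⟨Real.exp (η + D * T0 ^ (2 : ℕ) * C2), Real.exp_pos _, ?_⟩
  intro β hβ U F hU hsupp hF
  set g : HeightOneSpectrum (𝓞 K) → ℕ → ℝ := fun v m =>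
    ((nv v) ^ (-t)) ^ ((m - 1) / q + 1) with hg
  have hg0 : ∀ v m, 0 ≤ g v m := by
    intro v m
    have := nv_pos v
    simp only [hg]
    positivity
  set S : HeightOneSpectrum (𝓞 K) → ℝ := fun v => D * (nv v) ^ (-t) with hSdef
  have hS : ∀ v, ∀ M : ℕ, ∑ m ∈ Finset.Ico 1 M, g v m ≤ S v := by
    intro v M
    have hn := nv_pos v
    have hn2 := two_le_nv v
    have hr1 : (nv v) ^ (-t) ≤ (2 : ℝ) ^ (-t) :=
      Real.rpow_le_rpow_of_nonpos (by norm_num) hn2 (by linarith)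
    have hr0 : 0 < (nv v) ^ (-t) := Real.rpow_pos_of_pos hn _
    have e1 : ∑ m ∈ Finset.Ico 1 M, g v m =
        ∑ m ∈ Finset.range (M - 1), ((nv v) ^ (-t)) ^ (m / q + 1) := by
      rw [Finset.sum_Ico_eq_sum_range]
      apply Finset.sum_congr rfl
      intro m _
      simp only [hg]
      rw [Nat.add_sub_cancel_left]
    rw [e1]
    have e2 := sum_pow_block q hq _ hr0.le (lt_of_le_of_lt hr1 h2t) (M - 1)
    calc ∑ m ∈ Finset.range (M - 1), ((nv v) ^ (-t)) ^ (m / q + 1)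
        ≤ q * ((nv v) ^ (-t) / (1 - (nv v) ^ (-t))) := e2
      _ ≤ q * ((nv v) ^ (-t) / (1 - (2 : ℝ) ^ (-t))) := by
          have : 0 < 1 - (2 : ℝ) ^ (-t) := by linarith
          gcongr
      _ = S v := by
          simp only [hSdef, hD]
          ring
  have hone : ∀ κ ∈ F, (1 : ℝ) ≤ Real.exp (t * (A₀ * (β + 1))) * ∏ v ∈ κ.support, g v (κ v) := by
    intro κ hκ
    have e2 : ∏ v ∈ κ.support, g v (κ v) =
        Real.exp (-t * ∑ v ∈ κ.support, (((κ v - 1) / q + 1 : ℕ) : ℝ) * lnv v) := by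
      rw [Finset.mul_sum, Real.exp_sum]
      apply Finset.prod_congr rfl
      intro v _
      have hn := nv_pos v
      simp only [hg]
      rw [← Real.rpow_natCast, ← Real.rpow_mul hn.le, Real.rpow_def_of_pos hn]
      congr 1
      unfold lnv
      ring
    rw [e2, ← Real.exp_add, Real.one_le_exp_iff]
    have := hF κ hκ
    nlinarith
  have hsum : ∑ κ ∈ F, ∏ v ∈ κ.support, g v (κ v) ≤
      Real.exp (t * (A₀ * (β + 1)) + D * T0 ^ (2 : ℕ) * C2) := by
    refine (sum_finsupp_le F g hg0 S hS).trans ?_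
    rw [Real.exp_le_exp]
    have hsub : F.biUnion (fun κ => κ.support) ⊆ U := by
      intro v hv
      rw [Finset.mem_biUnion] at hv
      obtain ⟨κ, hκ, hv⟩ := hv
      exact hsupp κ hκ hv
    calc ∑ v ∈ F.biUnion (fun κ => κ.support), S v ≤ ∑ v ∈ U, S v := by
          refine Finset.sum_le_sum_of_subset_of_nonneg hsub fun v _ _ => ?_
          have := nv_pos v
          simp only [hSdef]
          positivity
      _ ≤ ∑ v ∈ U, (t * lnv v + D * T0 ^ (2 : ℕ) * (nv v) ^ (-(2 : ℝ))) :=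
          Finset.sum_le_sum fun v _ => hloc v
      _ = t * ∑ v ∈ U, lnv v + D * T0 ^ (2 : ℕ) * ∑ v ∈ U, (nv v) ^ (-(2 : ℝ)) := by
          rw [Finset.sum_add_distrib, Finset.mul_sum, Finset.mul_sum]
      _ ≤ t * (A₀ * (β + 1)) + D * T0 ^ (2 : ℕ) * C2 := by
          have h1 := hV U
          have h2 : 0 ≤ D * T0 ^ (2 : ℕ) := by positivity
          have h3 := mul_le_mul_of_nonneg_left hU ht0.le
          have h4 := mul_le_mul_of_nonneg_left h1 h2
          linarith
  calc (F.card : ℝ) = ∑ κ ∈ F, (1 : ℝ) := by simp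
    _ ≤ ∑ κ ∈ F, Real.exp (t * (A₀ * (β + 1))) * ∏ v ∈ κ.support, g v (κ v) :=
        Finset.sum_le_sum hone
    _ = Real.exp (t * (A₀ * (β + 1))) * ∑ κ ∈ F, ∏ v ∈ κ.support, g v (κ v) := by
        rw [Finset.mul_sum]
    _ ≤ Real.exp (t * (A₀ * (β + 1))) *
        Real.exp (t * (A₀ * (β + 1)) + D * T0 ^ (2 : ℕ) * C2) :=
        mul_le_mul_of_nonneg_left hsum (Real.exp_pos _).le
    _ ≤ Real.exp (η + D * T0 ^ (2 : ℕ) * C2) * Real.exp (η * β) := by
        rw [← Real.exp_add, ← Real.exp_add, Real.exp_le_exp]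
        have h1 : t * (A₀ * (β + 1)) + t * (A₀ * (β + 1)) = (A₀ / (A₀ + 1)) * (η * (β + 1)) := by
          rw [ht]
          field_simp
          ring
        have h2 : A₀ / (A₀ + 1) ≤ 1 := by
          rw [div_le_one (by positivity)]; linarith
        have h3 : 0 ≤ η * (β + 1) := by positivity
        have h4 : (A₀ / (A₀ + 1)) * (η * (β + 1)) ≤ 1 * (η * (β + 1)) :=
          mul_le_mul_of_nonneg_right h2 h3
        linarith


private theorem code_count_one (K : Type*) [Field K] [NumberField K] (A₀ η : ℝ) (hA₀ : 0 ≤ A₀)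
    (hη : 0 < η) :
    ∃ C : ℝ, 0 < C ∧ ∀ β : ℝ, 0 ≤ β → ∀ (U : Finset (HeightOneSpectrum (𝓞 K)))
      (F : Finset (HeightOneSpectrum (𝓞 K) →₀ ℕ)),
      ∑ v ∈ U, lnv v ≤ A₀ * (β + 1) →
      (∀ κ ∈ F, κ.support ⊆ U) →
      (∀ κ ∈ F, ∑ v ∈ κ.support, (κ v : ℝ) * lnv v ≤ A₀ * (β + 1)) →
      (F.card : ℝ) ≤ C * Real.exp (η * β) := by
  obtain ⟨C, hC, h⟩ := code_count_free' K 1 le_rfl A₀ η hA₀ hη
  refine ⟨C, hC, fun β hβ U F hU hs hF => h β hβ U F hU hs fun κ hκ => ?_⟩
  refine le_trans (le_of_eq (Finset.sum_congr rfl fun v hv => ?_)) (hF κ hκ)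
  have h1 : 1 ≤ κ v := Nat.one_le_iff_ne_zero.2 (Finsupp.mem_support_iff.1 hv)
  rw [Nat.div_one, Nat.sub_add_cancel h1]

theorem key_free (K : Type*) [Field K] [NumberField K] (J : Type) [Fintype J] (A η : ℝ)
    (hA : 0 ≤ A) (hη : 0 < η) :
    ∃ C : ℝ, 0 < C ∧ ∀ β : ℝ, 0 ≤ β → ∀ (U : Finset (HeightOneSpectrum (𝓞 K)))
      (F : Finset (HeightOneSpectrum (𝓞 K) →₀ (J → ℕ))),
      ∑ v ∈ U, lnv v ≤ A * (β + 1) →
      (∀ κ ∈ F, κ.support ⊆ U) →
      (∀ κ ∈ F, ∑ v ∈ κ.support, ((∑ l, κ v l : ℕ) : ℝ) * lnv v ≤ A * (β + 1)) →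
      (F.card : ℝ) ≤ C * Real.exp (η * β) := by
  classical
  obtain ⟨C, hC, h⟩ := code_count_one K A (η / (Fintype.card J + 1)) hA (by positivity)
  refine ⟨C ^ Fintype.card J, by positivity, fun β hβ U F hU hs hF => ?_⟩
  set pr : J → (HeightOneSpectrum (𝓞 K) →₀ (J → ℕ)) → (HeightOneSpectrum (𝓞 K) →₀ ℕ) :=
    fun l κ => κ.mapRange (fun f => f l) rfl with hpr
  have hpra : ∀ l κ v, pr l κ v = κ v l := fun l κ v => rfl
  have hprs : ∀ l κ, (pr l κ).support ⊆ κ.support := fun l κ => Finsupp.support_mapRange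
  have h1 : ∀ l, ((F.image (pr l)).card : ℝ) ≤ C * Real.exp (η / (Fintype.card J + 1) * β) := by
    intro l
    refine h β hβ U _ hU ?_ ?_
    · intro κ' hκ'
      obtain ⟨κ, hκ, rfl⟩ := Finset.mem_image.1 hκ'
      exact (hprs l κ).trans (hs κ hκ)
    · intro κ' hκ'
      obtain ⟨κ, hκ, rfl⟩ := Finset.mem_image.1 hκ'
      calc ∑ v ∈ (pr l κ).support, ((pr l κ v : ℕ) : ℝ) * lnv v
          ≤ ∑ v ∈ κ.support, ((pr l κ v : ℕ) : ℝ) * lnv v := by
            refine Finset.sum_le_sum_of_subset_of_nonneg (hprs l κ) fun v _ _ => ?_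
            have := lnv_pos v
            positivity
        _ ≤ ∑ v ∈ κ.support, ((∑ l, κ v l : ℕ) : ℝ) * lnv v := by
            refine Finset.sum_le_sum fun v _ => ?_
            have h2 := lnv_pos v
            have h3 : κ v l ≤ ∑ l, κ v l :=
              Finset.single_le_sum (f := fun l => κ v l) (fun _ _ => Nat.zero_le _)
                (Finset.mem_univ l)
            have h4 : ((pr l κ v : ℕ) : ℝ) ≤ ((∑ l, κ v l : ℕ) : ℝ) := by
              rw [hpra]; exact_mod_cast h3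
            exact mul_le_mul_of_nonneg_right h4 h2.le
        _ ≤ _ := hF κ hκ
  have h2 : F.card ≤ ∏ l, (F.image (pr l)).card := by
    rw [← Fintype.card_piFinset]
    refine Finset.card_le_card_of_injOn (fun κ l => pr l κ) (fun κ hκ => ?_) ?_
    · rw [Finset.mem_coe, Fintype.mem_piFinset]
      exact fun l => Finset.mem_image_of_mem _ hκ
    · intro κ _ κ' _ he
      ext v l
      have h3 := congrFun he l
      have h4 := DFunLike.congr_fun h3 v
      exact h4
  calc (F.card : ℝ) ≤ ∏ l, ((F.image (pr l)).card : ℝ) := by exact_mod_cast h2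
    _ ≤ ∏ _l : J, C * Real.exp (η / (Fintype.card J + 1) * β) :=
        Finset.prod_le_prod (fun _ _ => Nat.cast_nonneg _) fun l _ => h1 l
    _ = C ^ Fintype.card J * Real.exp (η / (Fintype.card J + 1) * β) ^ Fintype.card J := by
        rw [Finset.prod_const, Finset.card_univ, mul_pow]
    _ ≤ C ^ Fintype.card J * Real.exp (η * β) := by
        refine mul_le_mul_of_nonneg_left ?_ (by positivity)
        rw [← Real.exp_nat_mul, Real.exp_le_exp]
        have h5 : (0:ℝ) ≤ Fintype.card J := Nat.cast_nonneg _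
        have h6 : (Fintype.card J : ℝ) * (η / (Fintype.card J + 1) * β) =
            (Fintype.card J / (Fintype.card J + 1)) * (η * β) := by ring
        rw [h6]
        have h7 : (Fintype.card J : ℝ) / (Fintype.card J + 1) ≤ 1 := by
          rw [div_le_one (by positivity)]; linarith
        have h8 : 0 ≤ η * β := by positivity
        nlinarith

private theorem pow_le_exp' (A η : ℝ) (hA : 0 ≤ A) (hη : 0 < η) (M : ℕ) :
    ∃ C : ℝ, 0 < C ∧ ∀ β : ℝ, 0 ≤ β → (A * (β + 1) + 1) ^ M ≤ C * Real.exp (η * β) := by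
  set s : ℝ := min 1 (η / (M + 1)) with hs
  have hs0 : 0 < s := lt_min one_pos (by positivity)
  have hs1 : s ≤ 1 := min_le_left _ _
  refine ⟨((A + 1) / s) ^ M, by positivity, fun β hβ => ?_⟩
  have h1 : A * (β + 1) + 1 ≤ (A + 1) / s * Real.exp (s * β) := by
    have h2 := Real.add_one_le_exp (s * β)
    have h3 : s * (β + 1) ≤ Real.exp (s * β) := by nlinarith
    rw [div_mul_eq_mul_div, le_div_iff₀ hs0]
    have h4 : A * (β + 1) + 1 ≤ (A + 1) * (β + 1) := by nlinarith
    calc (A * (β + 1) + 1) * s ≤ (A + 1) * (β + 1) * s := by gcongr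
      _ = (A + 1) * (s * (β + 1)) := by ring
      _ ≤ _ := by gcongr
  calc (A * (β + 1) + 1) ^ M ≤ ((A + 1) / s * Real.exp (s * β)) ^ M := by gcongr
    _ = ((A + 1) / s) ^ M * Real.exp (M * (s * β)) := by rw [mul_pow, ← Real.exp_nat_mul]
    _ ≤ ((A + 1) / s) ^ M * Real.exp (η * β) := by
        have h5 : s ≤ η / (M + 1) := min_le_right _ _
        have h6 : (M : ℝ) * s ≤ η := by
          have h7 : (0:ℝ) ≤ M := Nat.cast_nonneg _
          calc (M : ℝ) * s ≤ (M + 1) * s := by nlinarith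
            _ ≤ (M + 1) * (η / (M + 1)) := by gcongr
            _ = η := by field_simp
        have h8 : (M : ℝ) * (s * β) ≤ η * β := by
          rw [← mul_assoc]
          exact mul_le_mul_of_nonneg_right h6 hβ
        exact mul_le_mul_of_nonneg_left (Real.exp_le_exp.2 h8) (by positivity)

theorem key_sum (K : Type*) [Field K] [NumberField K] (J : Type) [Fintype J] (A η : ℝ)
    (hA : 0 ≤ A) (hη : 0 < η) :
    ∃ C : ℝ, 0 < C ∧ ∀ β : ℝ, 0 ≤ β →
      ∀ F : Finset ((HeightOneSpectrum (𝓞 K) →₀ (J → ℕ)) × (InfinitePlace K → J → ℕ)),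
      (∀ p ∈ F, siz p.1 p.2 ≤ A * (β + 1)) →
      ∑ p ∈ F, Real.exp (- ∑ v ∈ p.1.support, lnv v) ≤ C * Real.exp (η * β) := by
  classical
  obtain ⟨C1, hC1, hfree⟩ := key_free K J A (η / 3) hA (by positivity)
  obtain ⟨C2, hC2, hpow⟩ := pow_le_exp' A (η / 3) hA (by positivity)
    (Fintype.card J * Fintype.card (InfinitePlace K))
  obtain ⟨C3, hC3, hrk⟩ := rankin_sum K 1 le_rfl 1 (η / (3 * (A + 1))) zero_le_one (by positivity)
  refine ⟨C1 * C2 * C3 * Real.exp (η / 3), by positivity, fun β hβ F hF => ?_⟩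
  have hfin : ∀ p ∈ F, ∑ v ∈ p.1.support, ((∑ l, p.1 v l : ℕ) : ℝ) * lnv v ≤ A * (β + 1) := by
    intro p hp
    have h1 := hF p hp
    have h2 : (0:ℝ) ≤ ∑ w, ((∑ l, p.2 w l : ℕ) : ℝ) :=
      Finset.sum_nonneg fun _ _ => Nat.cast_nonneg _
    unfold siz at h1
    linarith
  have hinf : ∀ p ∈ F, ∀ w l, p.2 w l ≤ ⌊A * (β + 1)⌋₊ := by
    intro p hp w l
    refine Nat.le_floor ?_
    have h1 := hF p hp
    have h2 : (0:ℝ) ≤ ∑ v ∈ p.1.support, ((∑ l, p.1 v l : ℕ) : ℝ) * lnv v :=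
      Finset.sum_nonneg fun v _ => by have := lnv_pos v; positivity
    have h3 : ((∑ l, p.2 w l : ℕ) : ℝ) ≤ ∑ w, ((∑ l, p.2 w l : ℕ) : ℝ) :=
      Finset.single_le_sum (f := fun w => ((∑ l, p.2 w l : ℕ) : ℝ))
        (fun _ _ => Nat.cast_nonneg _) (Finset.mem_univ w)
    have h4 : p.2 w l ≤ ∑ l, p.2 w l :=
      Finset.single_le_sum (f := fun l => p.2 w l) (fun _ _ => Nat.zero_le _) (Finset.mem_univ l)
    have h5 : ((p.2 w l : ℕ) : ℝ) ≤ ((∑ l, p.2 w l : ℕ) : ℝ) := by exact_mod_cast h4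
    unfold siz at h1
    linarith
  -- the number of exponents at the infinite places
  have hcard : ∀ κ, ((F.filter fun p => p.1 = κ).card : ℝ) ≤ C2 * Real.exp (η / 3 * β) := by
    intro κ
    have h1 : (F.filter fun p => p.1 = κ).card ≤
        (Fintype.piFinset fun _ : InfinitePlace K => Fintype.piFinset fun _ : J =>
          Finset.range (⌊A * (β + 1)⌋₊ + 1)).card := by
      refine Finset.card_le_card_of_injOn (fun p => p.2) (fun p hp => ?_) ?_
      · rw [Finset.mem_coe, Finset.mem_filter] at hp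
        rw [Finset.mem_coe, Fintype.mem_piFinset]
        intro w
        rw [Fintype.mem_piFinset]
        intro l
        rw [Finset.mem_range]
        exact Nat.lt_succ_of_le (hinf p hp.1 w l)
      · intro p hp p' hp' he
        rw [Finset.mem_coe, Finset.mem_filter] at hp hp'
        exact Prod.ext (hp.2.trans hp'.2.symm) he
    rw [Fintype.card_piFinset, Finset.prod_const, Fintype.card_piFinset, Finset.prod_const,
      Finset.card_range, Finset.card_univ, Finset.card_univ, ← pow_mul] at h1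
    calc ((F.filter fun p => p.1 = κ).card : ℝ)
        ≤ ((⌊A * (β + 1)⌋₊ : ℝ) + 1) ^ (Fintype.card J * Fintype.card (InfinitePlace K)) := by
          exact_mod_cast h1
      _ ≤ (A * (β + 1) + 1) ^ (Fintype.card J * Fintype.card (InfinitePlace K)) := by
          have : (⌊A * (β + 1)⌋₊ : ℝ) ≤ A * (β + 1) := Nat.floor_le (by positivity)
          gcongr
      _ ≤ _ := hpow β hβ
  have hsum1 : ∑ p ∈ F, Real.exp (- ∑ v ∈ p.1.support, lnv v) ≤
      C2 * Real.exp (η / 3 * β) * ∑ κ ∈ F.image Prod.fst, Real.exp (- ∑ v ∈ κ.support, lnv v) := by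
    rw [← Finset.sum_fiberwise_of_maps_to (g := Prod.fst) (t := F.image Prod.fst)
      (fun p hp => Finset.mem_image_of_mem _ hp), Finset.mul_sum]
    refine Finset.sum_le_sum fun κ _ => ?_
    have h1 : ∑ p ∈ F.filter (fun p => p.1 = κ), Real.exp (- ∑ v ∈ p.1.support, lnv v) =
        ((F.filter fun p => p.1 = κ).card : ℝ) * Real.exp (- ∑ v ∈ κ.support, lnv v) := by
      rw [← nsmul_eq_mul, ← Finset.sum_const]
      refine Finset.sum_congr rfl fun p hp => ?_
      rw [(Finset.mem_filter.1 hp).2]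
    rw [h1]
    exact mul_le_mul_of_nonneg_right (hcard κ) (Real.exp_pos _).le
  set F1 := F.image Prod.fst with hF1
  have hF1s : ∀ κ ∈ F1, ∑ v ∈ κ.support, ((∑ l, κ v l : ℕ) : ℝ) * lnv v ≤ A * (β + 1) := by
    intro κ hκ
    obtain ⟨p, hp, rfl⟩ := Finset.mem_image.1 hκ
    exact hfin p hp
  have hF1c : ∀ κ ∈ F1, ∑ v ∈ κ.support, lnv v ≤ A * (β + 1) := by
    intro κ hκ
    refine le_trans (Finset.sum_le_sum fun v hv => ?_) (hF1s κ hκ)
    have h1 : κ v ≠ 0 := Finsupp.mem_support_iff.1 hv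
    have h2 : 1 ≤ ∑ l, κ v l := by
      by_contra hlt
      apply h1
      have h3 : ∑ l, κ v l = 0 := by omega
      funext l
      exact (Finset.sum_eq_zero_iff.1 h3) l (Finset.mem_univ l)
    have h3 : (1:ℝ) ≤ ((∑ l, κ v l : ℕ) : ℝ) := by exact_mod_cast h2
    have h4 := lnv_pos v
    nlinarith
  have hsum2 : ∑ κ ∈ F1, Real.exp (- ∑ v ∈ κ.support, lnv v) ≤
      C1 * Real.exp (η / 3 * β) *
        ∑ U ∈ F1.image Finsupp.support, Real.exp (- ∑ v ∈ U, lnv v) := by
    rw [← Finset.sum_fiberwise_of_maps_to (g := Finsupp.support) (t := F1.image Finsupp.support)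
      (fun p hp => Finset.mem_image_of_mem _ hp), Finset.mul_sum]
    refine Finset.sum_le_sum fun U hU => ?_
    have h1 : ∑ κ ∈ F1.filter (fun κ => κ.support = U), Real.exp (- ∑ v ∈ κ.support, lnv v) =
        ((F1.filter fun κ => κ.support = U).card : ℝ) * Real.exp (- ∑ v ∈ U, lnv v) := by
      rw [← nsmul_eq_mul, ← Finset.sum_const]
      refine Finset.sum_congr rfl fun p hp => ?_
      rw [(Finset.mem_filter.1 hp).2]
    rw [h1]
    refine mul_le_mul_of_nonneg_right (hfree β hβ U _ ?_ ?_ ?_) (Real.exp_pos _).le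
    · obtain ⟨κ, hκ, rfl⟩ := Finset.mem_image.1 hU
      exact hF1c κ hκ
    · intro κ hκ
      exact (Finset.mem_filter.1 hκ).2.le
    · intro κ hκ
      exact hF1s κ (Finset.mem_filter.1 hκ).1
  -- the sum over the supports
  set ind1 : Finset (HeightOneSpectrum (𝓞 K)) → (HeightOneSpectrum (𝓞 K) →₀ ℕ) :=
    fun U => Finsupp.indicator U (fun _ _ => 1) with hind
  have hinds : ∀ U, (ind1 U).support = U := by
    intro U
    ext v
    rw [Finsupp.mem_support_iff]
    by_cases h : v ∈ U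
    · simp [hind, h]
    · simp [hind, h]
  have hindv : ∀ U v, v ∈ U → ind1 U v = 1 := by
    intro U v h
    simp [hind, h]
  have hY : (1 : ℝ) ≤ Real.exp (A * (β + 1)) := by
    rw [Real.one_le_exp_iff]; positivity
  have hsum3 : ∑ U ∈ F1.image Finsupp.support, Real.exp (- ∑ v ∈ U, lnv v) ≤
      C3 * (Real.exp (A * (β + 1))) ^ (η / (3 * (A + 1))) := by
    have h1 := hrk (Real.exp (A * (β + 1))) hY ((F1.image Finsupp.support).image ind1) (by
      intro κ' hκ'
      obtain ⟨U, hU, rfl⟩ := Finset.mem_image.1 hκ'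
      obtain ⟨κ, hκ, rfl⟩ := Finset.mem_image.1 hU
      rw [Real.log_exp, hinds]
      refine le_trans (le_of_eq (Finset.sum_congr rfl fun v hv => ?_)) (hF1c κ hκ)
      rw [hindv _ _ hv]
      simp [lnv])
    rw [Finset.sum_image (fun U _ U' _ h => by rw [← hinds U, h, hinds])] at h1
    refine le_trans (le_of_eq (Finset.sum_congr rfl fun U _ => ?_)) h1
    rw [hinds, ← Finset.sum_neg_distrib, Real.exp_sum]
    refine Finset.prod_congr rfl fun v _ => ?_
    rw [lnv, Real.exp_neg, Real.exp_log (nv_pos v), one_div]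
  have hexp : (Real.exp (A * (β + 1))) ^ (η / (3 * (A + 1))) ≤
      Real.exp (η / 3) * Real.exp (η / 3 * β) := by
    rw [← Real.exp_mul, ← Real.exp_add, Real.exp_le_exp]
    have e1 : A * (β + 1) * (η / (3 * (A + 1))) = (A / (A + 1)) * (η / 3 * (β + 1)) := by
      field_simp
    rw [e1]
    have e2 : A / (A + 1) ≤ 1 := by
      rw [div_le_one (by positivity)]; linarith
    have e3 : 0 ≤ η / 3 * (β + 1) := by positivity
    nlinarith
  calc ∑ p ∈ F, Real.exp (- ∑ v ∈ p.1.support, lnv v)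
      ≤ C2 * Real.exp (η / 3 * β) * (C1 * Real.exp (η / 3 * β) *
          (C3 * (Real.exp (η / 3) * Real.exp (η / 3 * β)))) := by
        refine hsum1.trans (mul_le_mul_of_nonneg_left (hsum2.trans ?_) (by positivity))
        refine mul_le_mul_of_nonneg_left (hsum3.trans ?_) (by positivity)
        exact mul_le_mul_of_nonneg_left hexp hC3.le
    _ = C1 * C2 * C3 * Real.exp (η / 3) * (Real.exp (η / 3 * β) * Real.exp (η / 3 * β) *
          Real.exp (η / 3 * β)) := by ring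
    _ = C1 * C2 * C3 * Real.exp (η / 3) * Real.exp (η * β) := by
        rw [← Real.exp_add, ← Real.exp_add]
        congr 2
        ring

end Pool.Agent.Lib.MP_44a246_nt.HP
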