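import Pool.Agent.Lib.MP_44a246_nt.HP.Defs

set_option autoImplicit false

open NumberField IsDedekindDomain Height
open Pool.Agent.Lib.MP_4d5ce1_nt (ordv fa nv)

namespace Pool.Agent.Lib.MP_44a246_nt.HP

/-! ## HP-16 -/

/-- A pair of distinct indices bounds `tt` from below. -/
lemma comb_pair_le_tt {q : ℕ} (e : Fin q → ℕ) {Λ : Finset (Fin q)} {l l' : Fin q}
    (hl : l ∈ Λ) (hl' : l' ∈ Λ) (h : l ≠ l') : e l + e l' ≤ tt e Λ := by
  unfold tt
  exact Finset.le_sup (f := fun p : Fin q × Fin q => e p.1 + e p.2)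
    (b := (l, l')) (Finset.mem_offDiag.mpr ⟨hl, hl', h⟩)

/-- If `Λ` has at least two elements, each value of `e` on `Λ` is at most `tt`. -/
lemma comb_single_le_tt {q : ℕ} (e : Fin q → ℕ) {Λ : Finset (Fin q)} (hΛ : 2 ≤ Λ.card)
    {l : Fin q} (hl : l ∈ Λ) : e l ≤ tt e Λ := by
  obtain ⟨l', hl', hne⟩ := Finset.exists_mem_ne (by omega : 1 < Λ.card) l
  have := comb_pair_le_tt e hl hl' hne.symm
  omega

/-- Sum over a set `S` containing `l₁`. -/
lemma comb_sum_erase_le {q : ℕ} (e : Fin q → ℕ) (S : Finset (Fin q)) {l₁ : Fin q}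
    (h₁ : l₁ ∈ S) :
    (S.card - 1) * e l₁ + ∑ l ∈ S.erase l₁, e l ≤ (S.card - 1) * tt e Finset.univ := by
  have hc : (S.erase l₁).card = S.card - 1 := Finset.card_erase_of_mem h₁
  calc (S.card - 1) * e l₁ + ∑ l ∈ S.erase l₁, e l
      = ∑ l ∈ S.erase l₁, (e l₁ + e l) := by
        rw [Finset.sum_add_distrib, Finset.sum_const, hc, smul_eq_mul]
    _ ≤ ∑ _l ∈ S.erase l₁, tt e Finset.univ :=
        Finset.sum_le_sum fun l hl =>
          comb_pair_le_tt e (Finset.mem_univ _) (Finset.mem_univ _)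
            (Finset.ne_of_mem_erase hl).symm
    _ = (S.card - 1) * tt e Finset.univ := by
        rw [Finset.sum_const, hc, smul_eq_mul]

/-- The sum of `e` over a set with at most `n` elements. -/
lemma comb_sum_S_le {q n : ℕ} (hn : 2 ≤ n) (hq : 2 ≤ q) (e : Fin q → ℕ) (S : Finset (Fin q))
    (h : S.card ≤ n) : ∑ l ∈ S, e l ≤ (n - 1) * tt e Finset.univ := by
  rcases S.eq_empty_or_nonempty with rfl | ⟨l₁, h₁⟩
  · simp
  have hpos : 1 ≤ S.card := Finset.card_pos.mpr ⟨l₁, h₁⟩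
  have hsplit : ∑ l ∈ S, e l = e l₁ + ∑ l ∈ S.erase l₁, e l :=
    (Finset.add_sum_erase S e h₁).symm
  rcases Nat.lt_or_ge S.card 2 with hlt | hge
  · have hc1 : S.card = 1 := by omega
    have hem : S.erase l₁ = ∅ := by
      rw [← Finset.card_eq_zero, Finset.card_erase_of_mem h₁, hc1]
    have hsum : ∑ l ∈ S, e l = e l₁ := by rw [hsplit, hem, Finset.sum_empty, add_zero]
    have h1 : e l₁ ≤ tt e Finset.univ :=
      comb_single_le_tt e (by simpa using hq) (Finset.mem_univ _)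
    calc ∑ l ∈ S, e l = e l₁ := hsum
      _ ≤ 1 * tt e Finset.univ := by omega
      _ ≤ (n - 1) * tt e Finset.univ := Nat.mul_le_mul_right _ (by omega)
  · have h1 := comb_sum_erase_le e S h₁
    have h2 : e l₁ ≤ (S.card - 1) * e l₁ := Nat.le_mul_of_pos_left _ (by omega)
    calc ∑ l ∈ S, e l = e l₁ + ∑ l ∈ S.erase l₁, e l := hsplit
      _ ≤ (S.card - 1) * e l₁ + ∑ l ∈ S.erase l₁, e l := by omega
      _ ≤ (S.card - 1) * tt e Finset.univ := h1
      _ ≤ (n - 1) * tt e Finset.univ := Nat.mul_le_mul_right _ (by omega)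

theorem sum_le_tt {q n : ℕ} (hn : 2 ≤ n) (hq : 2 ≤ q) (e : Fin q → ℕ) (c : ℕ)
    (h : (Finset.univ.filter fun l => c < e l).card ≤ n) :
    ∑ l, e l ≤ (n - 1) * tt e Finset.univ + q * c := by
  rw [← Finset.sum_filter_add_sum_filter_not Finset.univ (fun l => c < e l)]
  refine Nat.add_le_add (comb_sum_S_le hn hq e _ h) ?_
  calc ∑ l ∈ Finset.univ.filter (fun l => ¬ c < e l), e l
      ≤ ∑ _l ∈ Finset.univ.filter (fun l => ¬ c < e l), c :=
        Finset.sum_le_sum fun l hl => by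
          have := (Finset.mem_filter.mp hl).2
          omega
    _ = (Finset.univ.filter (fun l => ¬ c < e l)).card * c := by
        rw [Finset.sum_const, smul_eq_mul]
    _ ≤ q * c := Nat.mul_le_mul_right _ (by
        simpa using Finset.card_le_univ (Finset.univ.filter (fun l => ¬ c < e l)))

theorem excess_le {q n : ℕ} (hn : 2 ≤ n) (hq : 2 ≤ q) (e : Fin q → ℕ) (he : e ≠ 0)
    (h : (Finset.univ.filter fun l => e l ≠ 0).card ≤ n) :
    ((∑ l, e l : ℕ) : ℝ) - 1 ≤ (n - 1) * ((tt e Finset.univ : ℝ) - 1) := by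
  set S := Finset.univ.filter fun l => e l ≠ 0 with hS
  obtain ⟨l₁, hl₁⟩ := Function.ne_iff.mp he
  have h₁ : l₁ ∈ S := Finset.mem_filter.mpr ⟨Finset.mem_univ _, hl₁⟩
  have he1 : 1 ≤ e l₁ := Nat.one_le_iff_ne_zero.mpr hl₁
  have hpos : 1 ≤ S.card := Finset.card_pos.mpr ⟨l₁, h₁⟩
  have hsum : ∑ l, e l = ∑ l ∈ S, e l := by
    rw [hS]
    exact (Finset.sum_filter_ne_zero (s := Finset.univ) (f := e)).symm
  have hsplit : ∑ l ∈ S, e l = e l₁ + ∑ l ∈ S.erase l₁, e l :=
    (Finset.add_sum_erase S e h₁).symm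
  have h1 := comb_sum_erase_le e S h₁
  have h3 : e l₁ ≤ tt e Finset.univ :=
    comb_single_le_tt e (by simpa using hq) (Finset.mem_univ _)
  have hnR : (2 : ℝ) ≤ n := by exact_mod_cast hn
  have htR : (1 : ℝ) ≤ tt e Finset.univ := by exact_mod_cast he1.trans h3
  rcases Nat.lt_or_ge S.card 2 with hlt | hge
  · have hc1 : S.card = 1 := by omega
    have hem : S.erase l₁ = ∅ := by
      rw [← Finset.card_eq_zero, Finset.card_erase_of_mem h₁, hc1]
    have hs : ∑ l, e l = e l₁ := by rw [hsum, hsplit, hem, Finset.sum_empty, add_zero]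
    rw [hs]
    have h4 : (e l₁ : ℝ) ≤ tt e Finset.univ := by exact_mod_cast h3
    nlinarith
  · obtain ⟨m, hm⟩ : ∃ m, S.card = m + 2 := ⟨S.card - 2, by omega⟩
    rw [hm] at h1 h
    have h1' : (((m + 2 - 1) * e l₁ + ∑ l ∈ S.erase l₁, e l : ℕ) : ℝ) ≤
        (((m + 2 - 1) * tt e Finset.univ : ℕ) : ℝ) := by exact_mod_cast h1
    have hm1 : m + 2 - 1 = m + 1 := by omega
    rw [hm1] at h1'
    rw [hsum, hsplit]
    push_cast at h1' ⊢
    have h5 : (1 : ℝ) ≤ e l₁ := by exact_mod_cast he1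
    have h6 : (m : ℝ) + 2 ≤ n := by exact_mod_cast h
    have h7 : (0 : ℝ) ≤ m := Nat.cast_nonneg m
    have h8 : (m : ℝ) * 1 ≤ m * e l₁ := mul_le_mul_of_nonneg_left h5 h7
    have h9 : ((m : ℝ) + 1) * ((tt e Finset.univ : ℝ) - 1) ≤
        (n - 1) * ((tt e Finset.univ : ℝ) - 1) :=
      mul_le_mul_of_nonneg_right (by linarith) (by linarith)
    nlinarith

theorem tt_univ_le {q : ℕ} (F : Finset (Fin q)) (hF : 2 ≤ Fᶜ.card) (e : Fin q → ℕ) :
    tt e Finset.univ ≤ ∑ g ∈ F, e g + tt e Fᶜ := by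
  have hsingle : ∀ l ∈ F, e l ≤ ∑ g ∈ F, e g := fun l hl =>
    Finset.single_le_sum (fun _ _ => Nat.zero_le _) hl
  unfold tt
  refine Finset.sup_le ?_
  rintro ⟨l, l'⟩ hp
  obtain ⟨-, -, hne⟩ := Finset.mem_offDiag.mp hp
  change e l + e l' ≤ ∑ g ∈ F, e g + tt e Fᶜ
  by_cases hl : l ∈ F
  · by_cases hl' : l' ∈ F
    · have : e l + e l' ≤ ∑ g ∈ F, e g := by
        rw [← Finset.sum_pair hne]
        refine Finset.sum_le_sum_of_subset ?_
        intro x hx
        rcases Finset.mem_insert.mp hx with rfl | hx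
        · exact hl
        · rw [Finset.mem_singleton.mp hx]
          exact hl'
      omega
    · have h1 := hsingle l hl
      have h2 := comb_single_le_tt e hF (Finset.mem_compl.mpr hl')
      omega
  · by_cases hl' : l' ∈ F
    · have h1 := hsingle l' hl'
      have h2 := comb_single_le_tt e hF (Finset.mem_compl.mpr hl)
      omega
    · have := comb_pair_le_tt e (Finset.mem_compl.mpr hl) (Finset.mem_compl.mpr hl') hne
      omega

end Pool.Agent.Lib.MP_44a246_nt.HP
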