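import Pool.Agent.Lib.MP_44a246_nt.HP.Packing

set_option autoImplicit false

open NumberField IsDedekindDomain Height
open Pool.Agent.Lib.MP_4d5ce1_nt (ordv fa nv)

namespace Pool.Agent.Lib.MP_44a246_nt.HP

/-! ## HP-13 -/

section coordaux

variable {K : Type*} [Field K] [NumberField K]

private lemma coord_dg_pos : 0 < dg K := by
  unfold dg
  exact_mod_cast Module.finrank_pos (R := ℚ) (M := K)

private lemma coord_sum_mult : ∑ w : InfinitePlace K, (w.mult : ℝ) = dg K := by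
  unfold dg
  rw [← InfinitePlace.sum_mult_eq (K := K)]
  push_cast
  rfl

private lemma coord_sum_r (A β : ℝ) (hA : 0 < A) (k : InfinitePlace K → ℕ) :
    ∑ w : InfinitePlace K, (w.mult : ℝ) *
      Real.log (A * Real.exp (β / dg K - (k w : ℝ) / (w.mult : ℝ))) =
      dg K * Real.log A + β - ∑ w, (k w : ℝ) := by
  have h1 : ∀ w : InfinitePlace K, (w.mult : ℝ) *
      Real.log (A * Real.exp (β / dg K - (k w : ℝ) / (w.mult : ℝ))) =
      (w.mult : ℝ) * (Real.log A + β / dg K) - (k w : ℝ) := by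
    intro w
    have hm : (w.mult : ℝ) ≠ 0 := InfinitePlace.mult_coe_ne_zero
    rw [Real.log_mul hA.ne' (Real.exp_pos _).ne', Real.log_exp]
    field_simp
    ring
  rw [Finset.sum_congr rfl fun w _ => h1 w, Finset.sum_sub_distrib, ← Finset.sum_mul,
    coord_sum_mult]
  have := (coord_dg_pos (K := K)).ne'
  field_simp

private lemma coord_log_fa (v : HeightOneSpectrum (𝓞 K)) {x : K} (hx : x ≠ 0) {n : ℕ}
    (h : fa v x ≤ (nv v ^ n)⁻¹) : (n : ℝ) * lnv v ≤ (ordv v x : ℝ) * Real.log (nv v) ∧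
      Real.log (fa v x) ≤ - ((n : ℝ) * lnv v) := by
  have h1 : Real.log (fa v x) ≤ - ((n : ℝ) * lnv v) := by
    have h2 := Real.log_le_log (Pool.Agent.Lib.MP_4d5ce1_nt.fa_pos v hx) h
    rw [Real.log_inv, Real.log_pow] at h2
    exact h2
  refine ⟨?_, h1⟩
  rw [Pool.Agent.Lib.MP_4d5ce1_nt.log_fa v hx] at h1
  linarith

private lemma coord_lower {u : K} (hu : u ≠ 0) (κ : HeightOneSpectrum (𝓞 K) →₀ ℕ)
    (h : ∀ v, fa v u ≤ (nv v ^ (κ v))⁻¹) :
    ∑ v ∈ κ.support, (κ v : ℝ) * lnv v ≤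
      ∑ᶠ v : HeightOneSpectrum (𝓞 K), (ordv v u : ℝ) * Real.log (nv v) := by
  classical
  have hfin := Pool.Agent.Lib.MP_4d5ce1_nt.finite_ordv_ne_zero hu
  have hnn : ∀ v, 0 ≤ (ordv v u : ℝ) * Real.log (nv v) := fun v =>
    le_trans (mul_nonneg (Nat.cast_nonneg _) (lnv_pos v).le) (coord_log_fa v hu (h v)).1
  rw [finsum_eq_sum_of_support_subset (s := hfin.toFinset ∪ κ.support)]
  · calc ∑ v ∈ κ.support, (κ v : ℝ) * lnv v
        ≤ ∑ v ∈ κ.support, (ordv v u : ℝ) * Real.log (nv v) :=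
          Finset.sum_le_sum fun v _ => (coord_log_fa v hu (h v)).1
      _ ≤ _ := Finset.sum_le_sum_of_subset_of_nonneg Finset.subset_union_right
          fun v _ _ => hnn v
  · intro v hv
    rw [Function.mem_support] at hv
    have : ordv v u ≠ 0 := by
      intro h0
      rw [h0] at hv
      simp at hv
    simp [this]

end coordaux

theorem coord_card (K : Type*) [Field K] [NumberField K] (A : ℝ) (hA : 1 ≤ A) :
    ∃ C : ℝ, 0 < C ∧ ∀ (β : ℝ) (κ : HeightOneSpectrum (𝓞 K) →₀ ℕ)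
      (k : InfinitePlace K → ℕ) (U : Finset K),
      (∀ u ∈ U, u ≠ 0) →
      (∀ u ∈ U, ∀ v, fa v u ≤ (nv v ^ (κ v))⁻¹) →
      (∀ u ∈ U, ∀ w : InfinitePlace K, w u ≤
        A * Real.exp (β / dg K - (k w : ℝ) / (w.mult : ℝ))) →
      (U.card : ℝ) ≤ C * Real.exp (β - ∑ v ∈ κ.support, (κ v : ℝ) * lnv v - ∑ w, (k w : ℝ)) := by
  obtain ⟨C, hC, hpack⟩ := packing_principle K K A hA
  refine ⟨C * Real.exp (dg K * Real.log A), by positivity, ?_⟩
  intro β κ k U hU hfin hinf
  have hA0 : 0 < A := by linarith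
  rcases U.eq_empty_or_nonempty with hemp | ⟨u0, hu0⟩
  · rw [hemp]
    simp only [Finset.card_empty, Nat.cast_zero]
    positivity
  -- the exponent is not too small
  have hE : 0 ≤ dg K * Real.log A +
      (β - ∑ v ∈ κ.support, (κ v : ℝ) * lnv v - ∑ w, (k w : ℝ)) := by
    have h1 := Pool.Agent.Lib.MP_4d5ce1_nt.product_formula' (hU u0 hu0)
    have h2 := coord_lower (hU u0 hu0) κ (hfin u0 hu0)
    have h3 : ∑ w : InfinitePlace K, (w.mult : ℝ) * Real.log (w u0) ≤
        ∑ w : InfinitePlace K, (w.mult : ℝ) *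
          Real.log (A * Real.exp (β / dg K - (k w : ℝ) / (w.mult : ℝ))) := by
      refine Finset.sum_le_sum fun w _ => ?_
      refine mul_le_mul_of_nonneg_left ?_ (Nat.cast_nonneg _)
      exact Real.log_le_log (InfinitePlace.pos_iff.mpr (hU u0 hu0)) (hinf u0 hu0 w)
    rw [coord_sum_r A β hA0 k] at h3
    linarith
  have h := hpack U (fun x y => x - y) (fun _ x => x)
    (fun w => A * Real.exp (β / dg K - (k w : ℝ) / (w.mult : ℝ))) (fun _ => 1)
    κ.support (fun v => (κ v : ℝ) * lnv v) (fun w => by positivity) (fun w => one_pos)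
    (fun x _ y _ hxy => sub_ne_zero.mpr hxy) (fun x hx w => hinf x hx w)
    (fun x _ y _ w => by
      have : 0 ≤ w (x - y) := apply_nonneg _ _
      nlinarith)
    (fun x hx y hy hxy v _ => by
      have h1 : fa v (x - y) ≤ (nv v ^ (κ v))⁻¹ :=
        (Pool.Agent.Lib.MP_4d5ce1_nt.fa_sub_le v x y).trans (max_le (hfin x hx v) (hfin y hy v))
      exact (coord_log_fa v (sub_ne_zero.mpr hxy) h1).2)
    (fun x hx y hy hxy v hv => by
      have h0 : κ v = 0 := Finsupp.notMem_support_iff.mp hv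
      have h1 : fa v (x - y) ≤ (nv v ^ (κ v))⁻¹ :=
        (Pool.Agent.Lib.MP_4d5ce1_nt.fa_sub_le v x y).trans (max_le (hfin x hx v) (hfin y hy v))
      rw [h0] at h1
      simpa using h1)
  refine h.trans ?_
  have e1 : ∑ w : InfinitePlace K, (w.mult : ℝ) *
      (Real.log (A * Real.exp (β / dg K - (k w : ℝ) / (w.mult : ℝ))) + Real.log 1) -
        ∑ v ∈ κ.support, (κ v : ℝ) * lnv v =
      dg K * Real.log A + (β - ∑ v ∈ κ.support, (κ v : ℝ) * lnv v - ∑ w, (k w : ℝ)) := by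
    simp only [Real.log_one, add_zero]
    rw [coord_sum_r A β hA0 k]
    ring
  rw [e1, max_eq_right (Real.one_le_exp hE), Real.exp_add]
  exact le_of_eq (by ring)

end Pool.Agent.Lib.MP_44a246_nt.HP
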