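import Pool.Agent.Lib.MP_4d5ce1_nt.Basic

/-!
# Counting points near hyperplanes: definitions
-/

set_option autoImplicit false

open NumberField IsDedekindDomain Height
open Pool.Agent.Lib.MP_4d5ce1_nt (ordv fa nv)

namespace Pool.Agent.Lib.MP_44a246_nt.HP

section defs

variable {K : Type*} [Field K] [NumberField K]

/-- The truncated counting function of the divisor `∑ l, [a l = 0]` (hyperplanes with coefficient
vectors `a l`) at the point `x`: the sum of `log N(v)` over the primes `v` outside `S` at which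
some local height `λ_v(l, x) = log (|a l|_v |x|_v / |∑ k, a l k * x k|_v)` is positive. -/
noncomputable def truncCount {q m : ℕ} (S : Set (HeightOneSpectrum (𝓞 K)))
    (a : Fin q → Fin m → K) (x : Fin m → K) : ℝ :=
  ∑ᶠ (v : HeightOneSpectrum (𝓞 K))
    (_ : v ∉ S ∧ ∃ l i j, v.valuation K (∑ k, a l k * x k) <
      v.valuation K (a l i) * v.valuation K (x j)),
    Real.log (Ideal.absNorm v.asIdeal : ℝ)

/-- The logarithm of the norm of a prime. -/
noncomputable def lnv (v : HeightOneSpectrum (𝓞 K)) : ℝ := Real.log (nv v)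

lemma lnv_pos (v : HeightOneSpectrum (𝓞 K)) : 0 < lnv v :=
  Pool.Agent.Lib.MP_4d5ce1_nt.log_nv_pos v

/-- The value of a linear form. -/
def lf {m : ℕ} (a y : Fin m → K) : K := ∑ i, a i * y i

variable (K) in
/-- The degree of `K`, as a real number. -/
noncomputable def dg : ℝ := (Module.finrank ℚ K : ℝ)

/-- Balanced vectors: integral, with bounded content, and with archimedean sizes equal to
`exp (h / d)` up to constants. -/
structure Bal (C₀ : ℝ) {m : ℕ} (y : Fin m → K) : Prop where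
  ne : y ≠ 0
  int : ∀ (v : HeightOneSpectrum (𝓞 K)) (i : Fin m), fa v (y i) ≤ 1
  cont : ∀ v : HeightOneSpectrum (𝓞 K), ∃ i, C₀⁻¹ ≤ fa v (y i)
  up : ∀ (w : InfinitePlace K) (i : Fin m), w (y i) ≤ C₀ * Real.exp (logHeight y / dg K)
  low : ∀ w : InfinitePlace K, ∃ i, C₀⁻¹ * Real.exp (logHeight y / dg K) ≤ w (y i)

/-- The determinant of two vectors of length two. -/
def wd (u z : Fin 2 → K) : K := u 0 * z 1 - u 1 * z 0

/-- The sum of the two largest values of `e` on `Λ`. -/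
def tt {q : ℕ} (e : Fin q → ℕ) (Λ : Finset (Fin q)) : ℕ :=
  Λ.offDiag.sup fun p => e p.1 + e p.2

/-- A vector of exponents is useful if it has two nonzero entries or an entry `≥ 2`. -/
def Useful {q : ℕ} (e : Fin q → ℕ) : Prop :=
  (∃ l l', l ≠ l' ∧ e l ≠ 0 ∧ e l' ≠ 0) ∨ ∃ l, 2 ≤ e l

/-- Excess of the items of `I` whose only form is `l`. -/
noncomputable def eps {ι : Type*} {q : ℕ} (I : Finset ι) (b : ι → ℝ) (e : ι → Fin q → ℕ)
    (l : Fin q) : ℝ :=
  ∑ i ∈ I.filter (fun i => ∀ l', l' ≠ l → e i l' = 0), ((e i l : ℝ) - 1) * b i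

/-- The property of the selected forms and items used in the middle range. -/
def Sel {ι : Type*} {q : ℕ} (F : Finset (Fin q)) (I : Finset ι) (b : ι → ℝ)
    (e : ι → Fin q → ℕ) : Prop :=
  (∃ f ∈ F, ∀ l, eps I b e l ≤ eps I b e f) ∨
  (∃ p ∈ I, ∃ f ∈ F, e p f ≠ 0 ∧ (∃ l, l ≠ f ∧ e p l ≠ 0) ∧ (∀ l, eps I b e l ≤ b p) ∧
    ∀ l, e p l ≠ 0 → eps I b e l ≤ eps I b e f)

/-- Common part of the exponents `κ` and those of the direction `u`, at a prime. -/
noncomputable def gp {q : ℕ} (α : Fin q → Fin 2 → K) (u : Fin 2 → K)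
    (κ : HeightOneSpectrum (𝓞 K) →₀ (Fin q → ℕ)) (v : HeightOneSpectrum (𝓞 K)) (l : Fin q) : ℕ :=
  open Classical in
  if lf (α l) u = 0 then κ v l else min (κ v l) (ordv v (lf (α l) u)).toNat

/-- Common part of the exponents `k` and those of the direction `u`, at an infinite place. -/
noncomputable def gi {q : ℕ} (α : Fin q → Fin 2 → K) (u : Fin 2 → K)
    (k : InfinitePlace K → Fin q → ℕ) (w : InfinitePlace K) (l : Fin q) : ℕ :=
  open Classical in
  if lf (α l) u = 0 then k w l else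
    min (k w l) ⌊(w.mult : ℝ) * (logHeight u / dg K - Real.log (w (lf (α l) u)))⌋₊

/-- Deficiency at a prime. -/
noncomputable def jp {q : ℕ} (Λ : Finset (Fin q)) (α : Fin q → Fin 2 → K) (u : Fin 2 → K)
    (κ : HeightOneSpectrum (𝓞 K) →₀ (Fin q → ℕ)) (v : HeightOneSpectrum (𝓞 K)) : ℕ :=
  Λ.sup fun l => κ v l - gp α u κ v l

/-- Deficiency at an infinite place. -/
noncomputable def ji {q : ℕ} (Λ : Finset (Fin q)) (α : Fin q → Fin 2 → K) (u : Fin 2 → K)
    (k : InfinitePlace K → Fin q → ℕ) (w : InfinitePlace K) : ℕ :=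
  Λ.sup fun l => k w l - gi α u k w l

/-- The length of the direction `u` in the slices with exponents `κ, k`. -/
noncomputable def ell {q : ℕ} (Λ : Finset (Fin q)) (α : Fin q → Fin 2 → K) (u : Fin 2 → K)
    (κ : HeightOneSpectrum (𝓞 K) →₀ (Fin q → ℕ)) (k : InfinitePlace K → Fin q → ℕ) : ℝ :=
  logHeight u + ∑ v ∈ κ.support, (jp Λ α u κ v : ℝ) * lnv v + ∑ w, (ji Λ α u k w : ℝ)

/-- The index of the slices with exponents `κ, k`. -/
noncomputable def ind {q : ℕ} (Λ : Finset (Fin q))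
    (κ : HeightOneSpectrum (𝓞 K) →₀ (Fin q → ℕ)) (k : InfinitePlace K → Fin q → ℕ) : ℝ :=
  ∑ v ∈ κ.support, (tt (κ v) Λ : ℝ) * lnv v + ∑ w, (tt (k w) Λ : ℝ)

/-- The total exponents of the fixed forms. -/
noncomputable def phi {q : ℕ} (F : Finset (Fin q))
    (κ : HeightOneSpectrum (𝓞 K) →₀ (Fin q → ℕ)) (k : InfinitePlace K → Fin q → ℕ) : ℝ :=
  ∑ v ∈ κ.support, ((∑ g ∈ F, κ v g : ℕ) : ℝ) * lnv v + ∑ w, ((∑ g ∈ F, k w g : ℕ) : ℝ)

open Classical in
/-- The good primes of a code. -/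
noncomputable def gsupp {q : ℕ} (bad : Finset (HeightOneSpectrum (𝓞 K)))
    (κ : HeightOneSpectrum (𝓞 K) →₀ (Fin q → ℕ)) : Finset (HeightOneSpectrum (𝓞 K)) :=
  κ.support.filter fun v => v ∉ bad

/-- The cost of a code. -/
noncomputable def code {q : ℕ} (bad : Finset (HeightOneSpectrum (𝓞 K)))
    (κ : HeightOneSpectrum (𝓞 K) →₀ (Fin q → ℕ)) : ℝ := ∑ v ∈ gsupp bad κ, lnv v

/-- The total size of a code. -/
noncomputable def siz {J : Type} [Fintype J] (κ : HeightOneSpectrum (𝓞 K) →₀ (J → ℕ))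
    (k : InfinitePlace K → J → ℕ) : ℝ :=
  ∑ v ∈ κ.support, ((∑ l, κ v l : ℕ) : ℝ) * lnv v + ∑ w, ((∑ l, k w l : ℕ) : ℝ)

/-- The properties of the selected key of a point. -/
structure KeyOK {q : ℕ} (F : Finset (Fin q)) (bad : Finset (HeightOneSpectrum (𝓞 K)))
    (A β D₂ : ℝ) (κ : HeightOneSpectrum (𝓞 K) →₀ (Fin q → ℕ))
    (k : InfinitePlace K → Fin q → ℕ) : Prop where
  size : siz κ k ≤ A * (β + 1)
  gain : D₂ * β - A ≤ phi F κ k + ind Fᶜ κ k - code bad κ
  slack : code bad κ - phi F κ k ≤ D₂ * β + A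
  useful : ∀ v ∈ gsupp bad κ, Useful (κ v)
  sel : Sel F (gsupp bad κ) lnv (fun v => κ v)

/-- `z` satisfies the local conditions of the exponents `κ, k`, for the forms in `Λ`. -/
structure InBox {q m : ℕ} (Λ : Finset (Fin q)) (α : Fin q → Fin m → K) (A β : ℝ)
    (κ : HeightOneSpectrum (𝓞 K) →₀ (Fin q → ℕ)) (k : InfinitePlace K → Fin q → ℕ)
    (z : Fin m → K) : Prop where
  fin : ∀ v, ∀ l ∈ Λ, fa v (lf (α l) z) ≤ (nv v ^ (κ v l))⁻¹
  inf : ∀ w : InfinitePlace K, ∀ l ∈ Λ,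
    w (lf (α l) z) ≤ A * Real.exp (β / dg K - (k w l : ℝ) / (w.mult : ℝ))

end defs

end Pool.Agent.Lib.MP_44a246_nt.HP
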