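import Pool.Agent.Lib.MP_44a246_nt.HP.Defs

set_option autoImplicit false

open NumberField IsDedekindDomain Height
open Pool.Agent.Lib.MP_4d5ce1_nt (ordv fa nv)

namespace Pool.Agent.Lib.MP_44a246_nt.HP

/-! ## HP-3 -/

private lemma local_inv {K : Type*} [Field K] {m : ℕ} (a : Fin m → Fin m → K)
    (ha : LinearIndependent K a) :
    ∃ B : Fin m → Fin m → K, ∀ (y : Fin m → K) (i : Fin m), y i = ∑ j, B i j * lf (a j) y := by
  have hu : IsUnit (Matrix.of a) := by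
    rw [← Matrix.linearIndependent_rows_iff_isUnit]
    exact ha
  have hdet : IsUnit (Matrix.of a).det := (Matrix.isUnit_iff_isUnit_det _).1 hu
  refine ⟨fun i j => (Matrix.of a)⁻¹ i j, fun y i => ?_⟩
  have h1 : (Matrix.of a)⁻¹.mulVec ((Matrix.of a).mulVec y) = y := by
    rw [Matrix.mulVec_mulVec, Matrix.nonsing_inv_mul _ hdet, Matrix.one_mulVec]
  have h2 := congrFun h1 i
  rw [← h2]
  simp only [Matrix.mulVec, dotProduct, Matrix.of_apply, lf]

private lemma local_fin {K : Type*} [Field K] [NumberField K] {m : ℕ} (a B : Fin m → Fin m → K)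
    (hB : ∀ (y : Fin m → K) (i : Fin m), y i = ∑ j, B i j * lf (a j) y)
    (v : HeightOneSpectrum (𝓞 K)) (c : ℝ) (hc0 : 0 ≤ c) (hc : ∀ i j, fa v (B i j) ≤ c)
    (y : Fin m → K) (i : Fin m) : ∃ j, fa v (y i) ≤ c * fa v (lf (a j) y) := by
  have : Nonempty (Fin m) := ⟨i⟩
  obtain ⟨j, hj⟩ := Finite.exists_max fun j => fa v (lf (a j) y)
  refine ⟨j, ?_⟩
  rw [hB y i]
  have hj0 := Pool.Agent.Lib.MP_4d5ce1_nt.fa_nonneg v (lf (a j) y)
  refine Pool.Agent.Lib.MP_4d5ce1_nt.fa_sum_le v _ _ _ (mul_nonneg hc0 hj0) fun k _ => ?_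
  rw [Pool.Agent.Lib.MP_4d5ce1_nt.fa_mul]
  exact mul_le_mul (hc i k) (hj k) (Pool.Agent.Lib.MP_4d5ce1_nt.fa_nonneg v _) hc0

private lemma local_inf {K : Type*} [Field K] [NumberField K] {m : ℕ} (a B : Fin m → Fin m → K)
    (hB : ∀ (y : Fin m → K) (i : Fin m), y i = ∑ j, B i j * lf (a j) y)
    (w : InfinitePlace K) (c : ℝ) (hc : ∀ i, ∑ j, w (B i j) ≤ c)
    (y : Fin m → K) (i : Fin m) : ∃ j, w (y i) ≤ c * w (lf (a j) y) := by
  have : Nonempty (Fin m) := ⟨i⟩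
  obtain ⟨j, hj⟩ := Finite.exists_max fun j => w (lf (a j) y)
  refine ⟨j, ?_⟩
  have h1 : w (y i) ≤ ∑ k, w (B i k) * w (lf (a k) y) := by
    conv_lhs => rw [hB y i]
    refine (w.1.sum_le _ _).trans (le_of_eq ?_)
    refine Finset.sum_congr rfl fun k _ => ?_
    exact map_mul w _ _
  calc w (y i) ≤ ∑ k, w (B i k) * w (lf (a k) y) := h1
    _ ≤ ∑ k, w (B i k) * w (lf (a j) y) :=
        Finset.sum_le_sum fun k _ => mul_le_mul_of_nonneg_left (hj k) (apply_nonneg _ _)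
    _ = (∑ k, w (B i k)) * w (lf (a j) y) := by rw [Finset.sum_mul]
    _ ≤ c * w (lf (a j) y) := mul_le_mul_of_nonneg_right (hc i) (apply_nonneg _ _)

theorem indep_bound (K : Type*) [Field K] [NumberField K] (m : ℕ) (a : Fin m → Fin m → K)
    (ha : LinearIndependent K a) :
    ∃ (bad : Finset (HeightOneSpectrum (𝓞 K))) (A : ℝ), 1 ≤ A ∧
      (∀ v ∉ bad, ∀ (y : Fin m → K) (i : Fin m), ∃ j, fa v (y i) ≤ fa v (lf (a j) y)) ∧
      (∀ v, ∀ (y : Fin m → K) (i : Fin m), ∃ j, fa v (y i) ≤ A * fa v (lf (a j) y)) ∧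
      (∀ w : InfinitePlace K, ∀ (y : Fin m → K) (i : Fin m), ∃ j, w (y i) ≤ A * w (lf (a j) y)) := by
  classical
  obtain ⟨B, hB⟩ := local_inv a ha
  have hfin : ({v : HeightOneSpectrum (𝓞 K) | ∃ i j, 1 < fa v (B i j)}).Finite := by
    have hsub : {v : HeightOneSpectrum (𝓞 K) | ∃ i j, 1 < fa v (B i j)} ⊆
        ⋃ i, ⋃ j, {v : HeightOneSpectrum (𝓞 K) | 1 < fa v (B i j)} := by
      rintro v ⟨i, j, h⟩
      simp only [Set.mem_iUnion, Set.mem_ofPred_eq]
      exact ⟨i, j, h⟩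
    refine Set.Finite.subset ?_ hsub
    refine Set.finite_iUnion fun i => Set.finite_iUnion fun j => ?_
    by_cases h : B i j = 0
    · convert! Set.finite_empty
      ext v
      simp only [Set.mem_ofPred_eq, Set.mem_empty_iff_false, iff_false, not_lt, h]
      rw [Pool.Agent.Lib.MP_4d5ce1_nt.fa_zero]
      exact zero_le_one
    · refine (Pool.Agent.Lib.MP_4d5ce1_nt.finite_fa_ne_one h).subset fun v hv => ?_
      exact ne_of_gt hv
  have hnn1 : ∀ (v : HeightOneSpectrum (𝓞 K)) (i j : Fin m), 0 ≤ fa v (B i j) :=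
    fun v i j => Pool.Agent.Lib.MP_4d5ce1_nt.fa_nonneg v _
  have hnn2 : ∀ (w : InfinitePlace K) (i j : Fin m), 0 ≤ w (B i j) :=
    fun w i j => apply_nonneg _ _
  set S1 : ℝ := ∑ v ∈ hfin.toFinset, ∑ i, ∑ j, fa v (B i j) with hS1
  set S2 : ℝ := ∑ w : InfinitePlace K, ∑ i, ∑ j, w (B i j) with hS2
  have h1 : 0 ≤ S1 := Finset.sum_nonneg fun v _ => Finset.sum_nonneg fun i _ =>
    Finset.sum_nonneg fun j _ => hnn1 v i j
  have h2 : 0 ≤ S2 := Finset.sum_nonneg fun w _ => Finset.sum_nonneg fun i _ =>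
    Finset.sum_nonneg fun j _ => hnn2 w i j
  have hA0 : 0 ≤ 1 + S1 + S2 := by linarith
  refine ⟨hfin.toFinset, 1 + S1 + S2, by linarith, ?_, ?_, ?_⟩
  · intro v hv y i
    obtain ⟨j, hj⟩ := local_fin a B hB v 1 zero_le_one (fun i j => by
      by_contra hlt
      exact hv (hfin.mem_toFinset.2 ⟨i, j, not_le.1 hlt⟩)) y i
    exact ⟨j, by rwa [one_mul] at hj⟩
  · intro v y i
    refine local_fin a B hB v _ hA0 (fun i j => ?_) y i
    by_cases hv : v ∈ hfin.toFinset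
    · have e1 : fa v (B i j) ≤ ∑ j, fa v (B i j) :=
        Finset.single_le_sum (f := fun j => fa v (B i j)) (fun j _ => hnn1 v i j)
          (Finset.mem_univ j)
      have e2 : ∑ j, fa v (B i j) ≤ ∑ i, ∑ j, fa v (B i j) :=
        Finset.single_le_sum (f := fun i => ∑ j, fa v (B i j))
          (fun i _ => Finset.sum_nonneg fun j _ => hnn1 v i j) (Finset.mem_univ i)
      have e3 : ∑ i, ∑ j, fa v (B i j) ≤ S1 :=
        Finset.single_le_sum (f := fun v => ∑ i, ∑ j, fa v (B i j))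
          (fun v _ => Finset.sum_nonneg fun i _ => Finset.sum_nonneg fun j _ => hnn1 v i j) hv
      linarith
    · have : fa v (B i j) ≤ 1 := by
        by_contra hlt
        exact hv (hfin.mem_toFinset.2 ⟨i, j, not_le.1 hlt⟩)
      linarith
  · intro w y i
    refine local_inf a B hB w _ (fun i => ?_) y i
    have e2 : ∑ j, w (B i j) ≤ ∑ i, ∑ j, w (B i j) :=
      Finset.single_le_sum (f := fun i => ∑ j, w (B i j))
        (fun i _ => Finset.sum_nonneg fun j _ => hnn2 w i j) (Finset.mem_univ i)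
    have e3 : ∑ i, ∑ j, w (B i j) ≤ S2 :=
      Finset.single_le_sum (f := fun w : InfinitePlace K => ∑ i, ∑ j, w (B i j))
        (fun w _ => Finset.sum_nonneg fun i _ => Finset.sum_nonneg fun j _ => hnn2 w i j)
        (Finset.mem_univ w)
    linarith

end Pool.Agent.Lib.MP_44a246_nt.HP
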