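import Pool.Agent.Lib.MP_44a246_nt.HP.Packing
import Pool.Agent.Lib.MP_44a246_nt.HP.Local

set_option autoImplicit false

open NumberField IsDedekindDomain Height
open Pool.Agent.Lib.MP_4d5ce1_nt (ordv fa nv)

namespace Pool.Agent.Lib.MP_44a246_nt.HP

/-! ## HP-7 -/

private lemma dirs_lf {K : Type*} [Field K] [NumberField K] (a y : Fin 2 → K) :
    lf a y = a 0 * y 0 + a 1 * y 1 := by
  unfold lf
  rw [Fin.sum_univ_two]

private lemma dirs_id {K : Type*} [Field K] [NumberField K] (a b u z : Fin 2 → K) :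
    wd a b * wd u z = lf a u * lf b z - lf b u * lf a z := by
  simp only [dirs_lf, wd]
  ring

private lemma dirs_cr0 {K : Type*} [Field K] [NumberField K] (a b y : Fin 2 → K) :
    wd a b * y 0 = b 1 * lf a y - a 1 * lf b y := by
  simp only [dirs_lf, wd]
  ring

private lemma dirs_cr1 {K : Type*} [Field K] [NumberField K] (a b y : Fin 2 → K) :
    wd a b * y 1 = a 0 * lf b y - b 0 * lf a y := by
  simp only [dirs_lf, wd]
  ring

private lemma dirs_add {K : Type*} [Field K] [NumberField K] (w : InfinitePlace K) (x y : K) :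
    w (x + y) ≤ w x + w y := w.1.add_le x y

private lemma dirs_sub {K : Type*} [Field K] [NumberField K] (w : InfinitePlace K) (x y : K) :
    w (x - y) ≤ w x + w y := by
  have h := w.1.add_le x (-y)
  have h2 : w.1 (-y) = w.1 y := w.1.map_neg y
  rw [h2, ← sub_eq_add_neg] at h
  exact h

/-- archimedean constants -/
private lemma dirs_G (K : Type*) [Field K] [NumberField K] (q : ℕ) (Λ : Finset (Fin q))
    (α : Fin q → Fin 2 → K)
    (hα : ∀ l ∈ Λ, ∀ l' ∈ Λ, l ≠ l' → wd (α l) (α l') ≠ 0) :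
    ∃ G : ℝ, 1 ≤ G ∧ (∀ (w : InfinitePlace K) l i, w (α l i) ≤ G) ∧
      ∀ (w : InfinitePlace K), ∀ l ∈ Λ, ∀ l' ∈ Λ, l ≠ l' → 1 ≤ G * w (wd (α l) (α l')) := by
  obtain ⟨G1, hG1⟩ := Finite.bddAbove_range
    (fun x : InfinitePlace K × Fin q × Fin 2 => x.1 (α x.2.1 x.2.2))
  obtain ⟨G2, hG2⟩ := Finite.bddAbove_range
    (fun x : InfinitePlace K × Fin q × Fin q => (x.1 (wd (α x.2.1) (α x.2.2)))⁻¹)
  refine ⟨max 1 (max G1 G2), le_max_left _ _, ?_, ?_⟩
  · intro w l i
    exact (hG1 ⟨(w, l, i), rfl⟩).trans ((le_max_left _ _).trans (le_max_right _ _))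
  · intro w l hl l' hl' hne
    have h1 : 0 < w (wd (α l) (α l')) := InfinitePlace.pos_iff.mpr (hα l hl l' hl' hne)
    have h2 : (w (wd (α l) (α l')))⁻¹ ≤ max 1 (max G1 G2) :=
      (hG2 ⟨(w, l, l'), rfl⟩).trans ((le_max_right _ _).trans (le_max_right _ _))
    calc 1 = (w (wd (α l) (α l')))⁻¹ * w (wd (α l) (α l')) := by
          rw [inv_mul_cancel₀ h1.ne']
      _ ≤ _ := mul_le_mul_of_nonneg_right h2 h1.le

/-- finite constants -/
private lemma dirs_Gf (K : Type*) [Field K] [NumberField K] (q : ℕ) (Λ : Finset (Fin q))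
    (α : Fin q → Fin 2 → K)
    (hα : ∀ l ∈ Λ, ∀ l' ∈ Λ, l ≠ l' → wd (α l) (α l') ≠ 0) :
    ∃ (bad : Finset (HeightOneSpectrum (𝓞 K))) (Gf : HeightOneSpectrum (𝓞 K) → ℝ),
      (∀ v, 1 ≤ Gf v) ∧ (∀ v ∉ bad, Gf v = 1) ∧ (∀ v, ∀ l i, fa v (α l i) ≤ Gf v) ∧
      ∀ v, ∀ l ∈ Λ, ∀ l' ∈ Λ, l ≠ l' → 1 ≤ Gf v * fa v (wd (α l) (α l')) := by
  classical
  have hfin1 : (⋃ x : Fin q × Fin 2,
      {v : HeightOneSpectrum (𝓞 K) | α x.1 x.2 ≠ 0 ∧ fa v (α x.1 x.2) ≠ 1}).Finite := by
    apply Set.finite_iUnion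
    intro x
    by_cases hx : α x.1 x.2 = 0
    · convert Set.finite_empty
      ext v
      simp [hx]
    · exact (Pool.Agent.Lib.MP_4d5ce1_nt.finite_fa_ne_one hx).subset (fun v hv => hv.2)
  have hfin2 : (⋃ x : Fin q × Fin q,
      {v : HeightOneSpectrum (𝓞 K) | wd (α x.1) (α x.2) ≠ 0 ∧
        fa v (wd (α x.1) (α x.2)) ≠ 1}).Finite := by
    apply Set.finite_iUnion
    intro x
    by_cases hx : wd (α x.1) (α x.2) = 0
    · convert Set.finite_empty
      ext v
      simp [hx]
    · exact (Pool.Agent.Lib.MP_4d5ce1_nt.finite_fa_ne_one hx).subset (fun v hv => hv.2)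
  have hG : ∀ v : HeightOneSpectrum (𝓞 K), ∃ G : ℝ, 1 ≤ G ∧ (∀ l i, fa v (α l i) ≤ G) ∧
      ∀ l ∈ Λ, ∀ l' ∈ Λ, l ≠ l' → 1 ≤ G * fa v (wd (α l) (α l')) := by
    intro v
    obtain ⟨G1, hG1⟩ := Finite.bddAbove_range
      (fun x : Fin q × Fin 2 => fa v (α x.1 x.2))
    obtain ⟨G2, hG2⟩ := Finite.bddAbove_range
      (fun x : Fin q × Fin q => (fa v (wd (α x.1) (α x.2)))⁻¹)
    refine ⟨max 1 (max G1 G2), le_max_left _ _, ?_, ?_⟩
    · intro l i
      exact (hG1 ⟨(l, i), rfl⟩).trans ((le_max_left _ _).trans (le_max_right _ _))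
    · intro l hl l' hl' hne
      have h1 : 0 < fa v (wd (α l) (α l')) :=
        Pool.Agent.Lib.MP_4d5ce1_nt.fa_pos v (hα l hl l' hl' hne)
      have h2 : (fa v (wd (α l) (α l')))⁻¹ ≤ max 1 (max G1 G2) :=
        (hG2 ⟨(l, l'), rfl⟩).trans ((le_max_right _ _).trans (le_max_right _ _))
      calc 1 = (fa v (wd (α l) (α l')))⁻¹ * fa v (wd (α l) (α l')) := by
            rw [inv_mul_cancel₀ h1.ne']
        _ ≤ _ := mul_le_mul_of_nonneg_right h2 h1.le
  choose g hg1 hg2 hg3 using hG
  set bad := hfin1.toFinset ∪ hfin2.toFinset with hbad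
  refine ⟨bad, fun v => if v ∈ bad then g v else 1, ?_, ?_, ?_, ?_⟩
  · intro v
    dsimp only
    split_ifs
    · exact hg1 v
    · exact le_rfl
  · intro v hv
    dsimp only
    rw [if_neg hv]
  · intro v l i
    dsimp only
    split_ifs with h
    · exact hg2 v l i
    · by_cases h0 : α l i = 0
      · rw [h0]
        simp
      · have h3 : v ∉ hfin1.toFinset := fun h4 => h (Finset.mem_union_left _ h4)
        rw [Set.Finite.mem_toFinset, Set.mem_iUnion] at h3
        push Not at h3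
        have h4 := h3 (l, i)
        simp only [Set.mem_ofPred_eq, not_and, not_not] at h4
        exact (h4 h0).le
  · intro v l hl l' hl' hne
    dsimp only
    split_ifs with h
    · exact hg3 v l hl l' hl' hne
    · have h3 : v ∉ hfin2.toFinset := fun h4 => h (Finset.mem_union_right _ h4)
      rw [Set.Finite.mem_toFinset, Set.mem_iUnion] at h3
      push Not at h3
      have h4 := h3 (l, l')
      simp only [Set.mem_ofPred_eq, not_and, not_not] at h4
      rw [h4 (hα l hl l' hl' hne), one_mul]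

/-- finite places -/
private lemma dirs_fin {K : Type*} [Field K] [NumberField K] (v : HeightOneSpectrum (𝓞 K))
    {u z : Fin 2 → K} (hu : ∀ i, fa v (u i) ≤ 1) (hz : ∀ i, fa v (z i) ≤ 1) :
    fa v (wd u z) ≤ 1 := by
  unfold wd
  refine (Pool.Agent.Lib.MP_4d5ce1_nt.fa_sub_le v _ _).trans (max_le ?_ ?_)
  · rw [Pool.Agent.Lib.MP_4d5ce1_nt.fa_mul]
    exact mul_le_one₀ (hu 0) (Pool.Agent.Lib.MP_4d5ce1_nt.fa_nonneg v _) (hz 1)
  · rw [Pool.Agent.Lib.MP_4d5ce1_nt.fa_mul]
    exact mul_le_one₀ (hu 1) (Pool.Agent.Lib.MP_4d5ce1_nt.fa_nonneg v _) (hz 0)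

private lemma dirs_fa_lf {K : Type*} [Field K] [NumberField K] (v : HeightOneSpectrum (𝓞 K))
    {a u : Fin 2 → K} {G : ℝ} (hG : 0 ≤ G) (ha : ∀ i, fa v (a i) ≤ G) (hu : ∀ i, fa v (u i) ≤ 1) :
    fa v (lf a u) ≤ G := by
  unfold lf
  apply Pool.Agent.Lib.MP_4d5ce1_nt.fa_sum_le v _ _ G hG
  intro i _
  rw [Pool.Agent.Lib.MP_4d5ce1_nt.fa_mul]
  calc fa v (a i) * fa v (u i) ≤ G * 1 :=
        mul_le_mul (ha i) (hu i) (Pool.Agent.Lib.MP_4d5ce1_nt.fa_nonneg v _) hG
    _ = G := mul_one G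

private lemma dirs_fin2 {K : Type*} [Field K] [NumberField K] (v : HeightOneSpectrum (𝓞 K))
    {a b u z : Fin 2 → K} {G t : ℝ} (hG : 1 ≤ G) (ha : ∀ i, fa v (b i) ≤ G)
    (hab : 1 ≤ G * fa v (wd a b)) (hu : ∀ i, fa v (u i) ≤ 1) (hz : ∀ i, fa v (z i) ≤ 1)
    (ht0 : 0 ≤ t) (h1 : fa v (lf a u) ≤ t) (h2 : fa v (lf a z) ≤ t) :
    fa v (wd u z) ≤ G ^ 2 * t := by
  have hid := dirs_id a b u z
  have hb1 := dirs_fa_lf v (by linarith : (0 : ℝ) ≤ G) ha hu
  have hb2 := dirs_fa_lf v (by linarith : (0 : ℝ) ≤ G) ha hz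
  have h3 : fa v (wd a b) * fa v (wd u z) ≤ t * G := by
    rw [← Pool.Agent.Lib.MP_4d5ce1_nt.fa_mul, hid]
    refine (Pool.Agent.Lib.MP_4d5ce1_nt.fa_sub_le v _ _).trans (max_le ?_ ?_)
    · rw [Pool.Agent.Lib.MP_4d5ce1_nt.fa_mul]
      exact mul_le_mul h1 hb2 (Pool.Agent.Lib.MP_4d5ce1_nt.fa_nonneg v _) ht0
    · rw [Pool.Agent.Lib.MP_4d5ce1_nt.fa_mul, mul_comm]
      exact mul_le_mul h2 hb1 (Pool.Agent.Lib.MP_4d5ce1_nt.fa_nonneg v _) ht0
  have h4 := Pool.Agent.Lib.MP_4d5ce1_nt.fa_nonneg v (wd u z)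
  calc fa v (wd u z) = 1 * fa v (wd u z) := (one_mul _).symm
    _ ≤ (G * fa v (wd a b)) * fa v (wd u z) := mul_le_mul_of_nonneg_right hab h4
    _ = G * (fa v (wd a b) * fa v (wd u z)) := by ring
    _ ≤ G * (t * G) := mul_le_mul_of_nonneg_left h3 (by linarith)
    _ = _ := by ring

/-- infinite places: one of the two forms is large -/
private lemma dirs_low {K : Type*} [Field K] [NumberField K] (w : InfinitePlace K)
    {a b y : Fin 2 → K} {G : ℝ} (hG : 1 ≤ G) (ha : ∀ i, w (a i) ≤ G) (hb : ∀ i, w (b i) ≤ G)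
    (hab : 1 ≤ G * w (wd a b)) (hle : w (lf b y) ≤ w (lf a y)) (i : Fin 2) :
    w (y i) ≤ 2 * G ^ 2 * w (lf a y) := by
  have hn : ∀ x : K, 0 ≤ w x := fun x => apply_nonneg w x
  have key : w (wd a b) * w (y i) ≤ 2 * G * w (lf a y) := by
    rw [← map_mul]
    have h0 : w (wd a b * y i) ≤ G * w (lf a y) + G * w (lf b y) := by
      fin_cases i
      · simp only [Fin.zero_eta]
        rw [dirs_cr0]
        refine (dirs_sub w _ _).trans (add_le_add ?_ ?_)
        · rw [map_mul]; exact mul_le_mul_of_nonneg_right (hb 1) (hn _)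
        · rw [map_mul]; exact mul_le_mul_of_nonneg_right (ha 1) (hn _)
      · simp only [Fin.mk_one]
        rw [dirs_cr1, add_comm]
        refine (dirs_sub w _ _).trans (add_le_add ?_ ?_)
        · rw [map_mul]; exact mul_le_mul_of_nonneg_right (ha 0) (hn _)
        · rw [map_mul]; exact mul_le_mul_of_nonneg_right (hb 0) (hn _)
    have h1 : G * w (lf b y) ≤ G * w (lf a y) := mul_le_mul_of_nonneg_left hle (by linarith)
    linarith
  calc w (y i) = 1 * w (y i) := (one_mul _).symm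
    _ ≤ (G * w (wd a b)) * w (y i) := mul_le_mul_of_nonneg_right hab (hn _)
    _ = G * (w (wd a b) * w (y i)) := by ring
    _ ≤ G * (2 * G * w (lf a y)) := mul_le_mul_of_nonneg_left key (by linarith)
    _ = _ := by ring

/-- infinite places: the chart -/
private lemma dirs_chart {K : Type*} [Field K] [NumberField K] (w : InfinitePlace K)
    {a b u z : Fin 2 → K} {G : ℝ} (hG : 1 ≤ G)
    (hab : 1 ≤ G * w (wd a b)) {B : ℝ} (hB : 0 ≤ B) (hu : w (lf a u) ≤ B) (hz : w (lf a z) ≤ B)
    (hu0 : lf a u ≠ 0) (hz0 : lf a z ≠ 0) :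
    w (wd u z) ≤ G * B ^ 2 * w (lf b u / lf a u - lf b z / lf a z) := by
  have hn : ∀ x : K, 0 ≤ w x := fun x => apply_nonneg w x
  have hid : wd a b * wd u z = -(lf a u * lf a z * (lf b u / lf a u - lf b z / lf a z)) := by
    rw [dirs_id]
    field_simp
    ring
  have h1 : w (wd a b) * w (wd u z) = w (lf a u) * w (lf a z) *
      w (lf b u / lf a u - lf b z / lf a z) := by
    rw [← map_mul, hid]
    have h2 : ∀ x : K, w (-x) = w x := fun x => w.1.map_neg x
    rw [h2, map_mul, map_mul]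
  have h3 : w (wd a b) * w (wd u z) ≤ B ^ 2 * w (lf b u / lf a u - lf b z / lf a z) := by
    rw [h1, sq]
    apply mul_le_mul_of_nonneg_right _ (hn _)
    exact mul_le_mul hu hz (hn _) hB
  calc w (wd u z) = 1 * w (wd u z) := (one_mul _).symm
    _ ≤ (G * w (wd a b)) * w (wd u z) := mul_le_mul_of_nonneg_right hab (hn _)
    _ = G * (w (wd a b) * w (wd u z)) := by ring
    _ ≤ G * (B ^ 2 * w (lf b u / lf a u - lf b z / lf a z)) :=
        mul_le_mul_of_nonneg_left h3 (by linarith)
    _ = _ := by ring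

private lemma dirs_w_lf {K : Type*} [Field K] [NumberField K] (w : InfinitePlace K)
    {a u : Fin 2 → K} {G B : ℝ} (hG : 0 ≤ G) (ha : ∀ i, w (a i) ≤ G) (hu : ∀ i, w (u i) ≤ B) :
    w (lf a u) ≤ 2 * G * B := by
  have hn : ∀ x : K, 0 ≤ w x := fun x => apply_nonneg w x
  rw [dirs_lf]
  refine (dirs_add w _ _).trans ?_
  rw [map_mul, map_mul]
  have h0 := mul_le_mul (ha 0) (hu 0) (hn _) hG
  have h1 := mul_le_mul (ha 1) (hu 1) (hn _) hG
  linarith

theorem dir_count (K : Type*) [Field K] [NumberField K] (q : ℕ) (Λ : Finset (Fin q))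
    (hΛ : 2 ≤ Λ.card) (α : Fin q → Fin 2 → K)
    (hα : ∀ l ∈ Λ, ∀ l' ∈ Λ, l ≠ l' → wd (α l) (α l') ≠ 0) (C₀ A c : ℝ) (hC₀ : 1 ≤ C₀)
    (hA : 1 ≤ A) (hc : 0 ≤ c) :
    ∃ C : ℝ, 0 < C ∧
      ∀ (W : HeightOneSpectrum (𝓞 K) →₀ (Fin q → ℕ)) (m : InfinitePlace K → Fin q → ℕ)
      (U : Finset (Fin 2 → K)),
      (∀ u ∈ U, Bal C₀ u) →
      (∀ u ∈ U, ∀ u' ∈ U, u ≠ u' → wd u u' ≠ 0) →
      (∀ u ∈ U, ∀ v ∈ W.support, ∀ l ∈ Λ, W v l ≠ 0 → fa v (lf (α l) u) ≤ (nv v ^ (W v l))⁻¹) →
      (∀ u ∈ U, ∀ w : InfinitePlace K, ∀ l ∈ Λ, w (lf (α l) u) ≤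
        A * Real.exp (logHeight u / dg K - (m w l : ℝ) / (w.mult : ℝ))) →
      (∀ u ∈ U, 2 * logHeight u - c ≤
        ∑ v ∈ W.support, ((Λ.sup (W v) : ℕ) : ℝ) * lnv v + ∑ w, ((Λ.sup (m w) : ℕ) : ℝ)) →
      (U.card : ℝ) ≤ C := by
  classical
  obtain ⟨G, hG1, hGα, hGwd⟩ := dirs_G K q Λ α hα
  obtain ⟨bad, Gf, hGf1, hGfb, hGfα, hGfwd⟩ := dirs_Gf K q Λ α hα
  have hd : 0 < dg K := by
    unfold dg
    exact_mod_cast Module.finrank_pos
  have hG0 : 0 < G := by linarith
  have hC0 : 0 < C₀ := by linarith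
  have hA0 : 0 < A := by linarith
  set c2 : ℝ := A * (2 * G ^ 2 * C₀) with hc2
  have hc20 : 0 < c2 := by positivity
  have hA' : 1 ≤ G * (2 * G * C₀) ^ 2 := by
    have h1 : 1 ≤ 2 * G * C₀ := by nlinarith
    have h2 : 1 ≤ (2 * G * C₀) ^ 2 := one_le_pow₀ h1
    nlinarith
  obtain ⟨Cp, hCp, hpack⟩ := packing_principle K (Fin 2 → K) (G * (2 * G * C₀) ^ 2) hA'
  set E : ℝ := dg K * Real.log c2 + c + 2 * ∑ v ∈ bad, Real.log (Gf v) with hE
  set C' : ℝ := Cp * max 1 (Real.exp E) with hC'def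
  have hC' : 0 < C' := mul_pos hCp (lt_of_lt_of_le one_pos (le_max_left _ _))
  refine ⟨((⌊C'⌋₊ * Fintype.card (InfinitePlace K → Bool) : ℕ) : ℝ) + 1, by positivity, ?_⟩
  intro W m U hBal hdiff hfin hinf hsum
  have hne : Λ.Nonempty := Finset.card_pos.mp (by omega)
  choose l hl hlsup using fun w => Finset.exists_mem_eq_sup Λ hne (m w)
  choose l' hl' hl'ne using fun w : InfinitePlace K =>
    Finset.exists_mem_ne (show 1 < Λ.card by omega) (l w)
  let chart : (Fin 2 → K) → InfinitePlace K → Bool :=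
    fun u w => decide (w (lf (α (l' w)) u) ≤ w (lf (α (l w)) u))
  have key : ∀ χ : InfinitePlace K → Bool,
      ((U.filter fun u => chart u = χ).card : ℝ) ≤ C' := by
    intro χ
    set X := U.filter fun u => chart u = χ with hX
    rcases X.eq_empty_or_nonempty with hXe | hXne
    · rw [hXe]
      simpa using hC'.le
    obtain ⟨u0, hu0, hmax⟩ := Finset.exists_max_image X logHeight hXne
    have hXU : ∀ u ∈ X, u ∈ U := fun u hu => (Finset.mem_filter.1 hu).1
    set lam : ℝ := logHeight u0 with hlam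
    set j : InfinitePlace K → Fin q := fun w => if χ w = true then l w else l' w with hj
    set o : InfinitePlace K → Fin q := fun w => if χ w = true then l' w else l w with ho
    have hjΛ : ∀ w, j w ∈ Λ := by
      intro w
      simp only [hj]
      split_ifs
      · exact hl w
      · exact hl' w
    have hoΛ : ∀ w, o w ∈ Λ := by
      intro w
      simp only [ho]
      split_ifs
      · exact hl' w
      · exact hl w
    have hjone : ∀ w, j w ≠ o w := by
      intro w
      simp only [hj, ho]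
      split_ifs
      · exact (hl'ne w).symm
      · exact hl'ne w
    have hjo : ∀ u ∈ X, ∀ w : InfinitePlace K, w (lf (α (o w)) u) ≤ w (lf (α (j w)) u) := by
      intro u hu w
      have h1 : chart u w = χ w := congrFun (Finset.mem_filter.1 hu).2 w
      simp only [chart] at h1
      simp only [hj, ho]
      split_ifs with h2
      · rw [h2, decide_eq_true_eq] at h1
        exact h1
      · have h3 : χ w = false := by simpa using h2
        rw [h3, decide_eq_false_iff_not, not_le] at h1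
        exact h1.le
    have hlow : ∀ u ∈ X, ∀ w : InfinitePlace K,
        Real.exp (logHeight u / dg K) ≤ (2 * G ^ 2 * C₀) * w (lf (α (j w)) u) := by
      intro u hu w
      obtain ⟨i, hi⟩ := (hBal u (hXU u hu)).low w
      have h1 := dirs_low w hG1 (fun i => hGα w (j w) i) (fun i => hGα w (o w) i)
        (hGwd w (j w) (hjΛ w) (o w) (hoΛ w) (hjone w)) (hjo u hu w) i
      calc Real.exp (logHeight u / dg K) = C₀ * (C₀⁻¹ * Real.exp (logHeight u / dg K)) := by
            rw [← mul_assoc, mul_inv_cancel₀ hC0.ne', one_mul]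
        _ ≤ C₀ * (2 * G ^ 2 * w (lf (α (j w)) u)) :=
            mul_le_mul_of_nonneg_left (hi.trans h1) hC0.le
        _ = _ := by ring
    have hjpos : ∀ u ∈ X, ∀ w : InfinitePlace K, 0 < w (lf (α (j w)) u) := by
      intro u hu w
      by_contra h
      have h1 := hlow u hu w
      have h2 := Real.exp_pos (logHeight u / dg K)
      have h3 : w (lf (α (j w)) u) ≤ 0 := not_lt.1 h
      have h4 : (2 * G ^ 2 * C₀) * w (lf (α (j w)) u) ≤ 0 :=
        mul_nonpos_of_nonneg_of_nonpos (by positivity) h3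
      linarith
    set M : InfinitePlace K → ℝ := fun w => ((Λ.sup (m w) : ℕ) : ℝ) with hM
    set r : InfinitePlace K → ℝ := fun w => c2 * Real.exp (-(M w / (w.mult : ℝ))) with hr
    set ρ : InfinitePlace K → ℝ := fun _ => Real.exp (2 * (lam / dg K)) with hρ
    have hl_le : ∀ u ∈ X, ∀ w : InfinitePlace K, w (lf (α (l w)) u) ≤
        A * (Real.exp (logHeight u / dg K) * Real.exp (-(M w / (w.mult : ℝ)))) := by
      intro u hu w
      have h1 := hinf u (hXU u hu) w (l w) (hl w)
      rw [← Real.exp_add]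
      simp only [hM]
      rw [hlsup w, ← sub_eq_add_neg]
      exact h1
    have hs : ∀ u ∈ X, ∀ w : InfinitePlace K,
        w (lf (α (o w)) u / lf (α (j w)) u) ≤ r w := by
      intro u hu w
      have h0 := hjpos u hu w
      rw [map_div₀, div_le_iff₀ h0]
      have h1 := hlow u hu w
      have h2 := hl_le u hu w
      have hx : 0 < Real.exp (logHeight u / dg K) := Real.exp_pos _
      have hy : 0 < Real.exp (-(M w / (w.mult : ℝ))) := Real.exp_pos _
      simp only [hr]
      by_cases hχ : χ w = true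
      · have hjw : j w = l w := by simp only [hj]; rw [if_pos hχ]
        have h3 := hjo u hu w
        rw [hjw] at h0 h1 h3 ⊢
        have h4 : 1 ≤ c2 * Real.exp (-(M w / (w.mult : ℝ))) := by
          have h5 : Real.exp (logHeight u / dg K) * 1 ≤ Real.exp (logHeight u / dg K) *
              (c2 * Real.exp (-(M w / (w.mult : ℝ)))) := by
            calc Real.exp (logHeight u / dg K) * 1
                ≤ (2 * G ^ 2 * C₀) * w (lf (α (l w)) u) := by rw [mul_one]; exact h1
              _ ≤ (2 * G ^ 2 * C₀) * (A * (Real.exp (logHeight u / dg K) *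
                  Real.exp (-(M w / (w.mult : ℝ))))) :=
                  mul_le_mul_of_nonneg_left h2 (by positivity)
              _ = _ := by rw [hc2]; ring
          exact le_of_mul_le_mul_left h5 hx
        calc w (lf (α (o w)) u) ≤ 1 * w (lf (α (l w)) u) := by rw [one_mul]; exact h3
          _ ≤ _ := mul_le_mul_of_nonneg_right h4 h0.le
      · have how : o w = l w := by simp only [ho]; rw [if_neg hχ]
        rw [how]
        refine h2.trans ?_
        calc A * (Real.exp (logHeight u / dg K) * Real.exp (-(M w / (w.mult : ℝ))))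
            = (A * Real.exp (-(M w / (w.mult : ℝ)))) * Real.exp (logHeight u / dg K) := by ring
          _ ≤ (A * Real.exp (-(M w / (w.mult : ℝ)))) *
              ((2 * G ^ 2 * C₀) * w (lf (α (j w)) u)) :=
              mul_le_mul_of_nonneg_left h1 (by positivity)
          _ = _ := by rw [hc2]; ring
    have hmain := hpack X wd (fun w u => lf (α (o w)) u / lf (α (j w)) u) r ρ W.support
      (fun v => ((Λ.sup (W v) : ℕ) : ℝ) * lnv v - 2 * Real.log (Gf v))
      (fun w => by positivity) (fun w => Real.exp_pos _)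
      (fun u hu z hz hne => hdiff u (hXU u hu) z (hXU z hz) hne)
      (fun u hu w => hs u hu w)
      (by
        intro u hu z hz w
        have hB : ∀ y ∈ X, w (lf (α (j w)) y) ≤ 2 * G * (C₀ * Real.exp (lam / dg K)) := by
          intro y hy
          apply dirs_w_lf w hG0.le (fun i => hGα w (j w) i)
          intro i
          refine ((hBal y (hXU y hy)).up w i).trans ?_
          apply mul_le_mul_of_nonneg_left _ hC0.le
          apply Real.exp_le_exp.2
          have := hmax y hy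
          gcongr
        have h1 := dirs_chart w hG1 (hGwd w (j w) (hjΛ w) (o w) (hoΛ w) (hjone w))
          (B := 2 * G * (C₀ * Real.exp (lam / dg K))) (by positivity) (hB u hu) (hB z hz)
          (InfinitePlace.pos_iff.mp (hjpos u hu w)) (InfinitePlace.pos_iff.mp (hjpos z hz w))
        refine h1.trans (le_of_eq ?_)
        have h2 : Real.exp (2 * (lam / dg K)) = Real.exp (lam / dg K) ^ 2 := by
          rw [← Real.exp_nat_mul]
          norm_num
        simp only [hρ]
        rw [h2]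
        ring)
      (by
        intro u hu z hz hne v hv
        have hw0 : wd u z ≠ 0 := hdiff u (hXU u hu) z (hXU z hz) hne
        have hfa := Pool.Agent.Lib.MP_4d5ce1_nt.fa_pos v hw0
        have hG1v := hGf1 v
        have hG0v : 0 < Gf v := by linarith
        obtain ⟨g, hg, hgs⟩ := Finset.exists_mem_eq_sup Λ (Finset.card_pos.mp (by omega)) (W v)
        obtain ⟨g', hg', hgne⟩ := Finset.exists_mem_ne (show 1 < Λ.card by omega) g
        have hnv := Pool.Agent.Lib.MP_4d5ce1_nt.nv_pos v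
        have h1 : fa v (wd u z) ≤ Gf v ^ 2 * (nv v ^ (Λ.sup (W v)))⁻¹ := by
          by_cases h0 : Λ.sup (W v) = 0
          · rw [h0, pow_zero, inv_one, mul_one]
            refine (dirs_fin v ((hBal u (hXU u hu)).int v) ((hBal z (hXU z hz)).int v)).trans ?_
            exact one_le_pow₀ hG1v
          · rw [hgs] at h0 ⊢
            exact dirs_fin2 v hG1v (fun i => hGfα v g' i)
              (hGfwd v g hg g' hg' hgne.symm) ((hBal u (hXU u hu)).int v)
              ((hBal z (hXU z hz)).int v) (by positivity)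
              (hfin u (hXU u hu) v hv g hg h0) (hfin z (hXU z hz) v hv g hg h0)
        have h2 := Real.log_le_log hfa h1
        refine h2.trans (le_of_eq ?_)
        rw [Real.log_mul (by positivity) (by positivity), Real.log_inv, Real.log_pow, Real.log_pow]
        unfold lnv
        push_cast
        ring)
      (by
        intro u hu z hz _ v _
        exact dirs_fin v ((hBal u (hXU u hu)).int v) ((hBal z (hXU z hz)).int v))
    refine hmain.trans ?_
    rw [hC'def]
    apply mul_le_mul_of_nonneg_left _ hCp.le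
    apply max_le_max le_rfl
    apply Real.exp_le_exp.2
    -- the exponent
    have hmult : ∀ w : InfinitePlace K, (0 : ℝ) < (w.mult : ℝ) := by
      intro w
      exact_mod_cast InfinitePlace.mult_pos
    have hsumm : ∑ w : InfinitePlace K, (w.mult : ℝ) = dg K := by
      unfold dg
      exact_mod_cast InfinitePlace.sum_mult_eq (K := K)
    have h1 : ∑ w : InfinitePlace K, (w.mult : ℝ) * (Real.log (r w) + Real.log (ρ w)) =
        dg K * Real.log c2 - ∑ w, M w + 2 * lam := by
      have h2 : ∀ w : InfinitePlace K, (w.mult : ℝ) * (Real.log (r w) + Real.log (ρ w)) =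
          (w.mult : ℝ) * (Real.log c2 + 2 * (lam / dg K)) - M w := by
        intro w
        have := hmult w
        simp only [hr, hρ]
        rw [Real.log_mul hc20.ne' (Real.exp_pos _).ne', Real.log_exp, Real.log_exp]
        field_simp
        ring
      rw [Finset.sum_congr rfl (fun w _ => h2 w), Finset.sum_sub_distrib, ← Finset.sum_mul, hsumm]
      field_simp
      ring
    rw [h1, Finset.sum_sub_distrib]
    have h3 : ∑ v ∈ W.support, 2 * Real.log (Gf v) ≤ 2 * ∑ v ∈ bad, Real.log (Gf v) := by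
      rw [← Finset.mul_sum]
      apply mul_le_mul_of_nonneg_left _ (by norm_num)
      have h4 : ∑ v ∈ W.support, Real.log (Gf v) = ∑ v ∈ W.support ∩ bad, Real.log (Gf v) := by
        symm
        apply Finset.sum_subset Finset.inter_subset_left
        intro v hv hvb
        have : v ∉ bad := fun h => hvb (Finset.mem_inter.2 ⟨hv, h⟩)
        rw [hGfb v this, Real.log_one]
      rw [h4]
      apply Finset.sum_le_sum_of_subset_of_nonneg Finset.inter_subset_right
      intro v _ _
      exact Real.log_nonneg (hGf1 v)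
    have h4 := hsum u0 (hXU u0 hu0)
    simp only [hM]
    linarith
  have h1 := Finset.card_le_mul_card_image (f := chart) U ⌊C'⌋₊ (fun χ _ => Nat.le_floor (key χ))
  have h2 : (U.image chart).card ≤ Fintype.card (InfinitePlace K → Bool) := Finset.card_le_univ _
  have h3 : U.card ≤ ⌊C'⌋₊ * Fintype.card (InfinitePlace K → Bool) :=
    h1.trans (Nat.mul_le_mul_left _ h2)
  have h4 : (U.card : ℝ) ≤ ((⌊C'⌋₊ * Fintype.card (InfinitePlace K → Bool) : ℕ) : ℝ) := by
    exact_mod_cast h3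
  linarith

end Pool.Agent.Lib.MP_44a246_nt.HP
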