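import Pool.Agent.Lib.MP_44a246_nt.HP.Defs

set_option autoImplicit false

open NumberField IsDedekindDomain Height
open Pool.Agent.Lib.MP_4d5ce1_nt (ordv fa nv)

namespace Pool.Agent.Lib.MP_44a246_nt.HP

/-! ## HP-10 -/

private lemma mid_single {q : ℕ} {e : Fin q → ℕ} {l : Fin q} (hu : Useful e)
    (h : ∀ l', l' ≠ l → e l' = 0) : 2 ≤ e l := by
  rcases hu with ⟨l1, l2, h12, h1, h2⟩ | ⟨l1, h1⟩
  · by_cases h3 : l1 = l
    · exact absurd (h l2 fun h4 => h12 (h3.trans h4.symm)) h2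
    · exact absurd (h l1 h3) h1
  · by_cases h3 : l1 = l
    · rwa [← h3]
    · have := h l1 h3
      omega

private lemma mid_R {q : ℕ} {F : Finset (Fin q)} {e g : Fin q → ℕ} (hu : Useful e)
    (hg : ∀ l ∈ Fᶜ, g l ≤ e l)
    (hg1 : ∀ l ∈ Fᶜ, ∀ l' ∈ Fᶜ, l ≠ l' → g l = 0 ∨ g l' = 0)
    (h1 : ∑ l ∈ F, e l = 0) (h2 : Fᶜ.sup (fun l => e l - g l) = 0) :
    ∃ l ∈ Fᶜ, 2 ≤ e l ∧ g l = e l ∧ (∀ l', l' ≠ l → e l' = 0) ∧ 2 ≤ Fᶜ.sup g := by
  have hF : ∀ l ∈ F, e l = 0 := fun l hl => (Finset.sum_eq_zero_iff.1 h1) l hl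
  have hC : ∀ l ∈ Fᶜ, g l = e l := by
    intro l hl
    have h3 : e l - g l ≤ Fᶜ.sup (fun l => e l - g l) :=
      Finset.le_sup (f := fun l => e l - g l) hl
    have h4 := hg l hl
    omega
  have hmem : ∀ l, e l ≠ 0 → l ∈ Fᶜ := by
    intro l hl
    rw [Finset.mem_compl]
    exact fun h => hl (hF l h)
  have key : ∀ l l', l ≠ l' → e l ≠ 0 → e l' ≠ 0 → False := by
    intro l l' h3 h4 h5
    rcases hg1 l (hmem l h4) l' (hmem l' h5) h3 with h6 | h6
    · rw [hC l (hmem l h4)] at h6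
      exact h4 h6
    · rw [hC l' (hmem l' h5)] at h6
      exact h5 h6
  rcases hu with ⟨l1, l2, h12, h3, h4⟩ | ⟨l, hl⟩
  · exact (key l1 l2 h12 h3 h4).elim
  · have hl0 : e l ≠ 0 := by omega
    refine ⟨l, hmem l hl0, hl, hC l (hmem l hl0), fun l' h3 => ?_, ?_⟩
    · by_contra h4
      exact key l' l h3 h4 hl0
    · have h5 : g l ≤ Fᶜ.sup g := Finset.le_sup (hmem l hl0)
      rw [hC l (hmem l hl0)] at h5
      omega

private lemma mid_core {ι : Type*} [DecidableEq ι] (Q0 R : Finset ι) (b G : ι → ℝ)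
    (hd : Disjoint Q0 R) (hRb : ∀ i ∈ R, b i ≤ 1 / 2 * G i) (hGQ : ∀ i ∈ Q0, 0 ≤ G i)
    (lam t M : ℝ) (hlam : 0 ≤ lam) (ht : t ≤ 2 * lam)
    (htot : t ≤ ∑ i ∈ Q0 ∪ R, G i) (hM0 : ∑ i ∈ Q0, b i ≤ M)
    (hM : ∀ i0 ∈ R, ∑ i ∈ Q0, b i + b i0 ≤ M) :
    ∃ W, Q0 ⊆ W ∧ W ⊆ Q0 ∪ R ∧ t ≤ ∑ i ∈ W, G i ∧ ∑ i ∈ W, b i ≤ M + lam := by
  by_cases h0 : t ≤ ∑ i ∈ Q0, G i
  · exact ⟨Q0, Finset.Subset.refl _, Finset.subset_union_left, h0, by linarith⟩
  have hne : (R.powerset.filter fun R' => t ≤ ∑ i ∈ Q0 ∪ R', G i).Nonempty :=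
    ⟨R, by simp [htot]⟩
  obtain ⟨R', hR', hmin⟩ := Finset.exists_min_image _ (fun R' => R'.card) hne
  rw [Finset.mem_filter, Finset.mem_powerset] at hR'
  obtain ⟨hR'R, hR't⟩ := hR'
  have hd' : Disjoint Q0 R' := Finset.disjoint_of_subset_right hR'R hd
  have hne' : R'.Nonempty := by
    rw [Finset.nonempty_iff_ne_empty]
    intro h
    rw [h, Finset.union_empty] at hR't
    exact h0 hR't
  obtain ⟨i0, hi0⟩ := hne'
  have hde : Disjoint Q0 (R'.erase i0) := Finset.disjoint_of_subset_right (Finset.erase_subset _ _) hd'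
  have h1 : ∑ i ∈ Q0 ∪ R'.erase i0, G i < t := by
    by_contra h
    push Not at h
    have h2 := hmin (R'.erase i0) (by
      rw [Finset.mem_filter, Finset.mem_powerset]
      exact ⟨(Finset.erase_subset _ _).trans hR'R, h⟩)
    have h3 := Finset.card_erase_lt_of_mem hi0
    omega
  rw [Finset.sum_union hde] at h1
  have h4 : 0 ≤ ∑ i ∈ Q0, G i := Finset.sum_nonneg hGQ
  have h5 : ∑ i ∈ R'.erase i0, b i ≤ 1 / 2 * ∑ i ∈ R'.erase i0, G i := by
    rw [Finset.mul_sum]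
    exact Finset.sum_le_sum fun i hi => hRb i (hR'R (Finset.mem_of_mem_erase hi))
  refine ⟨Q0 ∪ R', Finset.subset_union_left, Finset.union_subset_union_right hR'R, hR't, ?_⟩
  rw [Finset.sum_union hd', ← Finset.add_sum_erase R' b hi0]
  have h6 := hM i0 (hR'R hi0)
  linarith

private lemma mid_eps_nonneg_term {q : ℕ} {ι : Type*} {T : Finset ι}
    {b : ι → ℝ} (hb : ∀ i ∈ T, 0 < b i) {e : ι → Fin q → ℕ} (hu : ∀ i ∈ T, Useful (e i))
    {l : Fin q} {i : ι} (hi : i ∈ T) (h : ∀ l', l' ≠ l → e i l' = 0) :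
    b i ≤ ((e i l : ℝ) - 1) * b i := by
  have h2 : (2 : ℝ) ≤ (e i l : ℝ) := by exact_mod_cast mid_single (hu i hi) h
  nlinarith [hb i hi]

private lemma mid_le_eps {q : ℕ} {ι : Type*} {T : Finset ι}
    {b : ι → ℝ} (hb : ∀ i ∈ T, 0 < b i) {e : ι → Fin q → ℕ} (hu : ∀ i ∈ T, Useful (e i))
    {l : Fin q} {i : ι} (hi : i ∈ T) (h : ∀ l', l' ≠ l → e i l' = 0) :
    b i ≤ eps T b e l := by
  classical
  unfold eps
  refine (mid_eps_nonneg_term hb hu hi h).trans ?_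
  refine Finset.single_le_sum (f := fun i => ((e i l : ℝ) - 1) * b i) (fun j hj => ?_) ?_
  · rw [Finset.mem_filter] at hj
    exact (hb j hj.1).le.trans (mid_eps_nonneg_term hb hu hj.1 hj.2)
  · rw [Finset.mem_filter]
    exact ⟨hi, h⟩

/-- the excess of a form of `F` is bounded by the excess of `Q` -/
private lemma mid_eps_le {q : ℕ} {ι : Type*} {F : Finset (Fin q)} {T : Finset ι}
    {b : ι → ℝ} (hb : ∀ i ∈ T, 0 < b i) {e : ι → Fin q → ℕ} (hu : ∀ i ∈ T, Useful (e i))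
    (P : ι → ℕ) (hP : ∀ i, ∑ l ∈ F, e i l ≤ P i) {f : Fin q} (hf : f ∈ F) :
    eps T b e f ≤ ∑ i ∈ T.filter (fun i => 1 ≤ P i), ((P i : ℝ) - 1) * b i := by
  classical
  unfold eps
  have hfP : ∀ i, e i f ≤ P i := fun i =>
    (Finset.single_le_sum (f := fun l => e i l) (fun _ _ => Nat.zero_le _) hf).trans (hP i)
  calc ∑ i ∈ T.filter (fun i => ∀ l', l' ≠ f → e i l' = 0), ((e i f : ℝ) - 1) * b i
      ≤ ∑ i ∈ T.filter (fun i => ∀ l', l' ≠ f → e i l' = 0), ((P i : ℝ) - 1) * b i := by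
        refine Finset.sum_le_sum fun i hi => ?_
        rw [Finset.mem_filter] at hi
        apply mul_le_mul_of_nonneg_right _ (hb i hi.1).le
        have : (e i f : ℝ) ≤ (P i : ℝ) := by exact_mod_cast hfP i
        linarith
    _ ≤ _ := by
        refine Finset.sum_le_sum_of_subset_of_nonneg (fun i hi => ?_) (fun i hi _ => ?_)
        · rw [Finset.mem_filter] at hi ⊢
          refine ⟨hi.1, ?_⟩
          have h1 := mid_single (hu i hi.1) hi.2
          have h2 := hfP i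
          omega
        · rw [Finset.mem_filter] at hi
          have h1 : (1 : ℝ) ≤ (P i : ℝ) := by exact_mod_cast hi.2
          exact mul_nonneg (by linarith) (hb i hi.1).le

theorem mid_lemma {q : ℕ} {ι : Type*} [DecidableEq ι] (F : Finset (Fin q)) (T : Finset ι)
    (b : ι → ℝ) (hb : ∀ i ∈ T, 0 < b i) (e : ι → Fin q → ℕ) (hu : ∀ i ∈ T, Useful (e i))
    (hsel : Sel F T b e) (g : ι → Fin q → ℕ)
    (hg : ∀ i ∈ T, ∀ l ∈ Fᶜ, g i l ≤ e i l)
    (hg1 : ∀ i ∈ T, ∀ l ∈ Fᶜ, ∀ l' ∈ Fᶜ, l ≠ l' → g i l = 0 ∨ g i l' = 0)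
    (lam t : ℝ) (hlam : 0 ≤ lam) (ht : t ≤ 2 * lam)
    (htot : t ≤ ∑ i ∈ T, ((Fᶜ.sup (g i) : ℕ) : ℝ) * b i) :
    ∃ W ⊆ T, (∀ i ∈ T \ W, ∃ l ∈ Fᶜ, g i l ≠ 0) ∧
      t ≤ ∑ i ∈ W, ((Fᶜ.sup (g i) : ℕ) : ℝ) * b i ∧
      ∑ i ∈ W, b i ≤ ∑ i ∈ T, (((∑ l ∈ F, e i l : ℕ) : ℝ) +
        ((Fᶜ.sup (fun l => e i l - g i l) : ℕ) : ℝ)) * b i + lam := by
  set P : ι → ℕ := fun i => ∑ l ∈ F, e i l + Fᶜ.sup (fun l => e i l - g i l) with hPdef
  have hPcast : ∀ i, (((∑ l ∈ F, e i l : ℕ) : ℝ) +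
        ((Fᶜ.sup (fun l => e i l - g i l) : ℕ) : ℝ)) = (P i : ℝ) := by
    intro i
    rw [hPdef]
    push_cast
    rfl
  simp only [hPcast]
  set G : ι → ℝ := fun i => ((Fᶜ.sup (g i) : ℕ) : ℝ) * b i with hGdef
  have hG0 : ∀ i ∈ T, 0 ≤ G i := fun i hi => mul_nonneg (Nat.cast_nonneg _) (hb i hi).le
  set Q := T.filter (fun i => 1 ≤ P i) with hQ
  set R := T.filter (fun i => ¬ 1 ≤ P i) with hR
  have hQT : Q ⊆ T := Finset.filter_subset _ _
  have hRT : R ⊆ T := Finset.filter_subset _ _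
  have hQR : Disjoint Q R := Finset.disjoint_filter_filter_not _ _ _
  have hQRT : Q ∪ R = T := Finset.filter_union_filter_not_eq _ _
  -- items of `R`
  have hRi : ∀ i ∈ R, ∃ l ∈ Fᶜ, 2 ≤ e i l ∧ g i l = e i l ∧ (∀ l', l' ≠ l → e i l' = 0) ∧
      2 ≤ Fᶜ.sup (g i) := by
    intro i hi
    rw [hR, Finset.mem_filter] at hi
    have h1 : P i = 0 := by omega
    have h2 : ∑ l ∈ F, e i l = 0 := by
      have : ∑ l ∈ F, e i l ≤ P i := Nat.le_add_right _ _
      omega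
    have h3 : Fᶜ.sup (fun l => e i l - g i l) = 0 := by
      have : Fᶜ.sup (fun l => e i l - g i l) ≤ P i := Nat.le_add_left _ _
      omega
    exact mid_R (hu i hi.1) (hg i hi.1) (hg1 i hi.1) h2 h3
  have hRb : ∀ i ∈ R, b i ≤ 1 / 2 * G i := by
    intro i hi
    obtain ⟨l, -, -, -, -, h2⟩ := hRi i hi
    have h3 : (2 : ℝ) ≤ ((Fᶜ.sup (g i) : ℕ) : ℝ) := by exact_mod_cast h2
    have h4 := hb i (hRT hi)
    show b i ≤ 1 / 2 * (((Fᶜ.sup (g i) : ℕ) : ℝ) * b i)
    nlinarith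
  have hReps : ∀ i ∈ R, ∃ l, b i ≤ eps T b e l := by
    intro i hi
    obtain ⟨l, -, -, -, h1, -⟩ := hRi i hi
    exact ⟨l, mid_le_eps hb hu (hRT hi) h1⟩
  have hRg : ∀ i ∈ R, ∃ l ∈ Fᶜ, g i l ≠ 0 := by
    intro i hi
    obtain ⟨l, h0, h1, h2, -, -⟩ := hRi i hi
    exact ⟨l, h0, by omega⟩
  have hPT : ∑ i ∈ Q, (P i : ℝ) * b i ≤ ∑ i ∈ T, (P i : ℝ) * b i :=
    Finset.sum_le_sum_of_subset_of_nonneg hQT fun i hi _ =>
      mul_nonneg (Nat.cast_nonneg _) (hb i hi).le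
  have hQ1 : ∀ i ∈ Q, (1 : ℝ) ≤ (P i : ℝ) := by
    intro i hi
    rw [hQ, Finset.mem_filter] at hi
    exact_mod_cast hi.2
  have hQb : ∑ i ∈ Q, b i ≤ ∑ i ∈ Q, (P i : ℝ) * b i := by
    refine Finset.sum_le_sum fun i hi => ?_
    have h1 := hQ1 i hi
    have h2 := hb i (hQT hi)
    nlinarith
  have hsplit : ∑ i ∈ Q, ((P i : ℝ) - 1) * b i = ∑ i ∈ Q, (P i : ℝ) * b i - ∑ i ∈ Q, b i := by
    rw [← Finset.sum_sub_distrib]
    exact Finset.sum_congr rfl fun i _ => by ring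
  have hterm : ∀ i ∈ Q, 0 ≤ ((P i : ℝ) - 1) * b i := fun i hi =>
    mul_nonneg (by linarith [hQ1 i hi]) (hb i (hQT hi)).le
  -- the main case
  have main : (∀ l, eps T b e l ≤ ∑ i ∈ Q, ((P i : ℝ) - 1) * b i) →
      ∃ W ⊆ T, (∀ i ∈ T \ W, ∃ l ∈ Fᶜ, g i l ≠ 0) ∧ t ≤ ∑ i ∈ W, G i ∧
        ∑ i ∈ W, b i ≤ ∑ i ∈ T, (P i : ℝ) * b i + lam := by
    intro h
    obtain ⟨W, h1, h2, h3, h4⟩ := mid_core Q R b G hQR hRb (fun i hi => hG0 i (hQT hi)) lam t
      (∑ i ∈ T, (P i : ℝ) * b i) hlam ht (by rw [hQRT]; exact htot) (hQb.trans hPT)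
      (fun i0 hi0 => by
        obtain ⟨l, hl⟩ := hReps i0 hi0
        have := h l
        rw [hsplit] at this
        linarith)
    refine ⟨W, h2.trans hQRT.subset, fun i hi => ?_, h3, h4⟩
    rw [Finset.mem_sdiff] at hi
    have hiR : i ∈ R := by
      have : i ∈ Q ∪ R := by rw [hQRT]; exact hi.1
      rcases Finset.mem_union.1 this with h5 | h5
      · exact absurd (h1 h5) hi.2
      · exact h5
    exact hRg i hiR
  rcases hsel with ⟨f, hf, hmax⟩ | ⟨p, hpT, f, hf, hpf, ⟨l1, hl1f, hl1⟩, hpb, hpe⟩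
  · exact main fun l => (hmax l).trans
      (mid_eps_le hb hu P (fun i => Nat.le_add_right _ _) hf)
  · have hpP : e p f ≤ P p :=
      (Finset.single_le_sum (f := fun l => e p l) (fun _ _ => Nat.zero_le _) hf).trans
        (Nat.le_add_right _ _)
    have hpQ : p ∈ Q := by
      rw [hQ, Finset.mem_filter]
      exact ⟨hpT, by omega⟩
    by_cases hP2 : 2 ≤ P p
    · refine main fun l => (hpb l).trans ?_
      have h1 : (2 : ℝ) ≤ (P p : ℝ) := by exact_mod_cast hP2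
      have h2 : b p ≤ ((P p : ℝ) - 1) * b p := by nlinarith [hb p hpT]
      exact h2.trans (Finset.single_le_sum (f := fun i => ((P i : ℝ) - 1) * b i) hterm hpQ)
    · have hP1 : P p = 1 := by
        have : 1 ≤ P p := by omega
        omega
      -- `l1` is not in `F`
      have hl1F : l1 ∈ Fᶜ := by
        rw [Finset.mem_compl]
        intro h
        have h1 : e p f + e p l1 ≤ ∑ l ∈ F, e p l := by
          rw [← Finset.sum_pair (f := fun l => e p l) hl1f.symm]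
          refine Finset.sum_le_sum_of_subset (fun x hx => ?_)
          rw [Finset.mem_insert, Finset.mem_singleton] at hx
          rcases hx with rfl | rfl
          · exact hf
          · exact h
        have h2 : ∑ l ∈ F, e p l ≤ P p := Nat.le_add_right _ _
        omega
      have hgp : g p l1 ≠ 0 := by
        have h1 : e p l1 - g p l1 ≤ Fᶜ.sup (fun l => e p l - g p l) :=
          Finset.le_sup (f := fun l => e p l - g p l) hl1F
        have h2 : e p f ≤ ∑ l ∈ F, e p l :=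
          Finset.single_le_sum (f := fun l => e p l) (fun _ _ => Nat.zero_le _) hf
        have h3 : ∑ l ∈ F, e p l + Fᶜ.sup (fun l => e p l - g p l) = 1 := hP1
        omega
      set Q0 := Q.erase p with hQ0
      have hQ0R : Disjoint Q0 R := Finset.disjoint_of_subset_left (Finset.erase_subset _ _) hQR
      have hQsum : ∑ i ∈ Q, (P i : ℝ) * b i = b p + ∑ i ∈ Q0, (P i : ℝ) * b i := by
        rw [← Finset.add_sum_erase Q (fun i => (P i : ℝ) * b i) hpQ, hP1]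
        simp [hQ0]
      have hQ0b : ∑ i ∈ Q0, b i ≤ ∑ i ∈ Q0, (P i : ℝ) * b i := by
        refine Finset.sum_le_sum fun i hi => ?_
        have hi' := Finset.mem_of_mem_erase hi
        have h1 := hQ1 i hi'
        have h2 := hb i (hQT hi')
        nlinarith
      by_cases hcase : t ≤ ∑ i ∈ Q0 ∪ R, G i
      · obtain ⟨W, h1, h2, h3, h4⟩ := mid_core Q0 R b G hQ0R hRb
          (fun i hi => hG0 i (hQT (Finset.mem_of_mem_erase hi))) lam t
          (∑ i ∈ T, (P i : ℝ) * b i) hlam ht hcase (by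
            have := hb p hpT
            linarith)
          (fun i0 hi0 => by
            obtain ⟨l, hl⟩ := hReps i0 hi0
            have := hpb l
            linarith)
        have hsub : Q0 ∪ R ⊆ T :=
          Finset.union_subset ((Finset.erase_subset _ _).trans hQT) hRT
        refine ⟨W, h2.trans hsub, fun i hi => ?_, h3, h4⟩
        rw [Finset.mem_sdiff] at hi
        by_cases hip : i = p
        · rw [hip]
          exact ⟨l1, hl1F, hgp⟩
        have hiR : i ∈ R := by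
          have : i ∈ Q ∪ R := by rw [hQRT]; exact hi.1
          rcases Finset.mem_union.1 this with h5 | h5
          · exact absurd (h1 (Finset.mem_erase.2 ⟨hip, h5⟩)) hi.2
          · exact h5
        exact hRg i hiR
      · push Not at hcase
        refine ⟨T, Finset.Subset.refl _, fun i hi => ?_, htot, ?_⟩
        · simp at hi
        · have h1 : ∑ i ∈ T, b i = ∑ i ∈ Q, b i + ∑ i ∈ R, b i := by
            rw [← Finset.sum_union hQR, hQRT]
          have h2 : ∑ i ∈ R, b i ≤ 1 / 2 * ∑ i ∈ R, G i := by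
            rw [Finset.mul_sum]
            exact Finset.sum_le_sum hRb
          have h3 : ∑ i ∈ R, G i ≤ ∑ i ∈ Q0 ∪ R, G i :=
            Finset.sum_le_sum_of_subset_of_nonneg Finset.subset_union_right fun i hi _ => by
              refine hG0 i ?_
              rcases Finset.mem_union.1 hi with h5 | h5
              · exact hQT (Finset.mem_of_mem_erase h5)
              · exact hRT h5
          rw [h1]
          linarith

theorem special_lemma {q : ℕ} {ι : Type*} [DecidableEq ι] (F : Finset (Fin q)) (T : Finset ι)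
    (b : ι → ℝ) (hb : ∀ i ∈ T, 0 < b i) (e : ι → Fin q → ℕ) (hu : ∀ i ∈ T, Useful (e i))
    (hsel : Sel F T b e) (g : ι → Fin q → ℕ) (l₀ : Fin q) (hl₀ : l₀ ∈ Fᶜ)
    (hg : ∀ i ∈ T, ∀ l ∈ Fᶜ, g i l ≤ e i l)
    (hg0 : ∀ i ∈ T, ∀ l ∈ Fᶜ, l ≠ l₀ → g i l = 0) :
    ∑ i ∈ T, b i ≤ ∑ i ∈ T, (((∑ l ∈ F, e i l : ℕ) : ℝ) +
        ((Fᶜ.sup (fun l => e i l - g i l) : ℕ) : ℝ)) * b i := by
  set P : ι → ℕ := fun i => ∑ l ∈ F, e i l + Fᶜ.sup (fun l => e i l - g i l) with hPdef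
  have hPcast : ∀ i, (((∑ l ∈ F, e i l : ℕ) : ℝ) +
        ((Fᶜ.sup (fun l => e i l - g i l) : ℕ) : ℝ)) = (P i : ℝ) := by
    intro i
    rw [hPdef]
    push_cast
    rfl
  simp only [hPcast]
  set Q := T.filter (fun i => 1 ≤ P i) with hQ
  set R := T.filter (fun i => ¬ 1 ≤ P i) with hR
  have hQT : Q ⊆ T := Finset.filter_subset _ _
  have hRT : R ⊆ T := Finset.filter_subset _ _
  have hQR : Disjoint Q R := Finset.disjoint_filter_filter_not _ _ _
  have hQRT : Q ∪ R = T := Finset.filter_union_filter_not_eq _ _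
  have hg1 : ∀ i ∈ T, ∀ l ∈ Fᶜ, ∀ l' ∈ Fᶜ, l ≠ l' → g i l = 0 ∨ g i l' = 0 := by
    intro i hi l hl l' hl' hne
    by_cases h : l = l₀
    · right
      exact hg0 i hi l' hl' fun h' => hne (h.trans h'.symm)
    · left
      exact hg0 i hi l hl h
  have hRi : ∀ i ∈ R, ∀ l', l' ≠ l₀ → e i l' = 0 := by
    intro i hi
    rw [hR, Finset.mem_filter] at hi
    have h1 : P i = 0 := by omega
    have h2 : ∑ l ∈ F, e i l = 0 := by
      have : ∑ l ∈ F, e i l ≤ P i := Nat.le_add_right _ _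
      omega
    have h3 : Fᶜ.sup (fun l => e i l - g i l) = 0 := by
      have : Fᶜ.sup (fun l => e i l - g i l) ≤ P i := Nat.le_add_left _ _
      omega
    obtain ⟨l, hl, h4, h5, h6, -⟩ := mid_R (hu i hi.1) (hg i hi.1) (hg1 i hi.1) h2 h3
    have h7 : l = l₀ := by
      by_contra h8
      have := hg0 i hi.1 l hl h8
      omega
    rw [← h7]
    exact h6
  have hReps : ∑ i ∈ R, b i ≤ eps T b e l₀ := by
    classical
    unfold eps
    calc ∑ i ∈ R, b i ≤ ∑ i ∈ R, ((e i l₀ : ℝ) - 1) * b i :=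
          Finset.sum_le_sum fun i hi => mid_eps_nonneg_term hb hu (hRT hi) (hRi i hi)
      _ ≤ _ := by
          refine Finset.sum_le_sum_of_subset_of_nonneg (fun i hi => ?_) (fun i hi _ => ?_)
          · rw [Finset.mem_filter]
            exact ⟨hRT hi, hRi i hi⟩
          · rw [Finset.mem_filter] at hi
            exact (hb i hi.1).le.trans (mid_eps_nonneg_term hb hu hi.1 hi.2)
  have hPT : ∑ i ∈ Q, (P i : ℝ) * b i ≤ ∑ i ∈ T, (P i : ℝ) * b i :=
    Finset.sum_le_sum_of_subset_of_nonneg hQT fun i hi _ =>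
      mul_nonneg (Nat.cast_nonneg _) (hb i hi).le
  have hQ1 : ∀ i ∈ Q, (1 : ℝ) ≤ (P i : ℝ) := by
    intro i hi
    rw [hQ, Finset.mem_filter] at hi
    exact_mod_cast hi.2
  have hsplit : ∑ i ∈ Q, ((P i : ℝ) - 1) * b i = ∑ i ∈ Q, (P i : ℝ) * b i - ∑ i ∈ Q, b i := by
    rw [← Finset.sum_sub_distrib]
    exact Finset.sum_congr rfl fun i _ => by ring
  have hterm : ∀ i ∈ Q, 0 ≤ ((P i : ℝ) - 1) * b i := fun i hi =>
    mul_nonneg (by linarith [hQ1 i hi]) (hb i (hQT hi)).le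
  have key : eps T b e l₀ ≤ ∑ i ∈ Q, ((P i : ℝ) - 1) * b i := by
    rcases hsel with ⟨f, hf, hmax⟩ | ⟨p, hpT, f, hf, hpf, ⟨l1, hl1f, hl1⟩, hpb, hpe⟩
    · exact (hmax l₀).trans (mid_eps_le hb hu P (fun i => Nat.le_add_right _ _) hf)
    · have hpP : e p f ≤ P p :=
        (Finset.single_le_sum (f := fun l => e p l) (fun _ _ => Nat.zero_le _) hf).trans
          (Nat.le_add_right _ _)
      have hpQ : p ∈ Q := by
        rw [hQ, Finset.mem_filter]
        exact ⟨hpT, by omega⟩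
      by_cases hP2 : 2 ≤ P p
      · refine (hpb l₀).trans ?_
        have h1 : (2 : ℝ) ≤ (P p : ℝ) := by exact_mod_cast hP2
        have h2 : b p ≤ ((P p : ℝ) - 1) * b p := by nlinarith [hb p hpT]
        exact h2.trans (Finset.single_le_sum (f := fun i => ((P i : ℝ) - 1) * b i) hterm hpQ)
      · have hP1 : P p = 1 := by
          have : 1 ≤ P p := by omega
          omega
        have hl1F : l1 ∈ Fᶜ := by
          rw [Finset.mem_compl]
          intro h
          have h1 : e p f + e p l1 ≤ ∑ l ∈ F, e p l := by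
            rw [← Finset.sum_pair (f := fun l => e p l) hl1f.symm]
            refine Finset.sum_le_sum_of_subset (fun x hx => ?_)
            rw [Finset.mem_insert, Finset.mem_singleton] at hx
            rcases hx with rfl | rfl
            · exact hf
            · exact h
          have h2 : ∑ l ∈ F, e p l ≤ P p := Nat.le_add_right _ _
          omega
        have hgp : g p l1 ≠ 0 := by
          have h1 : e p l1 - g p l1 ≤ Fᶜ.sup (fun l => e p l - g p l) :=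
            Finset.le_sup (f := fun l => e p l - g p l) hl1F
          have h2 : e p f ≤ ∑ l ∈ F, e p l :=
            Finset.single_le_sum (f := fun l => e p l) (fun _ _ => Nat.zero_le _) hf
          have h3 : ∑ l ∈ F, e p l + Fᶜ.sup (fun l => e p l - g p l) = 1 := hP1
          omega
        have h7 : l1 = l₀ := by
          by_contra h8
          exact hgp (hg0 p hpT l1 hl1F h8)
        rw [h7] at hl1
        exact (hpe l₀ hl1).trans (mid_eps_le hb hu P (fun i => Nat.le_add_right _ _) hf)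
  have h1 : ∑ i ∈ T, b i = ∑ i ∈ Q, b i + ∑ i ∈ R, b i := by
    rw [← Finset.sum_union hQR, hQRT]
  rw [h1]
  rw [hsplit] at key
  linarith

end Pool.Agent.Lib.MP_44a246_nt.HP
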