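import Pool.Agent.Lib.MP_44a246_nt.HP.Local
import Pool.Agent.Lib.MP_44a246_nt.HP.Mid

set_option autoImplicit false

open NumberField IsDedekindDomain Height
open Pool.Agent.Lib.MP_4d5ce1_nt (ordv fa nv)

namespace Pool.Agent.Lib.MP_44a246_nt.HP

/-! ## HP-11 -/

/-- The local inequality. -/
lemma exW_tt_le {q : ℕ} (L : Finset (Fin q)) (e g : Fin q → ℕ) (N : ℕ)
    (h : ∀ l ∈ L, ∀ l' ∈ L, l ≠ l' → g l ≤ N ∨ g l' ≤ N) :
    tt e L ≤ L.sup g + 2 * L.sup (fun l => e l - g l) + N := by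
  unfold tt
  refine Finset.sup_le fun p hp => ?_
  obtain ⟨h1, h2, h3⟩ := Finset.mem_offDiag.mp hp
  have a1 : g p.1 ≤ L.sup g := Finset.le_sup h1
  have a2 : g p.2 ≤ L.sup g := Finset.le_sup h2
  have a3 : e p.1 - g p.1 ≤ L.sup (fun l => e l - g l) :=
    Finset.le_sup (f := fun l => e l - g l) h1
  have a4 : e p.2 - g p.2 ≤ L.sup (fun l => e l - g l) :=
    Finset.le_sup (f := fun l => e l - g l) h2
  rcases h _ h1 _ h2 h3 with h4 | h4 <;> omega

/-- Independence of two forms in two variables. -/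
lemma exW_indep {K : Type*} [Field K] (a b : Fin 2 → K) (h : wd a b ≠ 0) :
    LinearIndependent K ![a, b] := by
  rw [LinearIndependent.pair_iff]
  intro s t hst
  have h0 : s * a 0 + t * b 0 = 0 := by
    have := congrFun hst 0
    simpa using this
  have h1 : s * a 1 + t * b 1 = 0 := by
    have := congrFun hst 1
    simpa using this
  unfold wd at h
  constructor
  · have : s * (a 0 * b 1 - a 1 * b 0) = 0 := by linear_combination b 1 * h0 - b 0 * h1
    rcases mul_eq_zero.mp this with h2 | h2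
    · exact h2
    · exact absurd h2 h
  · have : t * (a 0 * b 1 - a 1 * b 0) = 0 := by linear_combination a 0 * h1 - a 1 * h0
    rcases mul_eq_zero.mp this with h2 | h2
    · exact h2
    · exact absurd h2 h

section

variable {K : Type*} [Field K] [NumberField K]

/-- All pairs at once. -/
lemma exW_pairs (q : ℕ) (L : Finset (Fin q)) (α : Fin q → Fin 2 → K)
    (hα : ∀ l ∈ L, ∀ l' ∈ L, l ≠ l' → wd (α l) (α l') ≠ 0) :
    ∃ (bad : Finset (HeightOneSpectrum (𝓞 K))) (A : ℝ), 1 ≤ A ∧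
      ∀ l ∈ L, ∀ l' ∈ L, l ≠ l' →
      (∀ v ∉ bad, ∀ (y : Fin 2 → K) (i : Fin 2), fa v (y i) ≤ fa v (lf (α l) y) ∨
        fa v (y i) ≤ fa v (lf (α l') y)) ∧
      (∀ v, ∀ (y : Fin 2 → K) (i : Fin 2), fa v (y i) ≤ A * fa v (lf (α l) y) ∨
        fa v (y i) ≤ A * fa v (lf (α l') y)) ∧
      (∀ w : InfinitePlace K, ∀ (y : Fin 2 → K) (i : Fin 2), w (y i) ≤ A * w (lf (α l) y) ∨
        w (y i) ≤ A * w (lf (α l') y)) := by
  classical
  have key : ∀ p : Fin q × Fin q, ∃ (bad : Finset (HeightOneSpectrum (𝓞 K))) (A : ℝ), 1 ≤ A ∧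
      (p.1 ∈ L → p.2 ∈ L → p.1 ≠ p.2 →
      (∀ v ∉ bad, ∀ (y : Fin 2 → K) (i : Fin 2), fa v (y i) ≤ fa v (lf (α p.1) y) ∨
        fa v (y i) ≤ fa v (lf (α p.2) y)) ∧
      (∀ v, ∀ (y : Fin 2 → K) (i : Fin 2), fa v (y i) ≤ A * fa v (lf (α p.1) y) ∨
        fa v (y i) ≤ A * fa v (lf (α p.2) y)) ∧
      (∀ w : InfinitePlace K, ∀ (y : Fin 2 → K) (i : Fin 2), w (y i) ≤ A * w (lf (α p.1) y) ∨
        w (y i) ≤ A * w (lf (α p.2) y))) := by
    intro p
    by_cases hp : p.1 ∈ L ∧ p.2 ∈ L ∧ p.1 ≠ p.2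
    · obtain ⟨bad, A, hA, h1, h2, h3⟩ := indep_bound K 2 ![α p.1, α p.2]
        (exW_indep _ _ (hα _ hp.1 _ hp.2.1 hp.2.2))
      refine ⟨bad, A, hA, fun _ _ _ => ⟨?_, ?_, ?_⟩⟩
      · intro v hv y i
        obtain ⟨j, hj⟩ := h1 v hv y i
        fin_cases j
        · exact Or.inl hj
        · exact Or.inr hj
      · intro v y i
        obtain ⟨j, hj⟩ := h2 v y i
        fin_cases j
        · exact Or.inl hj
        · exact Or.inr hj
      · intro v y i
        obtain ⟨j, hj⟩ := h3 v y i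
        fin_cases j
        · exact Or.inl hj
        · exact Or.inr hj
    · exact ⟨∅, 1, le_rfl, fun a b c => absurd ⟨a, b, c⟩ hp⟩
  choose bad A hA h using key
  refine ⟨Finset.univ.biUnion bad, ∑ p, A p + 1, ?_, ?_⟩
  · have : 0 ≤ ∑ p, A p := Finset.sum_nonneg fun p _ => by linarith [hA p]
    linarith
  · intro l hl l' hl' hne
    obtain ⟨h1, h2, h3⟩ := h (l, l') hl hl' hne
    have hle : A (l, l') ≤ ∑ p, A p + 1 := by
      have := Finset.single_le_sum (f := A) (fun p _ => by linarith [hA p])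
        (Finset.mem_univ (l, l'))
      linarith
    refine ⟨?_, ?_, ?_⟩
    · intro v hv y i
      refine h1 v ?_ y i
      intro hv'
      exact hv (Finset.mem_biUnion.mpr ⟨_, Finset.mem_univ _, hv'⟩)
    · intro v y i
      rcases h2 v y i with h4 | h4
      · exact Or.inl (h4.trans (mul_le_mul_of_nonneg_right hle
          (Pool.Agent.Lib.MP_4d5ce1_nt.fa_nonneg _ _)))
      · exact Or.inr (h4.trans (mul_le_mul_of_nonneg_right hle
          (Pool.Agent.Lib.MP_4d5ce1_nt.fa_nonneg _ _)))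
    · intro w y i
      rcases h3 w y i with h4 | h4
      · exact Or.inl (h4.trans (mul_le_mul_of_nonneg_right hle (apply_nonneg _ _)))
      · exact Or.inr (h4.trans (mul_le_mul_of_nonneg_right hle (apply_nonneg _ _)))

/-- Few primes have a small norm. -/
lemma exW_small (C : ℝ) : {v : HeightOneSpectrum (𝓞 K) | nv v ≤ C}.Finite := by
  refine (Ring.HasFiniteQuotients.finite_absNorm_heightOneSpectrum_le
    (R := 𝓞 K) ⌊C⌋₊).subset ?_
  intro v hv
  have hv' : nv v ≤ C := hv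
  show v.asIdeal.absNorm ≤ ⌊C⌋₊
  exact Nat.le_floor hv'

lemma exW_ord_le (v : HeightOneSpectrum (𝓞 K)) {x : K} (B : ℝ) (hB : 0 < B)
    (h : B⁻¹ ≤ fa v x) : x ≠ 0 ∧ (ordv v x).toNat ≤ ⌈B⌉₊ := by
  have hx : x ≠ 0 := by
    rintro rfl
    rw [Pool.Agent.Lib.MP_4d5ce1_nt.fa_zero] at h
    have := inv_pos.mpr hB
    linarith
  refine ⟨hx, ?_⟩
  rw [Pool.Agent.Lib.MP_4d5ce1_nt.fa_eq v hx] at h
  by_cases h0 : ordv v x ≤ 0
  · have : (ordv v x).toNat = 0 := Int.toNat_of_nonpos h0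
    omega
  · obtain ⟨n, hn⟩ : ∃ n : ℕ, ordv v x = n := ⟨(ordv v x).toNat, by omega⟩
    rw [hn] at h ⊢
    rw [zpow_neg, zpow_natCast] at h
    have h2 : nv v ^ n ≤ B := by
      have hp : 0 < nv v ^ n := pow_pos (by linarith [Pool.Agent.Lib.MP_4d5ce1_nt.two_le_nv v]) _
      exact (inv_le_inv₀ hB hp).mp h
    have h3 : (n : ℝ) ≤ nv v ^ n := by
      have h4 : ((2:ℝ)) ^ n ≤ nv v ^ n :=
        pow_le_pow_left₀ (by norm_num) (Pool.Agent.Lib.MP_4d5ce1_nt.two_le_nv v) _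
      have h5 : (n : ℝ) ≤ 2 ^ n := by exact_mod_cast (Nat.lt_two_pow_self (n := n)).le
      linarith
    have h6 : (n : ℝ) ≤ (⌈B⌉₊ : ℝ) := (h3.trans h2).trans (Nat.le_ceil B)
    have h7 : n ≤ ⌈B⌉₊ := by exact_mod_cast h6
    simpa using h7

end

theorem exists_W (K : Type*) [Field K] [NumberField K] (q : ℕ) (F : Finset (Fin q))
    (hF : 2 ≤ Fᶜ.card) (α : Fin q → Fin 2 → K)
    (hα : ∀ l ∈ Fᶜ, ∀ l' ∈ Fᶜ, l ≠ l' → wd (α l) (α l') ≠ 0) (C₀ : ℝ) (hC₀ : 1 ≤ C₀) :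
    ∃ bad₀ : Finset (HeightOneSpectrum (𝓞 K)), ∀ bad, bad₀ ⊆ bad → ∃ c : ℝ, 0 ≤ c ∧
      ∀ (κ : HeightOneSpectrum (𝓞 K) →₀ (Fin q → ℕ)) (k : InfinitePlace K → Fin q → ℕ)
        (u : Fin 2 → K), Bal C₀ u → (∀ v ∈ gsupp bad κ, Useful (κ v)) →
        Sel F (gsupp bad κ) lnv (fun v => κ v) →
        ((∀ l ∈ Fᶜ, lf (α l) u ≠ 0) → 2 * ell Fᶜ α u κ k < ind Fᶜ κ k →
          ∃ W ⊆ κ.support, (∀ v ∈ κ.support, v ∉ W → v ∉ bad ∧
              ∃ l ∈ Fᶜ, 0 < ordv v (lf (α l) u)) ∧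
            2 * logHeight u - c ≤ ∑ v ∈ W, ((Fᶜ.sup (gp α u κ v) : ℕ) : ℝ) * lnv v +
              ∑ w, ((Fᶜ.sup (gi α u k w) : ℕ) : ℝ) ∧
            ∑ v ∈ W, lnv v ≤ phi F κ k + ell Fᶜ α u κ k + c) ∧
        ((∃ l ∈ Fᶜ, lf (α l) u = 0) →
          ∑ v ∈ κ.support, lnv v ≤ phi F κ k + ell Fᶜ α u κ k + c) := by
  classical
  obtain ⟨bad1, A, hA, hpair⟩ := exW_pairs q Fᶜ α hα
  refine ⟨bad1 ∪ (exW_small (K := K) C₀).toFinset, ?_⟩
  intro bad hbad
  have hb1 : ∀ v, v ∉ bad → v ∉ bad1 := fun v hv h => hv (hbad (Finset.mem_union_left _ h))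
  have hb2 : ∀ v, v ∉ bad → C₀ < nv v := by
    intro v hv
    by_contra hcon
    push Not at hcon
    exact hv (hbad (Finset.mem_union_right _ ((Set.Finite.mem_toFinset _).mpr hcon)))
  have hAC : 0 < A * C₀ := by positivity
  have hAC1 : 1 ≤ A * C₀ := by nlinarith
  set N : ℕ := ⌈A * C₀⌉₊ + ⌊2 * Real.log (A * C₀)⌋₊ with hN
  -- local analysis
  have hgood : ∀ (κ : HeightOneSpectrum (𝓞 K) →₀ (Fin q → ℕ)) (u : Fin 2 → K), Bal C₀ u →
      ∀ v ∉ bad, ∀ l ∈ Fᶜ, ∀ l' ∈ Fᶜ, l ≠ l' →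
        (lf (α l) u ≠ 0 ∧ gp α u κ v l = 0) ∨ (lf (α l') u ≠ 0 ∧ gp α u κ v l' = 0) := by
    intro κ u hu v hv l hl l' hl' hne
    obtain ⟨i, hi⟩ := hu.cont v
    have hCpos : 0 < C₀ := by linarith
    have hone : 1 ≤ fa v (u i) := by
      have hui : u i ≠ 0 := by
        intro h0
        rw [h0, Pool.Agent.Lib.MP_4d5ce1_nt.fa_zero] at hi
        have := inv_pos.mpr hCpos
        linarith
      have h1 := (Pool.Agent.Lib.MP_4d5ce1_nt.fa_le_one_iff v hui).mp (hu.int v i)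
      by_contra hlt
      push Not at hlt
      have h2 : ordv v (u i) ≠ 0 := by
        intro h3
        rw [(Pool.Agent.Lib.MP_4d5ce1_nt.fa_eq_one_iff v hui).mpr h3] at hlt
        exact lt_irrefl _ hlt
      have h4 : fa v (u i) ≤ (nv v)⁻¹ := by
        rw [Pool.Agent.Lib.MP_4d5ce1_nt.fa_eq v hui]
        have : nv v ^ (-ordv v (u i)) ≤ nv v ^ (-1 : ℤ) :=
          zpow_le_zpow_right₀ (by linarith [Pool.Agent.Lib.MP_4d5ce1_nt.two_le_nv v]) (by omega)
        simpa using this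
      have h5 : (nv v)⁻¹ < C₀⁻¹ := by
        have hp : 0 < nv v := by linarith [Pool.Agent.Lib.MP_4d5ce1_nt.two_le_nv v]
        exact (inv_lt_inv₀ hp hCpos).mpr (hb2 v hv)
      linarith
    have haux : ∀ m, 1 ≤ fa v (lf (α m) u) → lf (α m) u ≠ 0 ∧ gp α u κ v m = 0 := by
      intro m hm
      have hne0 : lf (α m) u ≠ 0 := by
        intro h0
        rw [h0, Pool.Agent.Lib.MP_4d5ce1_nt.fa_zero] at hm
        linarith
      refine ⟨hne0, ?_⟩
      unfold gp
      rw [if_neg hne0]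
      have : ordv v (lf (α m) u) ≤ 0 := by
        by_contra hpos
        push Not at hpos
        have h1 : fa v (lf (α m) u) ≤ 1 :=
          (Pool.Agent.Lib.MP_4d5ce1_nt.fa_le_one_iff v hne0).mpr hpos.le
        have h2 : fa v (lf (α m) u) = 1 := le_antisymm h1 hm
        have h3 := (Pool.Agent.Lib.MP_4d5ce1_nt.fa_eq_one_iff v hne0).mp h2
        omega
      rw [Int.toNat_of_nonpos this]
      simp
    rcases (hpair l hl l' hl' hne).1 v (hb1 v hv) u i with h | h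
    · exact Or.inl (haux l (hone.trans h))
    · exact Or.inr (haux l' (hone.trans h))
  have hbadp : ∀ (κ : HeightOneSpectrum (𝓞 K) →₀ (Fin q → ℕ)) (u : Fin 2 → K), Bal C₀ u →
      ∀ v, ∀ l ∈ Fᶜ, ∀ l' ∈ Fᶜ, l ≠ l' → gp α u κ v l ≤ N ∨ gp α u κ v l' ≤ N := by
    intro κ u hu v l hl l' hl' hne
    obtain ⟨i, hi⟩ := hu.cont v
    have haux : ∀ m, fa v (u i) ≤ A * fa v (lf (α m) u) → gp α u κ v m ≤ N := by
      intro m hm
      have h1 : (A * C₀)⁻¹ ≤ fa v (lf (α m) u) := by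
        rw [mul_inv]
        have hApos : 0 < A := by linarith
        rw [inv_mul_le_iff₀ hApos]
        exact hi.trans hm
      obtain ⟨h2, h3⟩ := exW_ord_le v (A * C₀) hAC h1
      unfold gp
      rw [if_neg h2]
      exact (min_le_right _ _).trans (h3.trans (Nat.le_add_right _ _))
    rcases (hpair l hl l' hl' hne).2.1 v u i with h | h
    · exact Or.inl (haux l h)
    · exact Or.inr (haux l' h)
  have hinf : ∀ (k : InfinitePlace K → Fin q → ℕ) (u : Fin 2 → K), Bal C₀ u →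
      ∀ w, ∀ l ∈ Fᶜ, ∀ l' ∈ Fᶜ, l ≠ l' → gi α u k w l ≤ N ∨ gi α u k w l' ≤ N := by
    intro k u hu w l hl l' hl' hne
    obtain ⟨i, hi⟩ := hu.low w
    have haux : ∀ m, w (u i) ≤ A * w (lf (α m) u) → gi α u k w m ≤ N := by
      intro m hm
      have hApos : 0 < A := by linarith
      have hCpos : 0 < C₀ := by linarith
      have hexp : 0 < Real.exp (logHeight u / dg K) := Real.exp_pos _
      have h1 : (A * C₀)⁻¹ * Real.exp (logHeight u / dg K) ≤ w (lf (α m) u) := by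
        rw [mul_inv, mul_assoc, inv_mul_le_iff₀ hApos]
        exact hi.trans hm
      have hpos : 0 < w (lf (α m) u) := lt_of_lt_of_le (by positivity) h1
      have hne0 : lf (α m) u ≠ 0 := by
        intro h0
        rw [h0] at hpos
        simp at hpos
      have h2 : logHeight u / dg K - Real.log (w (lf (α m) u)) ≤ Real.log (A * C₀) := by
        have h3 := Real.log_le_log (by positivity) h1
        rw [Real.log_mul (by positivity) hexp.ne', Real.log_exp, Real.log_inv] at h3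
        linarith
      unfold gi
      rw [if_neg hne0]
      refine (min_le_right _ _).trans ((Nat.floor_le_floor ?_).trans (Nat.le_add_left _ _))
      have hlog : 0 ≤ Real.log (A * C₀) := Real.log_nonneg hAC1
      have hm2 : (w.mult : ℝ) ≤ 2 := by
        unfold InfinitePlace.mult
        split_ifs <;> norm_num
      have hm0 : (0:ℝ) ≤ w.mult := by positivity
      calc (w.mult : ℝ) * (logHeight u / dg K - Real.log (w (lf (α m) u)))
          ≤ (w.mult : ℝ) * Real.log (A * C₀) := mul_le_mul_of_nonneg_left h2 hm0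
        _ ≤ 2 * Real.log (A * C₀) := mul_le_mul_of_nonneg_right hm2 hlog
    rcases (hpair l hl l' hl' hne).2.2 w u i with h | h
    · exact Or.inl (haux l h)
    · exact Or.inr (haux l' h)
  -- constants
  have hSnn : 0 ≤ ∑ v ∈ bad, lnv (K := K) v := Finset.sum_nonneg fun v _ => (lnv_pos v).le
  have hNn : (0:ℝ) ≤ N := Nat.cast_nonneg _
  have hWn : (0:ℝ) ≤ (Fintype.card (InfinitePlace K) : ℝ) := Nat.cast_nonneg _
  refine ⟨(N : ℝ) * (∑ v ∈ bad, lnv v + Fintype.card (InfinitePlace K)) + ∑ v ∈ bad, lnv v,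
    by positivity, ?_⟩
  intro κ k u hu huse hsel
  have hh : 0 ≤ logHeight u := logHeight_nonneg u
  -- splitting of sums over the support
  have hsplit : ∀ f : HeightOneSpectrum (𝓞 K) → ℝ, ∑ v ∈ κ.support, f v =
      ∑ v ∈ gsupp bad κ, f v + ∑ v ∈ κ.support.filter (fun v => v ∈ bad), f v := by
    intro f
    unfold gsupp
    rw [add_comm]
    exact (Finset.sum_filter_add_sum_filter_not _ _ _).symm
  have hbsub : κ.support.filter (fun v => v ∈ bad) ⊆ bad := fun v hv =>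
    (Finset.mem_filter.mp hv).2
  have hbsum : ∑ v ∈ κ.support.filter (fun v => v ∈ bad), lnv v ≤ ∑ v ∈ bad, lnv v :=
    Finset.sum_le_sum_of_subset_of_nonneg hbsub fun v _ _ => (lnv_pos v).le
  have hgle : ∀ v, ∀ l, gp α u κ v l ≤ κ v l := by
    intro v l
    unfold gp
    split_ifs
    · exact le_rfl
    · exact min_le_left _ _
  have hTgood : ∀ v ∈ gsupp bad κ, v ∉ bad := fun v hv => (Finset.mem_filter.mp hv).2
  have hTsub : gsupp bad κ ⊆ κ.support := Finset.filter_subset _ _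
  -- the common size estimate
  have hsize : ∑ v ∈ gsupp bad κ, (((∑ l ∈ F, κ v l : ℕ) : ℝ) +
      ((Fᶜ.sup (fun l => κ v l - gp α u κ v l) : ℕ) : ℝ)) * lnv v + logHeight u ≤
      phi F κ k + ell Fᶜ α u κ k := by
    unfold phi ell jp
    have h1 : ∑ v ∈ gsupp bad κ, (((∑ l ∈ F, κ v l : ℕ) : ℝ) +
        ((Fᶜ.sup (fun l => κ v l - gp α u κ v l) : ℕ) : ℝ)) * lnv v ≤
        ∑ v ∈ κ.support, (((∑ l ∈ F, κ v l : ℕ) : ℝ) +
        ((Fᶜ.sup (fun l => κ v l - gp α u κ v l) : ℕ) : ℝ)) * lnv v :=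
      Finset.sum_le_sum_of_subset_of_nonneg hTsub fun v _ _ => by
        have := lnv_pos v
        positivity
    have h2 : ∑ v ∈ κ.support, (((∑ l ∈ F, κ v l : ℕ) : ℝ) +
        ((Fᶜ.sup (fun l => κ v l - gp α u κ v l) : ℕ) : ℝ)) * lnv v =
        ∑ v ∈ κ.support, ((∑ l ∈ F, κ v l : ℕ) : ℝ) * lnv v +
        ∑ v ∈ κ.support, ((Fᶜ.sup (fun l => κ v l - gp α u κ v l) : ℕ) : ℝ) * lnv v := by
      rw [← Finset.sum_add_distrib]
      exact Finset.sum_congr rfl fun v _ => by ring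
    have h3 : 0 ≤ ∑ w : InfinitePlace K, ((∑ g ∈ F, k w g : ℕ) : ℝ) :=
      Finset.sum_nonneg fun _ _ => Nat.cast_nonneg _
    have h4 : 0 ≤ ∑ w : InfinitePlace K, (ji Fᶜ α u k w : ℝ) :=
      Finset.sum_nonneg fun _ _ => Nat.cast_nonneg _
    linarith
  constructor
  · intro hne hlt
    -- the bound for the index
    have hfin : ∑ v ∈ κ.support, (tt (κ v) Fᶜ : ℝ) * lnv v ≤
        ∑ v ∈ κ.support, ((Fᶜ.sup (gp α u κ v) : ℕ) : ℝ) * lnv v +
        2 * ∑ v ∈ κ.support, (jp Fᶜ α u κ v : ℝ) * lnv v + N * ∑ v ∈ bad, lnv v := by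
      rw [hsplit (fun v => (tt (κ v) Fᶜ : ℝ) * lnv v),
        hsplit (fun v => ((Fᶜ.sup (gp α u κ v) : ℕ) : ℝ) * lnv v),
        hsplit (fun v => (jp Fᶜ α u κ v : ℝ) * lnv v)]
      have h1 : ∑ v ∈ gsupp bad κ, (tt (κ v) Fᶜ : ℝ) * lnv v ≤
          ∑ v ∈ gsupp bad κ, ((Fᶜ.sup (gp α u κ v) : ℕ) : ℝ) * lnv v +
          2 * ∑ v ∈ gsupp bad κ, (jp Fᶜ α u κ v : ℝ) * lnv v := by
        rw [Finset.mul_sum, ← Finset.sum_add_distrib]
        refine Finset.sum_le_sum fun v hv => ?_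
        have h2 := exW_tt_le Fᶜ (κ v) (gp α u κ v) 0 (fun l hl l' hl' hll => by
          rcases hgood κ u hu v (hTgood v hv) l hl l' hl' hll with h | h
          · exact Or.inl h.2.le
          · exact Or.inr h.2.le)
        have h3 : (tt (κ v) Fᶜ : ℝ) ≤ ((Fᶜ.sup (gp α u κ v) : ℕ) : ℝ) +
            2 * (jp Fᶜ α u κ v : ℝ) := by
          unfold jp
          exact_mod_cast h2
        have h4 := lnv_pos v
        nlinarith
      have h5 : ∑ v ∈ κ.support.filter (fun v => v ∈ bad), (tt (κ v) Fᶜ : ℝ) * lnv v ≤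
          ∑ v ∈ κ.support.filter (fun v => v ∈ bad),
            ((Fᶜ.sup (gp α u κ v) : ℕ) : ℝ) * lnv v +
          2 * ∑ v ∈ κ.support.filter (fun v => v ∈ bad), (jp Fᶜ α u κ v : ℝ) * lnv v +
          N * ∑ v ∈ κ.support.filter (fun v => v ∈ bad), lnv v := by
        rw [Finset.mul_sum, Finset.mul_sum, ← Finset.sum_add_distrib, ← Finset.sum_add_distrib]
        refine Finset.sum_le_sum fun v hv => ?_
        have h2 := exW_tt_le Fᶜ (κ v) (gp α u κ v) N (hbadp κ u hu v)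
        have h3 : (tt (κ v) Fᶜ : ℝ) ≤ ((Fᶜ.sup (gp α u κ v) : ℕ) : ℝ) +
            2 * (jp Fᶜ α u κ v : ℝ) + N := by
          unfold jp
          exact_mod_cast h2
        have h4 := lnv_pos v
        nlinarith
      have h6 : (N : ℝ) * ∑ v ∈ κ.support.filter (fun v => v ∈ bad), lnv v ≤
          N * ∑ v ∈ bad, lnv v := mul_le_mul_of_nonneg_left hbsum hNn
      linarith
    have hinfs : ∑ w, (tt (k w) Fᶜ : ℝ) ≤ ∑ w, ((Fᶜ.sup (gi α u k w) : ℕ) : ℝ) +
        2 * ∑ w, (ji Fᶜ α u k w : ℝ) + N * Fintype.card (InfinitePlace K) := by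
      have : (N : ℝ) * Fintype.card (InfinitePlace K) = ∑ _w : InfinitePlace K, (N : ℝ) := by
        rw [Finset.sum_const, Finset.card_univ, nsmul_eq_mul, mul_comm]
      rw [this, Finset.mul_sum, ← Finset.sum_add_distrib, ← Finset.sum_add_distrib]
      refine Finset.sum_le_sum fun w _ => ?_
      have h2 := exW_tt_le Fᶜ (k w) (gi α u k w) N (hinf k u hu w)
      unfold ji
      exact_mod_cast h2
    have htot : 2 * logHeight u - N * (∑ v ∈ bad, lnv v + Fintype.card (InfinitePlace K)) ≤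
        ∑ v ∈ κ.support, ((Fᶜ.sup (gp α u κ v) : ℕ) : ℝ) * lnv v +
          ∑ w, ((Fᶜ.sup (gi α u k w) : ℕ) : ℝ) := by
      unfold ell ind at hlt
      nlinarith
    rw [hsplit (fun v => ((Fᶜ.sup (gp α u κ v) : ℕ) : ℝ) * lnv v)] at htot
    have hnn1 : 0 ≤ ∑ v ∈ κ.support.filter (fun v => v ∈ bad),
        ((Fᶜ.sup (gp α u κ v) : ℕ) : ℝ) * lnv v :=
      Finset.sum_nonneg fun v _ => mul_nonneg (Nat.cast_nonneg _) (lnv_pos v).le
    have hnn2 : 0 ≤ ∑ w, ((Fᶜ.sup (gi α u k w) : ℕ) : ℝ) :=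
      Finset.sum_nonneg fun w _ => Nat.cast_nonneg _
    have hnn3 : 0 ≤ (N : ℝ) * (∑ v ∈ bad, lnv v + Fintype.card (InfinitePlace K)) := by
      positivity
    obtain ⟨W₀, hW₀, hW1, hW2, hW3⟩ := mid_lemma F (gsupp bad κ) lnv (fun v _ => lnv_pos v)
      (fun v => κ v) huse hsel (gp α u κ) (fun v _ l _ => hgle v l)
      (fun v hv l hl l' hl' hll => by
        rcases hgood κ u hu v (hTgood v hv) l hl l' hl' hll with h | h
        · exact Or.inl h.2
        · exact Or.inr h.2)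
      (logHeight u)
      (2 * logHeight u - N * (∑ v ∈ bad, lnv v + Fintype.card (InfinitePlace K)) -
        ∑ v ∈ κ.support.filter (fun v => v ∈ bad), ((Fᶜ.sup (gp α u κ v) : ℕ) : ℝ) * lnv v -
        ∑ w, ((Fᶜ.sup (gi α u k w) : ℕ) : ℝ)) hh (by linarith) (by linarith)
    have hdisj : Disjoint W₀ (κ.support.filter (fun v => v ∈ bad)) := by
      rw [Finset.disjoint_left]
      intro v hv hv'
      exact hTgood v (hW₀ hv) (Finset.mem_filter.mp hv').2
    refine ⟨W₀ ∪ κ.support.filter (fun v => v ∈ bad),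
      Finset.union_subset (hW₀.trans hTsub) (Finset.filter_subset _ _), ?_, ?_, ?_⟩
    · intro v hv hvW
      rw [Finset.mem_union, not_or] at hvW
      have hvb : v ∉ bad := fun h => hvW.2 (Finset.mem_filter.mpr ⟨hv, h⟩)
      refine ⟨hvb, ?_⟩
      have hvT : v ∈ gsupp bad κ := Finset.mem_filter.mpr ⟨hv, hvb⟩
      obtain ⟨l, hl, hgl⟩ := hW1 v (Finset.mem_sdiff.mpr ⟨hvT, hvW.1⟩)
      refine ⟨l, hl, ?_⟩
      unfold gp at hgl
      rw [if_neg (hne l hl)] at hgl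
      by_contra hcon
      push Not at hcon
      rw [Int.toNat_of_nonpos hcon] at hgl
      simp at hgl
    · rw [Finset.sum_union hdisj]
      linarith
    · rw [Finset.sum_union hdisj]
      linarith
  · rintro ⟨l₀, hl₀, h0⟩
    have hsp := special_lemma F (gsupp bad κ) lnv (fun v _ => lnv_pos v)
      (fun v => κ v) huse hsel (gp α u κ) l₀ hl₀ (fun v _ l _ => hgle v l)
      (fun v hv l hl hll => by
        rcases hgood κ u hu v (hTgood v hv) l hl l₀ hl₀ hll with h | h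
        · exact h.2
        · exact absurd h0 h.1)
    rw [hsplit (fun v => lnv v)]
    have hnn3 : 0 ≤ (N : ℝ) * (∑ v ∈ bad, lnv v + Fintype.card (InfinitePlace K)) := by
      positivity
    linarith

end Pool.Agent.Lib.MP_44a246_nt.HP
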