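import Pool.Agent.Lib.MP_44a246_nt.HP.Dirs
import Pool.Agent.Lib.MP_44a246_nt.HP.Codes
import Pool.Agent.Lib.MP_44a246_nt.HP.ExistsW

set_option autoImplicit false

open NumberField IsDedekindDomain Height
open Pool.Agent.Lib.MP_4d5ce1_nt (ordv fa nv)

namespace Pool.Agent.Lib.MP_44a246_nt.HP

/-! ## HP-12 -/

section aux

variable {K : Type*} [Field K] [NumberField K]

private lemma ms_gp_le {q : ℕ} (α : Fin q → Fin 2 → K) (u : Fin 2 → K)
    (κ : HeightOneSpectrum (𝓞 K) →₀ (Fin q → ℕ)) (v : HeightOneSpectrum (𝓞 K)) (l : Fin q) :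
    gp α u κ v l ≤ κ v l := by
  unfold gp
  split_ifs
  · exact le_rfl
  · exact min_le_left _ _

private lemma ms_gi_le {q : ℕ} (α : Fin q → Fin 2 → K) (u : Fin 2 → K)
    (k : InfinitePlace K → Fin q → ℕ) (w : InfinitePlace K) (l : Fin q) :
    gi α u k w l ≤ k w l := by
  unfold gi
  split_ifs
  · exact le_rfl
  · exact min_le_left _ _

private lemma ms_fa_gp {q : ℕ} (α : Fin q → Fin 2 → K) (u : Fin 2 → K)
    (κ : HeightOneSpectrum (𝓞 K) →₀ (Fin q → ℕ)) (v : HeightOneSpectrum (𝓞 K)) (l : Fin q)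
    (h : gp α u κ v l ≠ 0) : fa v (lf (α l) u) ≤ (nv v ^ (gp α u κ v l))⁻¹ := by
  have hpos := Pool.Agent.Lib.MP_4d5ce1_nt.nv_pos v
  by_cases h0 : lf (α l) u = 0
  · rw [h0, Pool.Agent.Lib.MP_4d5ce1_nt.fa_zero]
    positivity
  · have h1 : gp α u κ v l = min (κ v l) (ordv v (lf (α l) u)).toNat := by
      unfold gp
      rw [if_neg h0]
    have hle : (gp α u κ v l : ℤ) ≤ ordv v (lf (α l) u) := by omega
    rw [Pool.Agent.Lib.MP_4d5ce1_nt.fa_eq v h0, zpow_neg]
    apply inv_anti₀ (pow_pos hpos _)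
    rw [← zpow_natCast]
    exact zpow_le_zpow_right₀ (Pool.Agent.Lib.MP_4d5ce1_nt.one_lt_nv v).le hle

private lemma ms_up {q : ℕ} (α : Fin q → Fin 2 → K) (C₀ : ℝ) (hC₀ : 1 ≤ C₀) :
    ∃ B : ℝ, 1 ≤ B ∧ ∀ u : Fin 2 → K, Bal C₀ u → ∀ (w : InfinitePlace K) (l : Fin q),
      w (lf (α l) u) ≤ B * Real.exp (logHeight u / dg K) := by
  have hnn : ∀ (w : InfinitePlace K) (l : Fin q) (i : Fin 2), 0 ≤ w (α l i) * C₀ := fun w l i =>
    mul_nonneg (apply_nonneg w _) (by linarith)
  have hnn1 : ∀ (w : InfinitePlace K) (l : Fin q), 0 ≤ ∑ i, w (α l i) * C₀ := fun w l =>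
    Finset.sum_nonneg fun i _ => hnn w l i
  have hnn2 : ∀ (w : InfinitePlace K), 0 ≤ ∑ l, ∑ i, w (α l i) * C₀ := fun w =>
    Finset.sum_nonneg fun i _ => hnn1 w i
  refine ⟨1 + ∑ w : InfinitePlace K, ∑ l, ∑ i, w (α l i) * C₀, ?_, ?_⟩
  · have : 0 ≤ ∑ w : InfinitePlace K, ∑ l, ∑ i, w (α l i) * C₀ :=
      Finset.sum_nonneg fun w _ => hnn2 w
    linarith
  · intro u hu w l
    have hE : 0 < Real.exp (logHeight u / dg K) := Real.exp_pos _
    have h1 : w (lf (α l) u) ≤ ∑ i, w (α l i * u i) := by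
      unfold lf
      rw [Fin.sum_univ_two, Fin.sum_univ_two]
      exact w.1.add_le _ _
    have h2 : ∑ i, w (α l i * u i) ≤ (∑ i, w (α l i) * C₀) * Real.exp (logHeight u / dg K) := by
      rw [Finset.sum_mul]
      refine Finset.sum_le_sum fun i _ => ?_
      rw [map_mul, mul_assoc]
      exact mul_le_mul_of_nonneg_left (hu.up w i) (apply_nonneg w _)
    have h3 : (∑ i, w (α l i) * C₀) ≤ ∑ w : InfinitePlace K, ∑ l, ∑ i, w (α l i) * C₀ :=
      (Finset.single_le_sum (f := fun l => ∑ i, w (α l i) * C₀) (fun l _ => hnn1 w l)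
        (Finset.mem_univ l)).trans
        (Finset.single_le_sum (f := fun w : InfinitePlace K => ∑ l, ∑ i, w (α l i) * C₀)
          (fun w _ => hnn2 w) (Finset.mem_univ w))
    calc w (lf (α l) u) ≤ (∑ i, w (α l i) * C₀) * Real.exp (logHeight u / dg K) := h1.trans h2
      _ ≤ _ := mul_le_mul_of_nonneg_right (by linarith) hE.le

private lemma ms_inf_gi {q : ℕ} (α : Fin q → Fin 2 → K) (u : Fin 2 → K)
    (k : InfinitePlace K → Fin q → ℕ) (w : InfinitePlace K) (l : Fin q) (B : ℝ) (hB : 1 ≤ B)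
    (hu : w (lf (α l) u) ≤ B * Real.exp (logHeight u / dg K)) :
    w (lf (α l) u) ≤ B * Real.exp (logHeight u / dg K - (gi α u k w l : ℝ) / (w.mult : ℝ)) := by
  have hm : (0 : ℝ) < w.mult := by exact_mod_cast InfinitePlace.mult_pos
  by_cases h0 : lf (α l) u = 0
  · rw [h0, map_zero]
    have := Real.exp_pos (logHeight u / dg K - (gi α u k w l : ℝ) / (w.mult : ℝ))
    positivity
  · have h1 : gi α u k w l = min (k w l)
        ⌊(w.mult : ℝ) * (logHeight u / dg K - Real.log (w (lf (α l) u)))⌋₊ := by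
      unfold gi
      rw [if_neg h0]
    have hw : 0 < w (lf (α l) u) := InfinitePlace.pos_iff.mpr h0
    rcases le_or_gt ((w.mult : ℝ) * (logHeight u / dg K - Real.log (w (lf (α l) u)))) 0 with h2 | h2
    · have h3 : gi α u k w l = 0 := by
        rw [h1, Nat.floor_of_nonpos h2]
        exact min_eq_right (Nat.zero_le _)
      rw [h3]
      simpa using hu
    · have h3 : (gi α u k w l : ℝ) ≤
          (w.mult : ℝ) * (logHeight u / dg K - Real.log (w (lf (α l) u))) := by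
        refine le_trans ?_ (Nat.floor_le h2.le)
        rw [h1]
        exact_mod_cast min_le_right _ _
      have h4 : (gi α u k w l : ℝ) / (w.mult : ℝ) ≤
          logHeight u / dg K - Real.log (w (lf (α l) u)) := by
        rw [div_le_iff₀ hm]
        linarith [h3]
      have h5 : w (lf (α l) u) ≤
          Real.exp (logHeight u / dg K - (gi α u k w l : ℝ) / (w.mult : ℝ)) := by
        rw [← Real.log_le_iff_le_exp hw]
        linarith
      refine h5.trans ?_
      have := Real.exp_pos (logHeight u / dg K - (gi α u k w l : ℝ) / (w.mult : ℝ))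
      nlinarith

private lemma ms_fin_pos (x : K) : {v : HeightOneSpectrum (𝓞 K) | 0 < ordv v x}.Finite := by
  by_cases hx : x = 0
  · subst hx
    have : {v : HeightOneSpectrum (𝓞 K) | 0 < ordv v (0 : K)} = ∅ := by
      ext v
      simp [ordv]
    rw [this]
    exact Set.finite_empty
  · refine (Pool.Agent.Lib.MP_4d5ce1_nt.finite_ordv_ne_zero hx).subset ?_
    intro v hv
    simp only [Set.mem_ofPred_eq] at hv ⊢
    omega

private lemma ms_fa_int (v : HeightOneSpectrum (𝓞 K)) (x : 𝓞 K) :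
    fa v (algebraMap (𝓞 K) K x) ≤ 1 := by
  by_cases hx : algebraMap (𝓞 K) K x = 0
  · rw [hx, Pool.Agent.Lib.MP_4d5ce1_nt.fa_zero]
    exact zero_le_one
  · rw [Pool.Agent.Lib.MP_4d5ce1_nt.fa_le_one_iff v hx]
    have h1 := v.valuation_le_one (K := K) x
    have h2 : v.valuation K (algebraMap (𝓞 K) K x) ≠ 0 := (Valuation.ne_zero_iff _).mpr hx
    unfold ordv
    have h3 : WithZero.log (v.valuation K (algebraMap (𝓞 K) K x)) ≤ 0 := by
      have := WithZero.log_le_log h2 one_ne_zero |>.mpr h1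
      simpa using this
    omega

private lemma ms_primes {q : ℕ} (α : Fin q → Fin 2 → K) (C₀ : ℝ) (hC₀ : 1 ≤ C₀) :
    ∃ c : ℝ, 0 ≤ c ∧ ∀ u : Fin 2 → K, Bal C₀ u → ∀ l : Fin q, lf (α l) u ≠ 0 →
      ∀ U : Finset (HeightOneSpectrum (𝓞 K)), (∀ v ∈ U, 0 < ordv v (lf (α l) u)) →
      ∑ v ∈ U, lnv v ≤ logHeight u + c := by
  obtain ⟨B, hB, hup⟩ := ms_up α C₀ hC₀
  obtain ⟨N, hN⟩ := IsLocalization.exist_integer_multiples (nonZeroDivisors (𝓞 K))
    (Finset.univ : Finset (Fin q × Fin 2)) (fun p => α p.1 p.2)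
  set n : K := algebraMap (𝓞 K) K (N : 𝓞 K) with hn
  have hn0 : n ≠ 0 := by
    rw [hn]
    simp
  have hint : ∀ v : HeightOneSpectrum (𝓞 K), ∀ l i, fa v (n * α l i) ≤ 1 := by
    intro v l i
    obtain ⟨y, hy⟩ := hN (l, i) (Finset.mem_univ _)
    have : n * α l i = algebraMap (𝓞 K) K y := by
      rw [hy, hn, Algebra.smul_def]
    rw [this]
    exact ms_fa_int v y
  have hdg : 0 < dg K := by
    unfold dg
    exact_mod_cast Module.finrank_pos
  have hlogB : 0 ≤ Real.log B := Real.log_nonneg hB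
  refine ⟨|∑ w : InfinitePlace K, (w.mult : ℝ) * Real.log (w n)| + dg K * Real.log B,
    by positivity, ?_⟩
  intro u hu l hl U hU
  have hx0 : n * lf (α l) u ≠ 0 := mul_ne_zero hn0 hl
  have hxint : ∀ v : HeightOneSpectrum (𝓞 K), 0 ≤ ordv v (n * lf (α l) u) := by
    intro v
    rw [← Pool.Agent.Lib.MP_4d5ce1_nt.fa_le_one_iff v hx0]
    unfold lf
    rw [Finset.mul_sum]
    refine Pool.Agent.Lib.MP_4d5ce1_nt.fa_sum_le v _ _ 1 zero_le_one fun i _ => ?_
    rw [← mul_assoc, Pool.Agent.Lib.MP_4d5ce1_nt.fa_mul]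
    exact mul_le_one₀ (hint v l i) (Pool.Agent.Lib.MP_4d5ce1_nt.fa_nonneg v _) (hu.int v i)
  have hnint : ∀ v : HeightOneSpectrum (𝓞 K), 0 ≤ ordv v n := by
    intro v
    rw [← Pool.Agent.Lib.MP_4d5ce1_nt.fa_le_one_iff v hn0]
    exact ms_fa_int v _
  have hge : ∀ v ∈ U, 1 ≤ ordv v (n * lf (α l) u) := by
    intro v hv
    rw [Pool.Agent.Lib.MP_4d5ce1_nt.ordv_mul v hn0 hl]
    have := hU v hv
    have := hnint v
    omega
  have hpf := Pool.Agent.Lib.MP_4d5ce1_nt.product_formula' hx0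
  set S₀ := (Pool.Agent.Lib.MP_4d5ce1_nt.finite_ordv_ne_zero hx0).toFinset with hS₀
  have hfs : ∑ᶠ v : HeightOneSpectrum (𝓞 K),
      (ordv v (n * lf (α l) u) : ℝ) * Real.log (nv v) =
      ∑ v ∈ S₀, (ordv v (n * lf (α l) u) : ℝ) * Real.log (nv v) := by
    apply finsum_eq_sum_of_support_subset
    intro v hv
    simp only [hS₀, Set.Finite.coe_toFinset, Set.mem_ofPred_eq]
    intro h
    apply hv
    simp [h]
  have hsub : U ⊆ S₀ := by
    intro v hv
    simp only [hS₀, Set.Finite.mem_toFinset, Set.mem_ofPred_eq]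
    have := hge v hv
    omega
  have h1 : ∑ v ∈ U, lnv v ≤ ∑ v ∈ S₀, (ordv v (n * lf (α l) u) : ℝ) * Real.log (nv v) := by
    calc ∑ v ∈ U, lnv v ≤ ∑ v ∈ U, (ordv v (n * lf (α l) u) : ℝ) * Real.log (nv v) := by
          refine Finset.sum_le_sum fun v hv => ?_
          have h2 : (1 : ℝ) ≤ (ordv v (n * lf (α l) u) : ℝ) := by exact_mod_cast hge v hv
          have h3 := lnv_pos v
          unfold lnv at h3 ⊢
          nlinarith
      _ ≤ _ := by
          refine Finset.sum_le_sum_of_subset_of_nonneg hsub fun v _ _ => ?_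
          have h2 : (0 : ℝ) ≤ (ordv v (n * lf (α l) u) : ℝ) := by exact_mod_cast hxint v
          have h3 := lnv_pos v
          unfold lnv at h3
          positivity
  have h2 : ∑ w : InfinitePlace K, (w.mult : ℝ) * Real.log (w (n * lf (α l) u)) ≤
      ∑ w : InfinitePlace K, (w.mult : ℝ) * Real.log (w n) + dg K * Real.log B + logHeight u := by
    have h3 : ∀ w : InfinitePlace K, (w.mult : ℝ) * Real.log (w (n * lf (α l) u)) ≤
        (w.mult : ℝ) * Real.log (w n) + (w.mult : ℝ) * (Real.log B + logHeight u / dg K) := by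
      intro w
      have hw : 0 < w (lf (α l) u) := InfinitePlace.pos_iff.mpr hl
      have hwn : 0 < w n := InfinitePlace.pos_iff.mpr hn0
      rw [map_mul, Real.log_mul hwn.ne' hw.ne', mul_add]
      have h4 : Real.log (w (lf (α l) u)) ≤ Real.log B + logHeight u / dg K := by
        have h5 := Real.log_le_log hw (hup u hu w l)
        rwa [Real.log_mul (by positivity) (Real.exp_pos _).ne', Real.log_exp] at h5
      have hm : (0 : ℝ) ≤ w.mult := Nat.cast_nonneg _
      have := mul_le_mul_of_nonneg_left h4 hm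
      linarith
    refine (Finset.sum_le_sum fun w _ => h3 w).trans ?_
    rw [Finset.sum_add_distrib, ← Finset.sum_mul]
    have h6 : ∑ w : InfinitePlace K, (w.mult : ℝ) = dg K := by
      unfold dg
      exact_mod_cast InfinitePlace.sum_mult_eq
    rw [h6]
    have h7 : dg K * (Real.log B + logHeight u / dg K) = dg K * Real.log B + logHeight u := by
      field_simp
    rw [h7]
    linarith
  have h8 := le_abs_self (∑ w : InfinitePlace K, (w.mult : ℝ) * Real.log (w n))
  calc ∑ v ∈ U, lnv v ≤ _ := h1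
    _ = ∑ w : InfinitePlace K, (w.mult : ℝ) * Real.log (w (n * lf (α l) u)) := by
        rw [hpf, hfs]
    _ ≤ _ := h2
    _ ≤ _ := by linarith

private lemma ms_sum_biUnion_le {ι κ : Type*} [DecidableEq κ] (s : Finset ι) (t : ι → Finset κ)
    (f : κ → ℝ) (hf : ∀ x, 0 ≤ f x) :
    ∑ x ∈ s.biUnion t, f x ≤ ∑ i ∈ s, ∑ x ∈ t i, f x := by
  classical
  induction s using Finset.induction_on with
  | empty => simp
  | insert a s ha ih =>
    rw [Finset.biUnion_insert, Finset.sum_insert ha]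
    have h1 := Finset.sum_union_inter (s₁ := t a) (s₂ := s.biUnion t) (f := f)
    have h2 : 0 ≤ ∑ x ∈ t a ∩ s.biUnion t, f x := Finset.sum_nonneg fun x _ => hf x
    linarith

private lemma ms_primes' {q : ℕ} (Λ : Finset (Fin q)) (α : Fin q → Fin 2 → K) (C₀ : ℝ)
    (hC₀ : 1 ≤ C₀) :
    ∃ c : ℝ, 0 ≤ c ∧ ∀ u : Fin 2 → K, Bal C₀ u → (∀ l ∈ Λ, lf (α l) u ≠ 0) →
      ∃ U : Finset (HeightOneSpectrum (𝓞 K)),
        (∀ v, (∃ l ∈ Λ, 0 < ordv v (lf (α l) u)) → v ∈ U) ∧
        ∑ v ∈ U, lnv v ≤ q * (logHeight u + c) := by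
  classical
  obtain ⟨c, hc, h⟩ := ms_primes α C₀ hC₀
  refine ⟨c, hc, fun u hu hne => ?_⟩
  refine ⟨Λ.biUnion fun l => (ms_fin_pos (lf (α l) u)).toFinset, ?_, ?_⟩
  · rintro v ⟨l, hl, hv⟩
    simp only [Finset.mem_biUnion, Set.Finite.mem_toFinset, Set.mem_ofPred_eq]
    exact ⟨l, hl, hv⟩
  · have h1 : ∑ v ∈ Λ.biUnion (fun l => (ms_fin_pos (lf (α l) u)).toFinset), lnv v ≤
        ∑ l ∈ Λ, ∑ v ∈ (ms_fin_pos (lf (α l) u)).toFinset, lnv v :=
      ms_sum_biUnion_le _ _ _ fun v => (lnv_pos v).le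
    have h2 : ∑ l ∈ Λ, ∑ v ∈ (ms_fin_pos (lf (α l) u)).toFinset, lnv v ≤
        ∑ _l ∈ Λ, (logHeight u + c) := by
      refine Finset.sum_le_sum fun l hl => h u hu l (hne l hl) _ ?_
      intro v hv
      simpa using hv
    have h3 : ∑ _l ∈ Λ, (logHeight u + c) = Λ.card * (logHeight u + c) := by
      rw [Finset.sum_const, nsmul_eq_mul]
    have h4 : (Λ.card : ℝ) ≤ q := by
      have := Finset.card_le_univ Λ
      rw [Fintype.card_fin] at this
      exact_mod_cast this
    have h5 : 0 ≤ logHeight u + c := add_nonneg (logHeight_nonneg u) hc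
    calc _ ≤ _ := h1
      _ ≤ _ := h2
      _ = _ := h3
      _ ≤ _ := mul_le_mul_of_nonneg_right h4 h5

open Classical in
/-- The code recording the exponents `κ` and `g` on `W`. -/
private noncomputable def msOm {q : ℕ} (W : Finset (HeightOneSpectrum (𝓞 K)))
    (κ : HeightOneSpectrum (𝓞 K) →₀ (Fin q → ℕ)) (g : HeightOneSpectrum (𝓞 K) → Fin q → ℕ) :
    HeightOneSpectrum (𝓞 K) →₀ (Fin q ⊕ Fin q → ℕ) :=
  Finsupp.onFinset W (fun v => if v ∈ W then Sum.elim (κ v) (g v) else 0) (by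
    intro v hv
    by_contra h
    simp [h] at hv)

omit [NumberField K] in
private lemma msOm_mem {q : ℕ} (W : Finset (HeightOneSpectrum (𝓞 K)))
    (κ : HeightOneSpectrum (𝓞 K) →₀ (Fin q → ℕ)) (g : HeightOneSpectrum (𝓞 K) → Fin q → ℕ)
    {v : HeightOneSpectrum (𝓞 K)} (hv : v ∈ W) : msOm W κ g v = Sum.elim (κ v) (g v) := by
  unfold msOm
  rw [Finsupp.onFinset_apply, if_pos hv]

omit [NumberField K] in
private lemma msOm_support {q : ℕ} (W : Finset (HeightOneSpectrum (𝓞 K)))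
    (κ : HeightOneSpectrum (𝓞 K) →₀ (Fin q → ℕ)) (g : HeightOneSpectrum (𝓞 K) → Fin q → ℕ)
    (hW : W ⊆ κ.support) : (msOm W κ g).support = W := by
  ext v
  constructor
  · intro hv
    by_contra h
    rw [Finsupp.mem_support_iff] at hv
    apply hv
    unfold msOm
    rw [Finsupp.onFinset_apply, if_neg h]
  · intro hv
    rw [Finsupp.mem_support_iff, msOm_mem W κ g hv]
    intro h
    have h1 := hW hv
    rw [Finsupp.mem_support_iff] at h1
    apply h1
    funext l
    exact congrFun h (Sum.inl l)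

private lemma ms_siz {q : ℕ} (W : Finset (HeightOneSpectrum (𝓞 K)))
    (κ : HeightOneSpectrum (𝓞 K) →₀ (Fin q → ℕ)) (g : HeightOneSpectrum (𝓞 K) → Fin q → ℕ)
    (k g' : InfinitePlace K → Fin q → ℕ)
    (hW : W ⊆ κ.support) (hg : ∀ v l, g v l ≤ κ v l) (hg' : ∀ w l, g' w l ≤ k w l) :
    siz (msOm W κ g) (fun w => Sum.elim (k w) (g' w)) ≤ 2 * siz κ k := by
  unfold siz
  rw [msOm_support W κ g hW, mul_add]
  apply add_le_add
  · have h1 : ∑ v ∈ W, ((∑ l, msOm W κ g v l : ℕ) : ℝ) * lnv v ≤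
        ∑ v ∈ W, 2 * (((∑ l, κ v l : ℕ) : ℝ) * lnv v) := by
      refine Finset.sum_le_sum fun v hv => ?_
      rw [msOm_mem W κ g hv, Fintype.sum_sum_type]
      simp only [Sum.elim_inl, Sum.elim_inr]
      have h2 : ∑ l, g v l ≤ ∑ l, κ v l := Finset.sum_le_sum fun l _ => hg v l
      have h3 : ((∑ l, κ v l + ∑ l, g v l : ℕ) : ℝ) ≤ 2 * ((∑ l, κ v l : ℕ) : ℝ) := by
        have : (∑ l, κ v l + ∑ l, g v l : ℕ) ≤ 2 * (∑ l, κ v l : ℕ) := by omega
        exact_mod_cast this
      calc _ ≤ (2 * ((∑ l, κ v l : ℕ) : ℝ)) * lnv v :=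
            mul_le_mul_of_nonneg_right h3 (lnv_pos v).le
        _ = _ := by ring
    refine h1.trans ?_
    rw [Finset.mul_sum]
    refine Finset.sum_le_sum_of_subset_of_nonneg hW fun v _ _ => ?_
    have := (lnv_pos v).le
    positivity
  · rw [Finset.mul_sum]
    refine Finset.sum_le_sum fun w _ => ?_
    rw [Fintype.sum_sum_type]
    simp only [Sum.elim_inl, Sum.elim_inr]
    have h2 : ∑ l, g' w l ≤ ∑ l, k w l := Finset.sum_le_sum fun l _ => hg' w l
    have : (∑ l, k w l + ∑ l, g' w l : ℕ) ≤ 2 * (∑ l, k w l : ℕ) := by omega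
    exact_mod_cast this

private lemma ms_logHeight_le_ell {q : ℕ} (Λ : Finset (Fin q)) (α : Fin q → Fin 2 → K)
    (u : Fin 2 → K) (κ : HeightOneSpectrum (𝓞 K) →₀ (Fin q → ℕ))
    (k : InfinitePlace K → Fin q → ℕ) : logHeight u ≤ ell Λ α u κ k := by
  unfold ell
  have h1 : 0 ≤ ∑ v ∈ κ.support, (jp Λ α u κ v : ℝ) * lnv v :=
    Finset.sum_nonneg fun v _ => mul_nonneg (Nat.cast_nonneg _) (lnv_pos v).le
  have h2 : 0 ≤ ∑ w, (ji Λ α u k w : ℝ) := Finset.sum_nonneg fun w _ => Nat.cast_nonneg _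
  linarith

private lemma ms_siz_fin_le {q : ℕ} (κ : HeightOneSpectrum (𝓞 K) →₀ (Fin q → ℕ))
    (k : InfinitePlace K → Fin q → ℕ) :
    ∑ v ∈ κ.support, ((∑ l, κ v l : ℕ) : ℝ) * lnv v ≤ siz κ k := by
  unfold siz
  have h2 : 0 ≤ ∑ w, ((∑ l, k w l : ℕ) : ℝ) := Finset.sum_nonneg fun w _ => Nat.cast_nonneg _
  linarith

omit [NumberField K] in
private lemma ms_wd_zero (a u u' : Fin 2 → K) (b : Fin 2 → K) (hab : wd a b ≠ 0)
    (h1 : lf a u = 0) (h2 : lf a u' = 0) : wd u u' = 0 := by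
  unfold lf at h1 h2
  rw [Fin.sum_univ_two] at h1 h2
  have e0 : a 0 * wd u u' = 0 := by
    unfold wd
    linear_combination (u' 1) * h1 - (u 1) * h2
  have e1 : a 1 * wd u u' = 0 := by
    unfold wd
    linear_combination (u 0) * h2 - (u' 0) * h1
  by_contra hne
  apply hab
  unfold wd
  rw [(mul_eq_zero.mp e0).resolve_right hne, (mul_eq_zero.mp e1).resolve_right hne]
  ring

end aux

theorem mid_sum (K : Type*) [Field K] [NumberField K] (q : ℕ) (F : Finset (Fin q))
    (hF : 2 ≤ Fᶜ.card) (α : Fin q → Fin 2 → K)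
    (hα : ∀ l ∈ Fᶜ, ∀ l' ∈ Fᶜ, l ≠ l' → wd (α l) (α l') ≠ 0) (C₀ : ℝ) (hC₀ : 1 ≤ C₀) :
    ∃ bad₀ : Finset (HeightOneSpectrum (𝓞 K)), ∀ bad, bad₀ ⊆ bad → ∀ A η : ℝ, 0 ≤ A → 0 < η →
      ∃ C : ℝ, 0 < C ∧ ∀ β D₂ : ℝ, 0 ≤ β →
      ∀ 𝒟 : Finset ((HeightOneSpectrum (𝓞 K) →₀ (Fin q → ℕ)) × (InfinitePlace K → Fin q → ℕ) ×
        (Fin 2 → K)),
      (∀ p ∈ 𝒟, Bal C₀ p.2.2) →
      (∀ p ∈ 𝒟, ∀ p' ∈ 𝒟, p.2.2 ≠ p'.2.2 → wd p.2.2 p'.2.2 ≠ 0) →
      (∀ p ∈ 𝒟, KeyOK F bad A β D₂ p.1 p.2.1) →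
      (∀ p ∈ 𝒟, ell Fᶜ α p.2.2 p.1 p.2.1 ≤ A * (β + 1)) →
      (∀ p ∈ 𝒟, 2 * ell Fᶜ α p.2.2 p.1 p.2.1 < ind Fᶜ p.1 p.2.1) →
      ∑ p ∈ 𝒟, Real.exp (- phi F p.1 p.2.1 - ell Fᶜ α p.2.2 p.1 p.2.1) ≤
        C * Real.exp (η * β) := by
  classical
  obtain ⟨bad₀, hbad₀⟩ := exists_W K q F hF α hα C₀ hC₀
  refine ⟨bad₀, fun bad hbad A η hA hη => ?_⟩
  obtain ⟨c, hc, hW⟩ := hbad₀ bad hbad
  obtain ⟨B, hB, hup⟩ := ms_up α C₀ hC₀
  obtain ⟨c', hc', hpr⟩ := ms_primes' Fᶜ α C₀ hC₀
  obtain ⟨Cd, hCd, hdir⟩ := dir_count K q Fᶜ hF α hα C₀ B c hC₀ hB hc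
  obtain ⟨Cs, hCs, hsum⟩ := key_sum K (Fin q ⊕ Fin q) (2 * A) (η / 2) (by positivity)
    (by positivity)
  obtain ⟨Cs', hCs', hsum'⟩ := key_sum K (Fin q) A η hA hη
  obtain ⟨Cf, hCf, hfree⟩ := key_free K (Fin q) (q * (c' + A) + A) (η / 2) (by positivity)
    (by positivity)
  refine ⟨Real.exp c * (q * Cs') + Real.exp c * (Cd * Cf * Cs), by positivity, ?_⟩
  intro β D₂ hβ 𝒟 hBal hwd hkey hell _hind
  have hsp : ∑ p ∈ 𝒟.filter (fun p => ∃ l ∈ Fᶜ, lf (α l) p.2.2 = 0),
      Real.exp (- phi F p.1 p.2.1 - ell Fᶜ α p.2.2 p.1 p.2.1) ≤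
      Real.exp c * (q * Cs') * Real.exp (η * β) := by
    have hb : 𝒟.filter (fun p => ∃ l ∈ Fᶜ, lf (α l) p.2.2 = 0) =
        (Fᶜ).biUnion (fun l => 𝒟.filter (fun p => lf (α l) p.2.2 = 0)) := by
      ext p
      simp only [Finset.mem_filter, Finset.mem_biUnion]
      constructor
      · rintro ⟨hp, l, hl, h0⟩
        exact ⟨l, hl, hp, h0⟩
      · rintro ⟨l, hl, hp, h0⟩
        exact ⟨hp, l, hl, h0⟩
    rw [hb]
    refine (ms_sum_biUnion_le _ _ _ fun p => (Real.exp_pos _).le).trans ?_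
    have h1 : ∀ l ∈ Fᶜ, ∑ p ∈ 𝒟.filter (fun p => lf (α l) p.2.2 = 0),
        Real.exp (- phi F p.1 p.2.1 - ell Fᶜ α p.2.2 p.1 p.2.1) ≤
        Real.exp c * (Cs' * Real.exp (η * β)) := by
      intro l hl
      have h2 : ∀ p ∈ 𝒟.filter (fun p => lf (α l) p.2.2 = 0),
          Real.exp (- phi F p.1 p.2.1 - ell Fᶜ α p.2.2 p.1 p.2.1) ≤
          Real.exp c * Real.exp (- ∑ v ∈ p.1.support, lnv v) := by
        intro p hp
        obtain ⟨hpD, hp0⟩ := Finset.mem_filter.mp hp
        have h3 := (hW p.1 p.2.1 p.2.2 (hBal p hpD) (hkey p hpD).useful (hkey p hpD).sel).2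
          ⟨l, hl, hp0⟩
        rw [← Real.exp_add]
        apply Real.exp_le_exp.mpr
        linarith
      refine (Finset.sum_le_sum h2).trans ?_
      rw [← Finset.mul_sum]
      apply mul_le_mul_of_nonneg_left _ (Real.exp_pos _).le
      have hinj : Set.InjOn (fun p : (HeightOneSpectrum (𝓞 K) →₀ (Fin q → ℕ)) ×
          (InfinitePlace K → Fin q → ℕ) × (Fin 2 → K) => (p.1, p.2.1))
          (𝒟.filter (fun p => lf (α l) p.2.2 = 0)) := by
        intro p hp p' hp' hpp
        obtain ⟨hpD, hp0⟩ := Finset.mem_filter.mp hp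
        obtain ⟨hpD', hp0'⟩ := Finset.mem_filter.mp hp'
        obtain ⟨l', hl', hll⟩ := Finset.exists_mem_ne (by omega : 1 < Fᶜ.card) l
        have h4 : wd p.2.2 p'.2.2 = 0 :=
          ms_wd_zero (α l) _ _ (α l') (hα l hl l' hl' hll.symm) hp0 hp0'
        have h5 : p.2.2 = p'.2.2 := by
          by_contra hne
          exact hwd p hpD p' hpD' hne h4
        simp only [Prod.mk.injEq] at hpp
        exact Prod.ext hpp.1 (Prod.ext hpp.2 h5)
      have h6 := hsum' β hβ ((𝒟.filter (fun p => lf (α l) p.2.2 = 0)).image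
        (fun p => (p.1, p.2.1))) (by
          intro x hx
          obtain ⟨p, hp, rfl⟩ := Finset.mem_image.mp hx
          exact (hkey p (Finset.mem_filter.mp hp).1).size)
      rwa [Finset.sum_image hinj] at h6
    refine (Finset.sum_le_sum h1).trans ?_
    rw [Finset.sum_const, nsmul_eq_mul]
    have h4 : ((Fᶜ).card : ℝ) ≤ q := by
      have := Finset.card_le_univ Fᶜ
      rw [Fintype.card_fin] at this
      exact_mod_cast this
    calc ((Fᶜ).card : ℝ) * (Real.exp c * (Cs' * Real.exp (η * β)))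
        ≤ q * (Real.exp c * (Cs' * Real.exp (η * β))) :=
          mul_le_mul_of_nonneg_right h4 (by positivity)
      _ = _ := by ring
  have hns : ∑ p ∈ 𝒟.filter (fun p => ¬ ∃ l ∈ Fᶜ, lf (α l) p.2.2 = 0),
      Real.exp (- phi F p.1 p.2.1 - ell Fᶜ α p.2.2 p.1 p.2.1) ≤
      Real.exp c * (Cd * Cf * Cs) * Real.exp (η * β) := by
    set 𝒩 := 𝒟.filter (fun p => ¬ ∃ l ∈ Fᶜ, lf (α l) p.2.2 = 0) with h𝒩
    have hND : ∀ p ∈ 𝒩, p ∈ 𝒟 := fun p hp => (Finset.mem_filter.mp hp).1
    have hN0 : ∀ p ∈ 𝒩, ∀ l ∈ Fᶜ, lf (α l) p.2.2 ≠ 0 := by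
      intro p hp l hl h0
      exact (Finset.mem_filter.mp hp).2 ⟨l, hl, h0⟩
    have hex : ∀ p ∈ 𝒩, ∃ W ⊆ p.1.support, (∀ v ∈ p.1.support, v ∉ W → v ∉ bad ∧
              ∃ l ∈ Fᶜ, 0 < ordv v (lf (α l) p.2.2)) ∧
            2 * logHeight p.2.2 - c ≤ ∑ v ∈ W, ((Fᶜ.sup (gp α p.2.2 p.1 v) : ℕ) : ℝ) * lnv v +
              ∑ w, ((Fᶜ.sup (gi α p.2.2 p.2.1 w) : ℕ) : ℝ) ∧
            ∑ v ∈ W, lnv v ≤ phi F p.1 p.2.1 + ell Fᶜ α p.2.2 p.1 p.2.1 + c := fun p hp =>
      (hW p.1 p.2.1 p.2.2 (hBal p (hND p hp)) (hkey p (hND p hp)).useful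
        (hkey p (hND p hp)).sel).1 (hN0 p hp) (_hind p (hND p hp))
    choose! Wf hWf1 hWf2 hWf3 hWf4 using hex
    set Om : (HeightOneSpectrum (𝓞 K) →₀ (Fin q → ℕ)) × (InfinitePlace K → Fin q → ℕ) ×
        (Fin 2 → K) → (HeightOneSpectrum (𝓞 K) →₀ (Fin q ⊕ Fin q → ℕ)) ×
        (InfinitePlace K → Fin q ⊕ Fin q → ℕ) := fun p =>
      (msOm (Wf p) p.1 (gp α p.2.2 p.1), fun w => Sum.elim (p.2.1 w) (gi α p.2.2 p.2.1 w))
      with hOm
    have hOsupp : ∀ p ∈ 𝒩, (Om p).1.support = Wf p := fun p hp =>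
      msOm_support (Wf p) p.1 _ (hWf1 p hp)
    set G : (HeightOneSpectrum (𝓞 K) →₀ (Fin q ⊕ Fin q → ℕ)) ×
        (InfinitePlace K → Fin q ⊕ Fin q → ℕ) → ℝ := fun ω =>
      Real.exp (- ∑ v ∈ ω.1.support, lnv v) with hG
    have h1 : ∀ p ∈ 𝒩, Real.exp (- phi F p.1 p.2.1 - ell Fᶜ α p.2.2 p.1 p.2.1) ≤
        Real.exp c * G (Om p) := by
      intro p hp
      have h2 := hWf4 p hp
      rw [hG]
      simp only
      rw [hOsupp p hp, ← Real.exp_add]
      apply Real.exp_le_exp.mpr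
      linarith
    have hfib : ∀ ω ∈ 𝒩.image Om, (((𝒩.filter (fun p => Om p = ω)).card : ℕ) : ℝ) ≤
        Cd * (Cf * Real.exp (η / 2 * β)) := by
      intro ω _
      set T := 𝒩.filter (fun p => Om p = ω) with hT
      have hTN : ∀ p ∈ T, p ∈ 𝒩 := fun p hp => (Finset.mem_filter.mp hp).1
      have hTO : ∀ p ∈ T, Om p = ω := fun p hp => (Finset.mem_filter.mp hp).2
      have hTW : ∀ p ∈ T, Wf p = ω.1.support := by
        intro p hp
        rw [← hTO p hp, hOsupp p (hTN p hp)]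
      have hT1 : ∀ p ∈ T, ∀ v ∈ ω.1.support, ω.1 v = Sum.elim (p.1 v) (gp α p.2.2 p.1 v) := by
        intro p hp v hv
        rw [← hTW p hp] at hv
        rw [← hTO p hp]
        exact msOm_mem (Wf p) p.1 _ hv
      have hT2 : ∀ p ∈ T, ∀ w, ω.2 w = Sum.elim (p.2.1 w) (gi α p.2.2 p.2.1 w) := by
        intro p hp w
        rw [← hTO p hp]
      rw [Finset.card_eq_sum_card_image (fun p => p.2.2) T]
      push_cast
      have hfu : ∀ u ∈ T.image (fun p => p.2.2),
          (((T.filter (fun a => a.2.2 = u)).card : ℕ) : ℝ) ≤ Cf * Real.exp (η / 2 * β) := by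
        intro u hu
        obtain ⟨p₀, hp₀, hpu⟩ := Finset.mem_image.mp hu
        have hp₀N := hTN p₀ hp₀
        have hp₀D := hND p₀ hp₀N
        obtain ⟨U, hU1, hU2⟩ := hpr u (hpu ▸ hBal p₀ hp₀D) (hpu ▸ hN0 p₀ hp₀N)
        have hinj : Set.InjOn (fun p : (HeightOneSpectrum (𝓞 K) →₀ (Fin q → ℕ)) ×
            (InfinitePlace K → Fin q → ℕ) × (Fin 2 → K) =>
              p.1.filter (fun v => v ∉ ω.1.support)) (T.filter (fun a => a.2.2 = u)) := by
          intro p hp p' hp' hpp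
          obtain ⟨hpT, hpu⟩ := Finset.mem_filter.mp hp
          obtain ⟨hpT', hpu'⟩ := Finset.mem_filter.mp hp'
          simp only at hpp
          have e1 : p.1 = p'.1 := by
            ext v l
            by_cases hv : v ∈ ω.1.support
            · have a1 := hT1 p hpT v hv
              have a2 := hT1 p' hpT' v hv
              rw [a1] at a2
              exact congrFun a2 (Sum.inl l)
            · have a1 := DFunLike.congr_fun hpp v
              rw [Finsupp.filter_apply_pos (fun v => v ∉ ω.1.support) _ hv,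
                Finsupp.filter_apply_pos (fun v => v ∉ ω.1.support) _ hv] at a1
              rw [a1]
          have e2 : p.2.1 = p'.2.1 := by
            funext w l
            have a1 := hT2 p hpT w
            have a2 := hT2 p' hpT' w
            rw [a1] at a2
            exact congrFun a2 (Sum.inl l)
          exact Prod.ext e1 (Prod.ext e2 (hpu.trans hpu'.symm))
        rw [← Finset.card_image_of_injOn hinj]
        have hq0 : (0 : ℝ) ≤ q := Nat.cast_nonneg _
        apply hfree β hβ U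
        · refine hU2.trans ?_
          have a1 : logHeight u ≤ A * (β + 1) := by
            rw [← hpu]
            exact (ms_logHeight_le_ell _ α p₀.2.2 p₀.1 p₀.2.1).trans (hell p₀ hp₀D)
          have a2 : (q : ℝ) * (logHeight u + c') ≤ q * (A * (β + 1) + c' * (β + 1)) := by
            apply mul_le_mul_of_nonneg_left _ hq0
            nlinarith
          have a3 : 0 ≤ A * (β + 1) := by positivity
          nlinarith
        · intro κ hκ v hv
          obtain ⟨p, hp, rfl⟩ := Finset.mem_image.mp hκ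
          obtain ⟨hpT, hpu⟩ := Finset.mem_filter.mp hp
          rw [Finsupp.support_filter, Finset.mem_filter] at hv
          have a1 := hWf2 p (hTN p hpT) v hv.1 (by rw [hTW p hpT]; exact hv.2)
          rw [hpu] at a1
          exact hU1 v a1.2
        · intro κ hκ
          obtain ⟨p, hp, rfl⟩ := Finset.mem_image.mp hκ
          obtain ⟨hpT, hpu⟩ := Finset.mem_filter.mp hp
          have a1 : ∑ v ∈ (p.1.filter (fun v => v ∉ ω.1.support)).support,
              ((∑ l, (p.1.filter (fun v => v ∉ ω.1.support)) v l : ℕ) : ℝ) * lnv v ≤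
              ∑ v ∈ p.1.support, ((∑ l, p.1 v l : ℕ) : ℝ) * lnv v := by
            have a2 : ∑ v ∈ (p.1.filter (fun v => v ∉ ω.1.support)).support,
                ((∑ l, (p.1.filter (fun v => v ∉ ω.1.support)) v l : ℕ) : ℝ) * lnv v =
                ∑ v ∈ (p.1.filter (fun v => v ∉ ω.1.support)).support,
                ((∑ l, p.1 v l : ℕ) : ℝ) * lnv v := by
              refine Finset.sum_congr rfl fun v hv => ?_
              rw [Finsupp.support_filter, Finset.mem_filter] at hv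
              rw [Finsupp.filter_apply_pos (fun v => v ∉ ω.1.support) _ hv.2]
            rw [a2]
            refine Finset.sum_le_sum_of_subset_of_nonneg ?_ fun v _ _ => ?_
            · rw [Finsupp.support_filter]
              exact Finset.filter_subset _ _
            · have := (lnv_pos v).le
              positivity
          have a3 := ms_siz_fin_le p.1 p.2.1
          have a4 := (hkey p (hND p (hTN p hpT))).size
          have a5 : 0 ≤ (q : ℝ) * (c' + A) * (β + 1) := by positivity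
          calc _ ≤ _ := a1
            _ ≤ _ := a3
            _ ≤ _ := a4
            _ ≤ _ := by linarith
      have hdir' : ((T.image (fun p => p.2.2)).card : ℝ) ≤ Cd := by
        apply hdir (ω.1.mapRange (fun f l => f (Sum.inr l)) rfl) (fun w l => ω.2 w (Sum.inr l))
        · intro u hu
          obtain ⟨p, hp, rfl⟩ := Finset.mem_image.mp hu
          exact hBal p (hND p (hTN p hp))
        · intro u hu u' hu' hne
          obtain ⟨p, hp, rfl⟩ := Finset.mem_image.mp hu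
          obtain ⟨p', hp', rfl⟩ := Finset.mem_image.mp hu'
          exact hwd p (hND p (hTN p hp)) p' (hND p' (hTN p' hp')) hne
        · intro u hu v hv l _ hne
          obtain ⟨p, hp, rfl⟩ := Finset.mem_image.mp hu
          have hv' : v ∈ ω.1.support := Finsupp.support_mapRange hv
          have a1 : (ω.1.mapRange (fun f l => f (Sum.inr l)) rfl : _ →₀ (Fin q → ℕ)) v l =
              gp α p.2.2 p.1 v l := by
            rw [Finsupp.mapRange_apply, hT1 p hp v hv']
            rfl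
          rw [a1] at hne ⊢
          exact ms_fa_gp α p.2.2 p.1 v l hne
        · intro u hu w l _
          obtain ⟨p, hp, rfl⟩ := Finset.mem_image.mp hu
          have a1 : ω.2 w (Sum.inr l) = gi α p.2.2 p.2.1 w l := by
            rw [hT2 p hp w]
            rfl
          rw [a1]
          exact ms_inf_gi α p.2.2 p.2.1 w l B hB (hup _ (hBal p (hND p (hTN p hp))) w l)
        · intro u hu
          obtain ⟨p, hp, rfl⟩ := Finset.mem_image.mp hu
          refine (hWf3 p (hTN p hp)).trans ?_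
          apply add_le_add
          · rw [hTW p hp]
            apply le_of_eq
            symm
            rw [Finset.sum_subset (Finsupp.support_mapRange :
              (ω.1.mapRange (fun f l => f (Sum.inr l)) rfl : _ →₀ (Fin q → ℕ)).support ⊆
                ω.1.support)]
            · refine Finset.sum_congr rfl fun v hv => ?_
              congr 2
              refine Finset.sup_congr rfl fun l _ => ?_
              rw [Finsupp.mapRange_apply, hT1 p hp v hv]
              rfl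
            · intro v _ hv
              rw [Finsupp.notMem_support_iff] at hv
              rw [hv]
              have : Fᶜ.sup (0 : Fin q → ℕ) = 0 := by
                apply Nat.eq_zero_of_le_zero
                apply Finset.sup_le
                intro l _
                exact le_rfl
              rw [this]
              simp
          · apply le_of_eq
            refine Finset.sum_congr rfl fun w _ => ?_
            congr 1
            refine Finset.sup_congr rfl fun l _ => ?_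
            rw [hT2 p hp w]
            rfl
      calc ∑ u ∈ T.image (fun p => p.2.2), (((T.filter (fun a => a.2.2 = u)).card : ℕ) : ℝ)
          ≤ ∑ u ∈ T.image (fun p => p.2.2), Cf * Real.exp (η / 2 * β) :=
            Finset.sum_le_sum hfu
        _ = ((T.image (fun p => p.2.2)).card : ℝ) * (Cf * Real.exp (η / 2 * β)) := by
            rw [Finset.sum_const, nsmul_eq_mul]
        _ ≤ Cd * (Cf * Real.exp (η / 2 * β)) :=
            mul_le_mul_of_nonneg_right hdir' (by positivity)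
    have hsumO := hsum β hβ (𝒩.image Om) (by
      intro x hx
      obtain ⟨p, hp, rfl⟩ := Finset.mem_image.mp hx
      have a1 := ms_siz (Wf p) p.1 (gp α p.2.2 p.1) p.2.1 (gi α p.2.2 p.2.1) (hWf1 p hp)
        (fun v l => ms_gp_le α p.2.2 p.1 v l) (fun w l => ms_gi_le α p.2.2 p.2.1 w l)
      have a2 := (hkey p (hND p hp)).size
      calc siz (Om p).1 (Om p).2 ≤ 2 * siz p.1 p.2.1 := a1
        _ ≤ 2 * (A * (β + 1)) := by linarith
        _ = 2 * A * (β + 1) := by ring)
    calc ∑ p ∈ 𝒩, Real.exp (- phi F p.1 p.2.1 - ell Fᶜ α p.2.2 p.1 p.2.1)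
        ≤ ∑ p ∈ 𝒩, Real.exp c * G (Om p) := Finset.sum_le_sum h1
      _ = Real.exp c * ∑ p ∈ 𝒩, G (Om p) := by rw [Finset.mul_sum]
      _ = Real.exp c * ∑ ω ∈ 𝒩.image Om, (𝒩.filter (fun p => Om p = ω)).card • G ω := by
          rw [Finset.sum_comp G Om]
      _ ≤ Real.exp c * ∑ ω ∈ 𝒩.image Om, (Cd * (Cf * Real.exp (η / 2 * β))) * G ω := by
          apply mul_le_mul_of_nonneg_left _ (Real.exp_pos _).le
          refine Finset.sum_le_sum fun ω hω => ?_
          rw [nsmul_eq_mul]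
          exact mul_le_mul_of_nonneg_right (hfib ω hω) (Real.exp_pos _).le
      _ = Real.exp c * (Cd * (Cf * Real.exp (η / 2 * β))) * ∑ ω ∈ 𝒩.image Om, G ω := by
          rw [← Finset.mul_sum]
          ring
      _ ≤ Real.exp c * (Cd * (Cf * Real.exp (η / 2 * β))) * (Cs * Real.exp (η / 2 * β)) :=
          mul_le_mul_of_nonneg_left hsumO (by positivity)
      _ = Real.exp c * (Cd * Cf * Cs) * Real.exp (η * β) := by
          have : Real.exp (η * β) = Real.exp (η / 2 * β) * Real.exp (η / 2 * β) := by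
            rw [← Real.exp_add]
            congr 1
            ring
          rw [this]
          ring
  rw [← Finset.sum_filter_add_sum_filter_not 𝒟 (fun p => ∃ l ∈ Fᶜ, lf (α l) p.2.2 = 0)]
  calc _ ≤ Real.exp c * (q * Cs') * Real.exp (η * β) +
        Real.exp c * (Cd * Cf * Cs) * Real.exp (η * β) := add_le_add hsp hns
    _ = _ := by ring

end Pool.Agent.Lib.MP_44a246_nt.HP
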