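import Pool.Agent.Lib.MP_44a246_nt.HP.Local

set_option autoImplicit false

open NumberField IsDedekindDomain Height
open Pool.Agent.Lib.MP_4d5ce1_nt (ordv fa nv)

namespace Pool.Agent.Lib.MP_44a246_nt.HP

/-! ## HP-4 -/

private lemma ll_li {K : Type*} [Field K] {a b : Fin 2 → K} (h : wd a b ≠ 0) :
    LinearIndependent K ![a, b] := by
  rw [LinearIndependent.pair_iff]
  intro s t hst
  have h0 := congrFun hst 0
  have h1 := congrFun hst 1
  simp only [Pi.add_apply, Pi.smul_apply, smul_eq_mul, Pi.zero_apply] at h0 h1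
  unfold wd at h
  constructor
  · have : s * (a 0 * b 1 - a 1 * b 0) = 0 := by linear_combination b 1 * h0 - b 0 * h1
    exact (mul_eq_zero.1 this).resolve_right h
  · have : t * (a 0 * b 1 - a 1 * b 0) = 0 := by linear_combination a 0 * h1 - a 1 * h0
    exact (mul_eq_zero.1 this).resolve_right h

private lemma ll_lf_smul {K : Type*} [Field K] {m : ℕ} (a u : Fin m → K) (s : K) :
    lf a (s • u) = s * lf a u := by
  unfold lf
  rw [Finset.mul_sum]
  exact Finset.sum_congr rfl fun i _ => by rw [Pi.smul_apply, smul_eq_mul]; ring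

private lemma ll_finite (K : Type*) [Field K] [NumberField K] (C₀ : ℝ) :
    {v : HeightOneSpectrum (𝓞 K) | nv v ≤ C₀}.Finite := by
  have h := Ideal.finite_setOfPred_absNorm_le (S := 𝓞 K) ⌊C₀⌋₊
  have h2 := h.preimage (f := fun v : HeightOneSpectrum (𝓞 K) => v.asIdeal)
    (fun v _ w _ hvw => HeightOneSpectrum.ext hvw)
  refine h2.subset fun v hv => ?_
  exact Nat.le_floor hv

theorem line_local (K : Type*) [Field K] [NumberField K] (q : ℕ) (Λ : Finset (Fin q))
    (hΛ : 2 ≤ Λ.card) (α : Fin q → Fin 2 → K)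
    (hα : ∀ l ∈ Λ, ∀ l' ∈ Λ, l ≠ l' → wd (α l) (α l') ≠ 0) (C₀ A : ℝ) (hC₀ : 1 ≤ C₀)
    (hA : 1 ≤ A) :
    ∃ (bad : Finset (HeightOneSpectrum (𝓞 K))) (c : ℝ), 0 ≤ c ∧
      ∀ u : Fin 2 → K, Bal C₀ u → ∀ s : K, s ≠ 0 →
      ∀ (β : ℝ) (κ : HeightOneSpectrum (𝓞 K) →₀ (Fin q → ℕ)) (k : InfinitePlace K → Fin q → ℕ),
      InBox Λ α A β κ k (s • u) →
      (∀ v, Real.log (fa v s) ≤ - (jp Λ α u κ v : ℝ) * lnv v + (open Classical in if v ∈ bad then c else 0)) ∧
      (∀ w : InfinitePlace K, Real.log (w s) ≤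
        (β - logHeight u) / dg K - (ji Λ α u k w : ℝ) / (w.mult : ℝ) + c) := by
  classical
  obtain ⟨l0, h0, l1, h1, h01⟩ := Finset.one_lt_card.1 (show 1 < Λ.card by omega)
  obtain ⟨bad0, A0, hA0, hb1, hb2, hb3⟩ := indep_bound K 2 ![α l0, α l1] (ll_li (hα l0 h0 l1 h1 h01))
  have hmem : ∀ j : Fin 2, ∃ l ∈ Λ, (![α l0, α l1] : Fin 2 → Fin 2 → K) j = α l := by
    intro j
    fin_cases j
    · exact ⟨l0, h0, rfl⟩
    · exact ⟨l1, h1, rfl⟩
  have hAC : 1 ≤ A0 * C₀ := by nlinarith
  have hlA : 0 ≤ Real.log A := Real.log_nonneg hA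
  have hlAC : 0 ≤ Real.log (A0 * C₀) := Real.log_nonneg hAC
  refine ⟨bad0 ∪ (ll_finite K C₀).toFinset, Real.log A + Real.log (A0 * C₀) + 1, by positivity, ?_⟩
  intro u hu s hs β κ k hbox
  constructor
  · intro v
    have hlv : 0 < lnv v := lnv_pos v
    have hnv := Pool.Agent.Lib.MP_4d5ce1_nt.one_lt_nv v
    have hnv0 := Pool.Agent.Lib.MP_4d5ce1_nt.nv_pos v
    have hfs := Pool.Agent.Lib.MP_4d5ce1_nt.fa_pos v hs
    have hc : 0 ≤ (if v ∈ bad0 ∪ (ll_finite K C₀).toFinset then
        Real.log A + Real.log (A0 * C₀) + 1 else 0) := by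
      split_ifs
      · positivity
      · exact le_rfl
    rcases Nat.eq_zero_or_pos (jp Λ α u κ v) with hJ | hJ
    · rw [hJ]
      obtain ⟨i, hi⟩ := hu.cont v
      by_cases hv : v ∈ bad0 ∪ (ll_finite K C₀).toFinset
      · rw [if_pos hv]
        obtain ⟨j, hj⟩ := hb2 v u i
        obtain ⟨l, hl, hjl⟩ := hmem j
        rw [hjl] at hj
        have hin := hbox.fin v l hl
        rw [ll_lf_smul, Pool.Agent.Lib.MP_4d5ce1_nt.fa_mul] at hin
        have h2 : (nv v ^ κ v l)⁻¹ ≤ 1 := inv_le_one_of_one_le₀ (one_le_pow₀ hnv.le)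
        have h3 : C₀⁻¹ ≤ A0 * fa v (lf (α l) u) := hi.trans hj
        have h4 : fa v s ≤ A0 * C₀ := by
          have h5 : fa v s * C₀⁻¹ ≤ A0 := by
            calc fa v s * C₀⁻¹ ≤ fa v s * (A0 * fa v (lf (α l) u)) := by gcongr
              _ = A0 * (fa v s * fa v (lf (α l) u)) := by ring
              _ ≤ A0 * 1 := by
                have := hin.trans h2
                gcongr
              _ = A0 := mul_one _
          have h6 : 0 < C₀ := by linarith
          calc fa v s = (fa v s * C₀⁻¹) * C₀ := by field_simp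
            _ ≤ A0 * C₀ := by gcongr
        have h7 := Real.log_le_log hfs h4
        simp only [Nat.cast_zero, neg_zero, zero_mul, zero_add]
        linarith
      · rw [if_neg hv]
        rw [Finset.mem_union, not_or] at hv
        have hv2 : C₀ < nv v := by
          by_contra h
          exact hv.2 (by rw [Set.Finite.mem_toFinset]; exact not_lt.1 h)
        have hui : fa v (u i) = 1 := by
          have hu0 : u i ≠ 0 := by
            intro h
            rw [h, Pool.Agent.Lib.MP_4d5ce1_nt.fa_zero] at hi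
            have : 0 < C₀⁻¹ := by positivity
            linarith
          rw [Pool.Agent.Lib.MP_4d5ce1_nt.fa_eq_one_iff v hu0]
          have h2 := (Pool.Agent.Lib.MP_4d5ce1_nt.fa_le_one_iff v hu0).1 (hu.int v i)
          by_contra hne
          have h3 : 1 ≤ ordv v (u i) := by omega
          have h4 : fa v (u i) ≤ (nv v)⁻¹ := by
            rw [Pool.Agent.Lib.MP_4d5ce1_nt.fa_eq v hu0, ← zpow_neg_one]
            exact zpow_le_zpow_right₀ hnv.le (by omega)
          have h5 : (nv v)⁻¹ < C₀⁻¹ := by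
            have : 0 < C₀ := by linarith
            gcongr
          linarith
        obtain ⟨j, hj⟩ := hb1 v hv.1 u i
        obtain ⟨l, hl, hjl⟩ := hmem j
        rw [hjl, hui] at hj
        have hin := hbox.fin v l hl
        rw [ll_lf_smul, Pool.Agent.Lib.MP_4d5ce1_nt.fa_mul] at hin
        have h2 : (nv v ^ κ v l)⁻¹ ≤ 1 := inv_le_one_of_one_le₀ (one_le_pow₀ hnv.le)
        have h4 : fa v s ≤ 1 := by
          calc fa v s = fa v s * 1 := (mul_one _).symm
            _ ≤ fa v s * fa v (lf (α l) u) := by gcongr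
            _ ≤ 1 := hin.trans h2
        have h7 := Real.log_le_log hfs h4
        rw [Real.log_one] at h7
        simp only [Nat.cast_zero, neg_zero, zero_mul, zero_add]
        exact h7
    · have hne : Λ.Nonempty := ⟨l0, h0⟩
      obtain ⟨l, hl, hJl⟩ := Finset.exists_mem_eq_sup Λ hne (fun l => κ v l - gp α u κ v l)
      have hJl' : jp Λ α u κ v = κ v l - gp α u κ v l := hJl
      have hlt : gp α u κ v l < κ v l := by omega
      have hlf : lf (α l) u ≠ 0 := by
        intro h
        unfold gp at hlt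
        rw [if_pos h] at hlt
        exact lt_irrefl _ hlt
      have hgp : gp α u κ v l = (ordv v (lf (α l) u)).toNat := by
        unfold gp at hlt ⊢
        rw [if_neg hlf] at hlt ⊢
        omega
      have hin := hbox.fin v l hl
      rw [ll_lf_smul, Pool.Agent.Lib.MP_4d5ce1_nt.fa_mul] at hin
      have hfl := Pool.Agent.Lib.MP_4d5ce1_nt.fa_pos v hlf
      have h2 := Real.log_le_log (mul_pos hfs hfl) hin
      rw [Real.log_mul hfs.ne' hfl.ne', Pool.Agent.Lib.MP_4d5ce1_nt.log_fa v hlf, Real.log_inv,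
        Real.log_pow] at h2
      have h3 : (ordv v (lf (α l) u) : ℝ) ≤ ((ordv v (lf (α l) u)).toNat : ℝ) := by
        exact_mod_cast Int.self_le_toNat _
      have h4 : (jp Λ α u κ v : ℝ) = (κ v l : ℝ) - ((ordv v (lf (α l) u)).toNat : ℝ) := by
        rw [hJl', hgp, Nat.cast_sub (by rw [← hgp]; exact hlt.le)]
      rw [h4]
      change Real.log (fa v s) + -(ordv v (lf (α l) u) : ℝ) * lnv v ≤ -((κ v l : ℝ) * lnv v) at h2
      have h5 : (ordv v (lf (α l) u) : ℝ) * lnv v ≤ ((ordv v (lf (α l) u)).toNat : ℝ) * lnv v := by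
        gcongr
      linarith
  · intro w
    have hws : 0 < w s := InfinitePlace.pos_iff.2 hs
    have hmult : (1:ℝ) ≤ (w.mult : ℝ) := by exact_mod_cast w.one_le_mult
    have hmult0 : (0:ℝ) < (w.mult : ℝ) := by linarith
    have hA0' : 0 < A := by linarith
    rcases Nat.eq_zero_or_pos (ji Λ α u k w) with hJ | hJ
    · rw [hJ]
      obtain ⟨i, hi⟩ := hu.low w
      obtain ⟨j, hj⟩ := hb3 w u i
      obtain ⟨l, hl, hjl⟩ := hmem j
      rw [hjl] at hj
      have hin := hbox.inf w l hl
      rw [ll_lf_smul, map_mul] at hin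
      have h3 : C₀⁻¹ * Real.exp (logHeight u / dg K) ≤ A0 * w (lf (α l) u) := hi.trans hj
      have hwl : 0 < w (lf (α l) u) := by
        have h4 : 0 < C₀⁻¹ * Real.exp (logHeight u / dg K) := by positivity
        have h5 : 0 < A0 * w (lf (α l) u) := by linarith
        exact (mul_pos_iff_of_pos_left (by linarith)).1 h5
      have hk : (0:ℝ) ≤ (k w l : ℝ) / (w.mult : ℝ) := by positivity
      have h6 : w s * w (lf (α l) u) ≤ A * Real.exp (β / dg K) := by
        refine hin.trans ?_
        gcongr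
        linarith
      have h7 := Real.log_le_log (mul_pos hws hwl) h6
      rw [Real.log_mul hws.ne' hwl.ne', Real.log_mul hA0'.ne' (Real.exp_pos _).ne',
        Real.log_exp] at h7
      have h8 := Real.log_le_log (by positivity) h3
      rw [Real.log_mul (by positivity) (Real.exp_pos _).ne', Real.log_exp, Real.log_inv,
        Real.log_mul (by positivity) hwl.ne'] at h8
      rw [Real.log_mul (by positivity) (by positivity)]
      rw [sub_div]
      simp only [Nat.cast_zero, zero_div, sub_zero]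
      linarith
    · have hne : Λ.Nonempty := ⟨l0, h0⟩
      obtain ⟨l, hl, hJl⟩ := Finset.exists_mem_eq_sup Λ hne (fun l => k w l - gi α u k w l)
      have hJl' : ji Λ α u k w = k w l - gi α u k w l := hJl
      have hlt : gi α u k w l < k w l := by omega
      have hlf : lf (α l) u ≠ 0 := by
        intro h
        unfold gi at hlt
        rw [if_pos h] at hlt
        exact lt_irrefl _ hlt
      have hgi : gi α u k w l =
          ⌊(w.mult : ℝ) * (logHeight u / dg K - Real.log (w (lf (α l) u)))⌋₊ := by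
        unfold gi at hlt ⊢
        rw [if_neg hlf] at hlt ⊢
        omega
      have hwl : 0 < w (lf (α l) u) := InfinitePlace.pos_iff.2 hlf
      have hin := hbox.inf w l hl
      rw [ll_lf_smul, map_mul] at hin
      have h7 := Real.log_le_log (mul_pos hws hwl) hin
      rw [Real.log_mul hws.ne' hwl.ne', Real.log_mul hA0'.ne' (Real.exp_pos _).ne',
        Real.log_exp] at h7
      have hfl := Nat.lt_floor_add_one
        ((w.mult : ℝ) * (logHeight u / dg K - Real.log (w (lf (α l) u))))
      rw [← hgi] at hfl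
      have h9 : logHeight u / dg K - Real.log (w (lf (α l) u)) <
          ((gi α u k w l : ℝ) + 1) / (w.mult : ℝ) := by
        rw [lt_div_iff₀ hmult0]
        linarith
      have h10 : (ji Λ α u k w : ℝ) = (k w l : ℝ) - (gi α u k w l : ℝ) := by
        rw [hJl', Nat.cast_sub hlt.le]
      rw [h10, sub_div, sub_div]
      have h11 : (1:ℝ) / (w.mult : ℝ) ≤ 1 := by
        rw [div_le_one hmult0]; exact hmult
      rw [add_div] at h9
      linarith

end Pool.Agent.Lib.MP_44a246_nt.HP
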