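import Pool.Agent.Lib.MP_44a246_nt.HP.Local

set_option autoImplicit false

open NumberField IsDedekindDomain Height
open Pool.Agent.Lib.MP_4d5ce1_nt (ordv fa nv)

namespace Pool.Agent.Lib.MP_44a246_nt.HP

/-! ## HP-5 -/

section psiAux

open Pool.Agent.Lib.MP_4d5ce1_nt

private lemma psi_wd_identity {K : Type*} [Field K] (a b u z : Fin 2 → K) :
    wd a b * wd u z = lf a u * lf b z - lf b u * lf a z := by
  simp only [wd, lf, Fin.sum_univ_two]
  ring

/-- A finite family of elements of `K`: outside a finite set of primes they have absolute value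
`1` (if nonzero), and all their absolute values, and those of their inverses, are bounded. -/
private lemma psi_exists_bound {K : Type*} [Field K] [NumberField K] {ι : Type*} (s : Finset ι)
    (f : ι → K) :
    ∃ (bad : Finset (HeightOneSpectrum (𝓞 K))) (A : ℝ), 1 ≤ A ∧
      (∀ i ∈ s, ∀ v ∉ bad, f i ≠ 0 → fa v (f i) = 1) ∧
      (∀ i ∈ s, ∀ v : HeightOneSpectrum (𝓞 K), fa v (f i) ≤ A ∧ (fa v (f i))⁻¹ ≤ A) ∧
      (∀ i ∈ s, ∀ w : InfinitePlace K, w (f i) ≤ A ∧ (w (f i))⁻¹ ≤ A) := by
  classical
  induction s using Finset.induction_on with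
  | empty => exact ⟨∅, 1, le_rfl, by simp, by simp, by simp⟩
  | insert a s ha ih =>
    obtain ⟨bad, A, hA, h1, h2, h3⟩ := ih
    by_cases hfa : f a = 0
    · refine ⟨bad, A, hA, ?_, ?_, ?_⟩
      · intro i hi v hv hne
        rcases Finset.mem_insert.mp hi with rfl | hi
        · exact absurd hfa hne
        · exact h1 i hi v hv hne
      · intro i hi v
        rcases Finset.mem_insert.mp hi with rfl | hi
        · have : fa v (f i) = 0 := (fa_eq_zero_iff v).mpr hfa
          rw [this]; simp; linarith
        · exact h2 i hi v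
      · intro i hi w
        rcases Finset.mem_insert.mp hi with rfl | hi
        · rw [hfa]; simp; linarith
        · exact h3 i hi w
    · have hfin := finite_fa_ne_one hfa
      set bad' := hfin.toFinset with hbad'
      set B : ℝ := A + ∑ v ∈ bad', (fa v (f a) + (fa v (f a))⁻¹) +
        ∑ w : InfinitePlace K, (w (f a) + (w (f a))⁻¹) with hB
      have hnn1 : ∀ v : HeightOneSpectrum (𝓞 K), 0 ≤ fa v (f a) + (fa v (f a))⁻¹ := fun v =>
        add_nonneg (fa_nonneg v _) (inv_nonneg.mpr (fa_nonneg v _))
      have hnn2 : ∀ w : InfinitePlace K, 0 ≤ w (f a) + (w (f a))⁻¹ := fun w =>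
        add_nonneg (apply_nonneg w _) (inv_nonneg.mpr (apply_nonneg w _))
      have hS1 : 0 ≤ ∑ v ∈ bad', (fa v (f a) + (fa v (f a))⁻¹) :=
        Finset.sum_nonneg fun v _ => hnn1 v
      have hS2 : 0 ≤ ∑ w : InfinitePlace K, (w (f a) + (w (f a))⁻¹) :=
        Finset.sum_nonneg fun w _ => hnn2 w
      have hAB : A ≤ B := by linarith
      refine ⟨bad ∪ bad', B, by linarith, ?_, ?_, ?_⟩
      · intro i hi v hv hne
        rw [Finset.mem_union, not_or] at hv
        rcases Finset.mem_insert.mp hi with rfl | hi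
        · have := hv.2
          rw [hbad', Set.Finite.mem_toFinset] at this
          exact not_not.mp this
        · exact h1 i hi v hv.1 hne
      · intro i hi v
        rcases Finset.mem_insert.mp hi with rfl | hi
        · by_cases hv : v ∈ bad'
          · have := Finset.single_le_sum (fun v _ => hnn1 v) hv
            have h4 := fa_nonneg v (f i)
            have h5 := inv_nonneg.mpr h4
            constructor <;> linarith
          · rw [hbad', Set.Finite.mem_toFinset] at hv
            have hv' : fa v (f i) = 1 := not_not.mp hv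
            rw [hv', inv_one]
            constructor <;> linarith
        · have := h2 i hi v
          exact ⟨this.1.trans hAB, this.2.trans hAB⟩
      · intro i hi w
        rcases Finset.mem_insert.mp hi with rfl | hi
        · have := Finset.single_le_sum (fun w _ => hnn2 w) (Finset.mem_univ w)
          have h4 : 0 ≤ w (f i) := apply_nonneg w _
          have h5 := inv_nonneg.mpr h4
          constructor <;> linarith
        · have := h3 i hi w
          exact ⟨this.1.trans hAB, this.2.trans hAB⟩

private lemma psi_tt_attained {q : ℕ} (Λ : Finset (Fin q)) (hΛ : 2 ≤ Λ.card) (e : Fin q → ℕ) :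
    ∃ l ∈ Λ, ∃ l' ∈ Λ, l ≠ l' ∧ tt e Λ = e l + e l' := by
  classical
  have hne : Λ.offDiag.Nonempty := by
    obtain ⟨a, b, ha, hb, hab⟩ := Finset.one_lt_card_iff.mp (by omega : 1 < Λ.card)
    exact ⟨(a, b), Finset.mem_offDiag.mpr ⟨ha, hb, hab⟩⟩
  obtain ⟨p, hp, hpe⟩ := Finset.exists_mem_eq_sup Λ.offDiag hne (fun p => e p.1 + e p.2)
  rw [Finset.mem_offDiag] at hp
  exact ⟨p.1, hp.1, p.2, hp.2.1, hp.2.2, hpe⟩

end psiAux

open Pool.Agent.Lib.MP_4d5ce1_nt in
theorem psi_local (K : Type*) [Field K] [NumberField K] (q : ℕ) (Λ : Finset (Fin q))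
    (hΛ : 2 ≤ Λ.card) (α : Fin q → Fin 2 → K)
    (hα : ∀ l ∈ Λ, ∀ l' ∈ Λ, l ≠ l' → wd (α l) (α l') ≠ 0) (C₀ A : ℝ) (hC₀ : 1 ≤ C₀)
    (hA : 1 ≤ A) :
    ∃ (bad : Finset (HeightOneSpectrum (𝓞 K))) (c : ℝ), 0 ≤ c ∧
      ∀ u : Fin 2 → K, Bal C₀ u → ∀ z : Fin 2 → K, wd u z ≠ 0 →
      ∀ (β : ℝ) (κ : HeightOneSpectrum (𝓞 K) →₀ (Fin q → ℕ)) (k : InfinitePlace K → Fin q → ℕ),
      InBox Λ α A β κ k z →
      (∀ v, Real.log (fa v (wd u z)) ≤
        - ((tt (κ v) Λ : ℝ) - jp Λ α u κ v) * lnv v + (open Classical in if v ∈ bad then c else 0)) ∧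
      (∀ w : InfinitePlace K, Real.log (w (wd u z)) ≤
        (β + logHeight u) / dg K - ((tt (k w) Λ : ℝ) - ji Λ α u k w) / (w.mult : ℝ) + c) := by
  classical
  obtain ⟨bad1, A1, hA1, hb1, hf1, hi1⟩ := psi_exists_bound (K := K)
    (Finset.univ : Finset (Fin q × Fin 2)) (fun p => α p.1 p.2)
  obtain ⟨bad2, A2, hA2, hb2, hf2, hi2⟩ := psi_exists_bound (K := K)
    (Finset.univ : Finset (Fin q × Fin q)) (fun p => wd (α p.1) (α p.2))
  have hA1p : 0 < A1 := by linarith
  have hA2p : 0 < A2 := by linarith
  have hAp : 0 < A := by linarith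
  have hC₀p : 0 < C₀ := by linarith
  have hd : 0 < dg K := by
    unfold dg
    exact_mod_cast Module.finrank_pos
  set C' : ℝ := 2 * A1 * C₀ with hC'
  have hC'1 : 1 ≤ C' := by
    have : 1 ≤ A1 * C₀ := one_le_mul_of_one_le_of_one_le hA1 hC₀
    rw [hC', mul_assoc]; linarith
  have hl1 : 0 ≤ Real.log A1 := Real.log_nonneg hA1
  have hl2 : 0 ≤ Real.log A2 := Real.log_nonneg hA2
  have hCA : 1 ≤ 2 * C' * A := by
    have : 1 ≤ C' * A := one_le_mul_of_one_le_of_one_le hC'1 hA
    rw [mul_assoc]; linarith
  have hl3 : 0 ≤ Real.log (2 * C' * A) := Real.log_nonneg hCA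
  refine ⟨bad1 ∪ bad2, Real.log A1 + Real.log A2 + Real.log (2 * C' * A), by linarith, ?_⟩
  intro u hu z hz β κ k hbox
  constructor
  · intro v
    obtain ⟨l, hl, l', hl', hll, htt⟩ := psi_tt_attained Λ hΛ (κ v)
    have hnv := nv_pos v
    have hnv1 := one_lt_nv v
    have hln : 0 < lnv v := lnv_pos v
    -- local constants
    set a1 : ℝ := if v ∈ bad1 ∪ bad2 then A1 else 1 with ha1
    have ha1' : 1 ≤ a1 := by rw [ha1]; split_ifs <;> linarith
    set a2 : ℝ := if v ∈ bad1 ∪ bad2 then A2 else 1 with ha2
    have ha2' : 1 ≤ a2 := by rw [ha2]; split_ifs <;> linarith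
    have hcoef : ∀ l i, fa v (α l i) ≤ a1 := by
      intro l i
      rw [ha1]
      split_ifs with hv
      · exact (hf1 (l, i) (Finset.mem_univ _) v).1
      · rw [Finset.mem_union, not_or] at hv
        by_cases h0 : α l i = 0
        · rw [h0, (fa_eq_zero_iff v).mpr rfl]; norm_num
        · exact (hb1 (l, i) (Finset.mem_univ _) v hv.1 h0).le
    -- bound for the forms at `u`
    have hJ : ∀ m ∈ Λ, κ v m ≤ gp α u κ v m + jp Λ α u κ v := by
      intro m hm
      have h1 : κ v m - gp α u κ v m ≤ jp Λ α u κ v :=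
        Finset.le_sup (f := fun l => κ v l - gp α u κ v l) hm
      omega
    have hu1 : ∀ m, fa v (lf (α m) u) ≤ a1 * (nv v ^ (gp α u κ v m))⁻¹ := by
      intro m
      have hpos : 0 < (nv v ^ (gp α u κ v m))⁻¹ := inv_pos.mpr (pow_pos hnv _)
      by_cases h0 : lf (α m) u = 0
      · rw [h0, (fa_eq_zero_iff v).mpr rfl]
        exact mul_nonneg (by linarith) hpos.le
      · have hgp : gp α u κ v m = min (κ v m) (ordv v (lf (α m) u)).toNat := by
          unfold gp; rw [if_neg h0]
        rcases le_or_gt 0 (ordv v (lf (α m) u)) with ho | ho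
        · have h2 : (gp α u κ v m : ℤ) ≤ ordv v (lf (α m) u) := by
            rw [hgp]
            have := Int.toNat_of_nonneg ho
            have h3 : min (κ v m) (ordv v (lf (α m) u)).toNat ≤ (ordv v (lf (α m) u)).toNat :=
              min_le_right _ _
            omega
          rw [fa_eq v h0]
          have h4 : nv v ^ (-ordv v (lf (α m) u)) ≤ (nv v ^ (gp α u κ v m))⁻¹ := by
            have h5 : nv v ^ (-ordv v (lf (α m) u)) ≤ nv v ^ (-(gp α u κ v m : ℤ)) :=
              zpow_le_zpow_right₀ hnv1.le (by omega)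
            rwa [zpow_neg _ (gp α u κ v m : ℤ), zpow_natCast] at h5
          calc nv v ^ (-ordv v (lf (α m) u)) ≤ 1 * (nv v ^ (gp α u κ v m))⁻¹ := by
                rw [one_mul]; exact h4
            _ ≤ a1 * (nv v ^ (gp α u κ v m))⁻¹ := mul_le_mul_of_nonneg_right ha1' hpos.le
        · have h2 : gp α u κ v m = 0 := by
            rw [hgp, Int.toNat_of_nonpos ho.le]; simp
          rw [h2]
          simp only [pow_zero, inv_one, mul_one]
          unfold lf
          refine fa_sum_le v _ _ _ (by linarith) ?_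
          intro i _
          rw [fa_mul]
          calc fa v (α m i) * fa v (u i) ≤ a1 * 1 :=
                mul_le_mul (hcoef m i) (hu.int v i) (fa_nonneg _ _) (by linarith)
            _ = a1 := mul_one _
    have hu2 : ∀ m ∈ Λ, ∀ m' ∈ Λ, fa v (lf (α m) u * lf (α m') z) ≤
        a1 * (nv v ^ (jp Λ α u κ v)) * (nv v ^ (κ v m + κ v m'))⁻¹ := by
      intro m hm m' hm'
      rw [fa_mul]
      have h1 := hu1 m
      have h2 := hbox.fin v m' hm'
      have h3 : (nv v ^ (gp α u κ v m))⁻¹ ≤ nv v ^ (jp Λ α u κ v) * (nv v ^ (κ v m))⁻¹ := by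
        rw [inv_le_iff_one_le_mul₀ (pow_pos hnv _)]
        have h5 : nv v ^ (κ v m) ≤ nv v ^ (gp α u κ v m) * nv v ^ (jp Λ α u κ v) := by
          rw [← pow_add]; exact pow_le_pow_right₀ hnv1.le (hJ m hm)
        have h6 : nv v ^ (jp Λ α u κ v) * (nv v ^ (κ v m))⁻¹ * nv v ^ (gp α u κ v m) =
            (nv v ^ (gp α u κ v m) * nv v ^ (jp Λ α u κ v)) / nv v ^ (κ v m) := by
          rw [div_eq_mul_inv]; ring
        rw [h6, le_div_iff₀ (pow_pos hnv _), one_mul]
        exact h5
      calc fa v (lf (α m) u) * fa v (lf (α m') z) ≤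
          (a1 * (nv v ^ (jp Λ α u κ v) * (nv v ^ (κ v m))⁻¹)) * (nv v ^ (κ v m'))⁻¹ := by
            refine mul_le_mul (h1.trans (mul_le_mul_of_nonneg_left h3 (by linarith))) h2
              (fa_nonneg _ _) ?_
            exact mul_nonneg (by linarith) (mul_nonneg (pow_pos hnv _).le
              (inv_nonneg.mpr (pow_pos hnv _).le))
        _ = _ := by rw [pow_add, mul_inv]; ring
    have hident := psi_wd_identity (α l) (α l') u z
    have hmain : fa v (wd (α l) (α l')) * fa v (wd u z) ≤
        a1 * (nv v ^ (jp Λ α u κ v)) * (nv v ^ (κ v l + κ v l'))⁻¹ := by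
      rw [← fa_mul, hident]
      refine (fa_sub_le v _ _).trans (max_le (hu2 l hl l' hl') ?_)
      have := hu2 l' hl' l hl
      rwa [add_comm (κ v l') (κ v l)] at this
    have hwne := hα l hl l' hl' hll
    have hwpos := fa_pos v hwne
    have hzpos := fa_pos v hz
    have hinv : (fa v (wd (α l) (α l')))⁻¹ ≤ a2 := by
      rw [ha2]
      split_ifs with hv
      · exact (hf2 (l, l') (Finset.mem_univ _) v).2
      · rw [Finset.mem_union, not_or] at hv
        have := hb2 (l, l') (Finset.mem_univ _) v hv.2 hwne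
        simp only at this
        rw [this]; norm_num
    have hfin : fa v (wd u z) ≤
        a2 * (a1 * (nv v ^ (jp Λ α u κ v)) * (nv v ^ (κ v l + κ v l'))⁻¹) := by
      have h1 : fa v (wd u z) = (fa v (wd (α l) (α l')))⁻¹ *
          (fa v (wd (α l) (α l')) * fa v (wd u z)) := by
        field_simp
      rw [h1]
      refine mul_le_mul hinv hmain (mul_nonneg hwpos.le hzpos.le) (by linarith)
    have hlog := Real.log_le_log hzpos hfin
    have h7 : Real.log (a2 * (a1 * (nv v ^ (jp Λ α u κ v)) * (nv v ^ (κ v l + κ v l'))⁻¹)) =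
        Real.log a2 + (Real.log a1 + (jp Λ α u κ v : ℝ) * lnv v -
          ((κ v l + κ v l' : ℕ) : ℝ) * lnv v) := by
      rw [Real.log_mul (by linarith) (by positivity), Real.log_mul (by positivity) (by positivity),
        Real.log_mul (by linarith) (by positivity), Real.log_inv, Real.log_pow, Real.log_pow]
      rfl
    rw [h7, ← htt] at hlog
    have h8 : Real.log a2 + Real.log a1 ≤
        (if v ∈ bad1 ∪ bad2 then Real.log A1 + Real.log A2 + Real.log (2 * C' * A) else 0) := by
      rw [ha1, ha2]
      split_ifs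
      · linarith
      · simp
    linarith
  · intro w
    obtain ⟨l, hl, l', hl', hll, htt⟩ := psi_tt_attained Λ hΛ (k w)
    have hmult : 0 < (w.mult : ℝ) := by exact_mod_cast w.mult_pos
    have hJ : ∀ m ∈ Λ, k w m ≤ gi α u k w m + ji Λ α u k w := by
      intro m hm
      have h1 : k w m - gi α u k w m ≤ ji Λ α u k w :=
        Finset.le_sup (f := fun l => k w l - gi α u k w l) hm
      omega
    have hu1 : ∀ m, w (lf (α m) u) ≤
        C' * Real.exp (logHeight u / dg K - (gi α u k w m : ℝ) / (w.mult : ℝ)) := by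
      intro m
      have hexp := Real.exp_pos (logHeight u / dg K - (gi α u k w m : ℝ) / (w.mult : ℝ))
      by_cases h0 : lf (α m) u = 0
      · rw [h0, map_zero]
        exact mul_nonneg (by linarith) hexp.le
      · have hgi : gi α u k w m = min (k w m)
            ⌊(w.mult : ℝ) * (logHeight u / dg K - Real.log (w (lf (α m) u)))⌋₊ := by
          unfold gi; rw [if_neg h0]
        rcases Nat.eq_zero_or_pos (gi α u k w m) with hg | hg
        · rw [hg]
          simp only [Nat.cast_zero, zero_div, sub_zero]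
          have h1 : w (lf (α m) u) ≤ ∑ i, w (α m i) * w (u i) := by
            unfold lf
            rw [Fin.sum_univ_two, Fin.sum_univ_two, ← map_mul, ← map_mul]
            exact w.1.add_le _ _
          refine h1.trans ?_
          have h2 : ∀ i : Fin 2, w (α m i) * w (u i) ≤
              A1 * (C₀ * Real.exp (logHeight u / dg K)) := fun i =>
            mul_le_mul (hi1 (m, i) (Finset.mem_univ _) w).1 (hu.up w i) (apply_nonneg w _)
              hA1p.le
          calc ∑ i, w (α m i) * w (u i) ≤ ∑ _i : Fin 2, A1 * (C₀ * Real.exp (logHeight u / dg K)) :=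
                Finset.sum_le_sum fun i _ => h2 i
            _ = C' * Real.exp (logHeight u / dg K) := by
                rw [Fin.sum_univ_two, hC']; ring
        · set g : ℝ := (w.mult : ℝ) * (logHeight u / dg K - Real.log (w (lf (α m) u))) with hgdef
          have h1 : gi α u k w m ≤ ⌊g⌋₊ := by rw [hgi]; exact min_le_right _ _
          have h2 : 0 < ⌊g⌋₊ := lt_of_lt_of_le hg h1
          have h3 : (0 : ℝ) ≤ g := by
            have := Nat.floor_pos.mp h2
            linarith
          have h4 : (gi α u k w m : ℝ) ≤ g :=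
            le_trans (by exact_mod_cast h1) (Nat.floor_le h3)
          have h5 : Real.log (w (lf (α m) u)) ≤
              logHeight u / dg K - (gi α u k w m : ℝ) / (w.mult : ℝ) := by
            have h6 : (gi α u k w m : ℝ) / (w.mult : ℝ) ≤
                logHeight u / dg K - Real.log (w (lf (α m) u)) := by
              rw [div_le_iff₀ hmult]
              rw [hgdef] at h4
              linarith
            linarith
          have hwpos : 0 < w (lf (α m) u) := (InfinitePlace.pos_iff).mpr h0
          calc w (lf (α m) u) = Real.exp (Real.log (w (lf (α m) u))) := (Real.exp_log hwpos).symm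
            _ ≤ Real.exp (logHeight u / dg K - (gi α u k w m : ℝ) / (w.mult : ℝ)) :=
                Real.exp_le_exp.mpr h5
            _ ≤ C' * Real.exp (logHeight u / dg K - (gi α u k w m : ℝ) / (w.mult : ℝ)) :=
                le_mul_of_one_le_left hexp.le hC'1
    have hu2 : ∀ m ∈ Λ, ∀ m' ∈ Λ, w (lf (α m) u * lf (α m') z) ≤
        C' * A * Real.exp ((β + logHeight u) / dg K -
          (((k w m + k w m' : ℕ) : ℝ) - ji Λ α u k w) / (w.mult : ℝ)) := by
      intro m hm m' hm'
      rw [map_mul]
      have h1 := hu1 m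
      have h2 := hbox.inf w m' hm'
      have h3 : (k w m : ℝ) ≤ gi α u k w m + ji Λ α u k w := by exact_mod_cast hJ m hm
      calc w (lf (α m) u) * w (lf (α m') z) ≤
          (C' * Real.exp (logHeight u / dg K - (gi α u k w m : ℝ) / (w.mult : ℝ))) *
            (A * Real.exp (β / dg K - (k w m' : ℝ) / (w.mult : ℝ))) :=
            mul_le_mul h1 h2 (apply_nonneg w _)
              (mul_nonneg (by linarith) (Real.exp_pos _).le)
        _ = C' * A * Real.exp ((logHeight u / dg K - (gi α u k w m : ℝ) / (w.mult : ℝ)) +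
              (β / dg K - (k w m' : ℝ) / (w.mult : ℝ))) := by
            rw [Real.exp_add]; ring
        _ ≤ _ := by
            refine mul_le_mul_of_nonneg_left (Real.exp_le_exp.mpr ?_)
              (mul_nonneg (by linarith) hAp.le)
            push_cast
            have h4 : ((k w m : ℝ) - ji Λ α u k w) / (w.mult : ℝ) ≤
                (gi α u k w m : ℝ) / (w.mult : ℝ) := by
              rw [div_le_div_iff_of_pos_right hmult]; linarith
            have h5 : (β + logHeight u) / dg K -
                ((k w m : ℝ) + k w m' - ji Λ α u k w) / (w.mult : ℝ) =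
                logHeight u / dg K - ((k w m : ℝ) - ji Λ α u k w) / (w.mult : ℝ) +
                (β / dg K - (k w m' : ℝ) / (w.mult : ℝ)) := by
              ring
            rw [h5]
            linarith
    have hident := psi_wd_identity (α l) (α l') u z
    set E : ℝ := Real.exp ((β + logHeight u) / dg K -
          (((k w l + k w l' : ℕ) : ℝ) - ji Λ α u k w) / (w.mult : ℝ)) with hE
    have hmain : w (wd (α l) (α l')) * w (wd u z) ≤ 2 * C' * A * E := by
      rw [← map_mul, hident]
      have h1 : w (lf (α l) u * lf (α l') z - lf (α l') u * lf (α l) z) ≤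
          w (lf (α l) u * lf (α l') z) + w (lf (α l') u * lf (α l) z) := by
        rw [sub_eq_add_neg]
        refine (w.1.add_le _ _).trans (le_of_eq ?_)
        congr 1
        exact w.1.map_neg _
      have h2 := hu2 l hl l' hl'
      have h3 := hu2 l' hl' l hl
      rw [add_comm (k w l') (k w l)] at h3
      rw [← hE] at h2 h3
      calc _ ≤ _ := h1
        _ ≤ C' * A * E + C' * A * E := add_le_add h2 h3
        _ = _ := by ring
    have hwne := hα l hl l' hl' hll
    have hwpos : 0 < w (wd (α l) (α l')) := (InfinitePlace.pos_iff).mpr hwne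
    have hzpos : 0 < w (wd u z) := (InfinitePlace.pos_iff).mpr hz
    have hinv : (w (wd (α l) (α l')))⁻¹ ≤ A2 := (hi2 (l, l') (Finset.mem_univ _) w).2
    have hfin : w (wd u z) ≤ A2 * (2 * C' * A * E) := by
      have h1 : w (wd u z) = (w (wd (α l) (α l')))⁻¹ *
          (w (wd (α l) (α l')) * w (wd u z)) := by
        field_simp
      rw [h1]
      exact mul_le_mul hinv hmain (mul_nonneg hwpos.le hzpos.le) (by linarith)
    have hEpos : 0 < E := Real.exp_pos _
    have hlog := Real.log_le_log hzpos hfin
    have h7 : Real.log (A2 * (2 * C' * A * E)) = Real.log A2 + (Real.log (2 * C' * A) +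
        ((β + logHeight u) / dg K -
          (((k w l + k w l' : ℕ) : ℝ) - ji Λ α u k w) / (w.mult : ℝ))) := by
      rw [Real.log_mul (by linarith) (by positivity),
        Real.log_mul (by linarith) hEpos.ne', hE, Real.log_exp]
    rw [h7, ← htt] at hlog
    linarith

end Pool.Agent.Lib.MP_44a246_nt.HP
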