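import Pool.Agent.Lib.MP_44a246_nt.HP.Packing
import Pool.Agent.Lib.MP_44a246_nt.HP.Line
import Pool.Agent.Lib.MP_44a246_nt.HP.Psi

set_option autoImplicit false
set_option linter.unusedSectionVars false

open NumberField IsDedekindDomain Height
open Pool.Agent.Lib.MP_4d5ce1_nt (ordv fa nv)

namespace Pool.Agent.Lib.MP_44a246_nt.HP

/-! ## HP-6 -/

namespace SliceAux

section
variable {K : Type*} [Field K] [NumberField K]

open Classical in
/-- The error at the bad primes. -/
noncomputable def err (bad : Finset (HeightOneSpectrum (𝓞 K))) (c : ℝ)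
    (v : HeightOneSpectrum (𝓞 K)) : ℝ := if v ∈ bad then c else 0

lemma err_le {bad bad' : Finset (HeightOneSpectrum (𝓞 K))} {c c' : ℝ} (hb : bad ⊆ bad')
    (hc : 0 ≤ c) (hcc : c ≤ c') (v : HeightOneSpectrum (𝓞 K)) : err bad c v ≤ err bad' c' v := by
  classical
  unfold err
  split_ifs with h1 h2 h2
  · exact hcc
  · exact absurd (hb h1) h2
  · exact hc.trans hcc
  · exact le_rfl

open Classical in
lemma sum_T (supp bad : Finset (HeightOneSpectrum (𝓞 K))) (J : HeightOneSpectrum (𝓞 K) → ℝ)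
    (hJ : ∀ v ∉ supp, J v = 0) (c : ℝ) :
    ∑ v ∈ supp ∪ bad, (J v - err bad c v) = ∑ v ∈ supp, J v - bad.card * c := by
  rw [Finset.sum_sub_distrib]
  congr 1
  · exact (Finset.sum_subset Finset.subset_union_left (fun v _ hv => hJ v hv)).symm
  · unfold err
    rw [Finset.sum_ite_mem, Finset.union_inter_cancel_right, Finset.sum_const, nsmul_eq_mul]

lemma dg_pos : 0 < dg K := by
  unfold dg
  exact_mod_cast Module.finrank_pos

lemma sum_mult : ∑ w : InfinitePlace K, (w.mult : ℝ) = dg K := by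
  unfold dg
  exact_mod_cast InfinitePlace.sum_mult_eq (K := K)

lemma sum_arch (X c : ℝ) (j : InfinitePlace K → ℝ) :
    ∑ w : InfinitePlace K, (w.mult : ℝ) * (X / dg K - j w / (w.mult : ℝ) + c) =
      X - ∑ w, j w + dg K * c := by
  have h1 : ∀ w : InfinitePlace K, (w.mult : ℝ) * (X / dg K - j w / (w.mult : ℝ) + c) =
      (w.mult : ℝ) * (X / dg K) - j w + (w.mult : ℝ) * c := by
    intro w
    have hw : (w.mult : ℝ) ≠ 0 := InfinitePlace.mult_coe_ne_zero
    field_simp
  simp only [h1]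
  rw [Finset.sum_add_distrib, Finset.sum_sub_distrib, ← Finset.sum_mul, ← Finset.sum_mul,
    sum_mult, mul_div_cancel₀ _ dg_pos.ne']

lemma finsum_le {s : K} (hs : s ≠ 0) (T : Finset (HeightOneSpectrum (𝓞 K)))
    (g : HeightOneSpectrum (𝓞 K) → ℝ) (h : ∀ v, Real.log (fa v s) ≤ g v)
    (hg : ∀ v ∉ T, g v = 0) :
    ∑ᶠ v : HeightOneSpectrum (𝓞 K), Real.log (fa v s) ≤ ∑ v ∈ T, g v := by
  classical
  have hfin : (Function.support fun v : HeightOneSpectrum (𝓞 K) => Real.log (fa v s)).Finite := by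
    refine (Pool.Agent.Lib.MP_4d5ce1_nt.finite_fa_ne_one hs).subset ?_
    intro v hv h1
    exact hv (by simp only [h1, Real.log_one])
  rw [finsum_eq_sum_of_support_subset (s := hfin.toFinset ∪ T) _ (by
    intro v hv
    rw [Finset.coe_union, Set.Finite.coe_toFinset]
    exact Or.inl hv)]
  refine (Finset.sum_le_sum fun v _ => h v).trans (le_of_eq ?_)
  exact (Finset.sum_subset Finset.subset_union_right (fun v _ hv => hg v hv)).symm

lemma jp_eq_zero {q : ℕ} (Λ : Finset (Fin q)) (α : Fin q → Fin 2 → K) (u : Fin 2 → K)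
    (κ : HeightOneSpectrum (𝓞 K) →₀ (Fin q → ℕ)) {v : HeightOneSpectrum (𝓞 K)}
    (hv : v ∉ κ.support) : jp Λ α u κ v = 0 := by
  have h0 : κ v = 0 := by simpa using hv
  unfold jp
  rw [h0]
  simp

lemma tt_eq_zero {q : ℕ} (Λ : Finset (Fin q))
    (κ : HeightOneSpectrum (𝓞 K) →₀ (Fin q → ℕ)) {v : HeightOneSpectrum (𝓞 K)}
    (hv : v ∉ κ.support) : tt (κ v) Λ = 0 := by
  have h0 : κ v = 0 := by simpa using hv
  unfold tt
  rw [h0]
  simp

lemma wd_sub (u z z' : Fin 2 → K) : wd u (z - z') = wd u z - wd u z' := by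
  simp only [wd, Pi.sub_apply]
  ring

lemma eq_smul {u d : Fin 2 → K} (h : wd u d = 0) {i : Fin 2} (hi : u i ≠ 0) :
    d = (d i / u i) • u := by
  unfold wd at h
  have h1 : u 0 * d 1 = u 1 * d 0 := by linear_combination h
  fin_cases i
  · simp only [Fin.zero_eta, Fin.isValue] at hi ⊢
    funext j
    fin_cases j
    · simp [hi]
    · simp only [Pi.smul_apply, smul_eq_mul, Fin.mk_one, Fin.isValue]
      rw [div_mul_eq_mul_div, eq_div_iff hi]
      linear_combination h1
  · simp only [Fin.mk_one, Fin.isValue] at hi ⊢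
    funext j
    fin_cases j
    · simp only [Pi.smul_apply, smul_eq_mul, Fin.zero_eta, Fin.isValue]
      rw [div_mul_eq_mul_div, eq_div_iff hi]
      linear_combination -h1
    · simp [hi]

end

end SliceAux

open SliceAux in
theorem slice_bound (K : Type*) [Field K] [NumberField K] (q : ℕ) (Λ : Finset (Fin q))
    (hΛ : 2 ≤ Λ.card) (α : Fin q → Fin 2 → K)
    (hα : ∀ l ∈ Λ, ∀ l' ∈ Λ, l ≠ l' → wd (α l) (α l') ≠ 0) (C₀ A : ℝ) (hC₀ : 1 ≤ C₀)
    (hA : 1 ≤ A) :
    ∃ C : ℝ, 0 < C ∧
      ∀ (β : ℝ) (κ : HeightOneSpectrum (𝓞 K) →₀ (Fin q → ℕ)) (k : InfinitePlace K → Fin q → ℕ)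
      (Z : Finset (Fin 2 → K)),
      (∀ z ∈ Z, ∀ z' ∈ Z, InBox Λ α A β κ k (z - z')) →
      ∀ u : Fin 2 → K, Bal C₀ u → (∃ z ∈ Z, ∃ z' ∈ Z, z ≠ z' ∧ wd u (z - z') = 0) →
      ell Λ α u κ k ≤ β + C ∧
      (Z.card : ℝ) ≤ C * (Real.exp (β - ell Λ α u κ k) + Real.exp (2 * β - ind Λ κ k)) := by
  classical
  obtain ⟨bad1, c1, hc1, hline⟩ := line_local K q Λ hΛ α hα C₀ A hC₀ hA
  obtain ⟨bad2, c2, hc2, hpsi⟩ := psi_local K q Λ hΛ α hα C₀ A hC₀ hA
  obtain ⟨C1, hC1, hp1⟩ := packing_principle K (Fin 2 → K) 1 le_rfl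
  obtain ⟨C2, hC2, hp2⟩ := packing_principle K K 1 le_rfl
  set bad := bad1 ∪ bad2 with hbad
  set c := c1 + c2 with hc
  set M : ℝ := dg K * c + bad.card * c with hM
  have hdg : 0 < dg K := dg_pos
  have hc0 : 0 ≤ c := add_nonneg hc1 hc2
  have hM0 : 0 ≤ M := by positivity
  have hlocal1 : ∀ u : Fin 2 → K, Bal C₀ u → ∀ s : K, s ≠ 0 →
      ∀ (β : ℝ) (κ : HeightOneSpectrum (𝓞 K) →₀ (Fin q → ℕ)) (k : InfinitePlace K → Fin q → ℕ),
      InBox Λ α A β κ k (s • u) →
      (∀ v, Real.log (fa v s) ≤ -((jp Λ α u κ v : ℝ) * lnv v - err bad c v)) ∧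
      (∀ w : InfinitePlace K, Real.log (w s) ≤
        (β - logHeight u) / dg K - (ji Λ α u k w : ℝ) / (w.mult : ℝ) + c) := by
    intro u hu s hs β κ k hbox
    obtain ⟨h1, h2⟩ := hline u hu s hs β κ k hbox
    refine ⟨fun v => ?_, fun w => ?_⟩
    · have h3 := h1 v
      have h4 : err bad1 c1 v ≤ err bad c v :=
        err_le Finset.subset_union_left hc1 (le_add_of_nonneg_right hc2) v
      have h5 : (if v ∈ bad1 then c1 else 0) = err bad1 c1 v := by
        unfold err
        split_ifs <;> rfl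
      rw [h5] at h3
      linarith
    · have h3 := h2 w
      linarith
  have hlocal2 : ∀ u : Fin 2 → K, Bal C₀ u → ∀ z : Fin 2 → K, wd u z ≠ 0 →
      ∀ (β : ℝ) (κ : HeightOneSpectrum (𝓞 K) →₀ (Fin q → ℕ)) (k : InfinitePlace K → Fin q → ℕ),
      InBox Λ α A β κ k z →
      (∀ v, Real.log (fa v (wd u z)) ≤
        -(((tt (κ v) Λ : ℝ) - jp Λ α u κ v) * lnv v - err bad c v)) ∧
      (∀ w : InfinitePlace K, Real.log (w (wd u z)) ≤
        (β + logHeight u) / dg K - ((tt (k w) Λ : ℝ) - ji Λ α u k w) / (w.mult : ℝ) + c) := by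
    intro u hu z hz β κ k hbox
    obtain ⟨h1, h2⟩ := hpsi u hu z hz β κ k hbox
    refine ⟨fun v => ?_, fun w => ?_⟩
    · have h3 := h1 v
      have h4 : err bad2 c2 v ≤ err bad c v :=
        err_le Finset.subset_union_right hc2 (le_add_of_nonneg_left hc1) v
      have h5 : (if v ∈ bad2 then c2 else 0) = err bad2 c2 v := by
        unfold err
        split_ifs <;> rfl
      rw [h5] at h3
      linarith
    · have h3 := h2 w
      linarith
  refine ⟨M + C1 * C2 * Real.exp (2 * M), by positivity, ?_⟩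
  intro β κ k Z hZ u hu hex
  set T := κ.support ∪ bad with hT
  set h := logHeight u with hh
  -- the key exponent of the fibres
  have hsum1 : ∑ w : InfinitePlace K, (w.mult : ℝ) *
      ((β - h) / dg K - (ji Λ α u k w : ℝ) / (w.mult : ℝ) + c) -
      ∑ v ∈ T, ((jp Λ α u κ v : ℝ) * lnv v - err bad c v) = β - ell Λ α u κ k + M := by
    rw [sum_arch (β - h) c (fun w => (ji Λ α u k w : ℝ)),
      sum_T κ.support bad (fun v => (jp Λ α u κ v : ℝ) * lnv v) (fun v hv => by
        simp only [jp_eq_zero Λ α u κ hv, Nat.cast_zero, zero_mul]) c, ell, hM]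
    ring
  have hsum2 : ∑ w : InfinitePlace K, (w.mult : ℝ) *
      ((β + h) / dg K - ((tt (k w) Λ : ℝ) - ji Λ α u k w) / (w.mult : ℝ) + c) -
      ∑ v ∈ T, (((tt (κ v) Λ : ℝ) - jp Λ α u κ v) * lnv v - err bad c v) =
      β + ell Λ α u κ k - ind Λ κ k + M := by
    rw [sum_arch (β + h) c (fun w => (tt (k w) Λ : ℝ) - ji Λ α u k w),
      sum_T κ.support bad (fun v => ((tt (κ v) Λ : ℝ) - jp Λ α u κ v) * lnv v) (fun v hv => by
        simp only [jp_eq_zero Λ α u κ hv, tt_eq_zero Λ κ hv, Nat.cast_zero, sub_self,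
          zero_mul]) c, ell, ind, hM]
    simp only [sub_mul, Finset.sum_sub_distrib]
    ring
  have hlog_nonpos : ∀ {x : K}, x ≠ 0 → ∀ v, Real.log (fa v x) ≤ 0 → fa v x ≤ 1 := by
    intro x hx v hv
    exact (Real.log_nonpos_iff (Pool.Agent.Lib.MP_4d5ce1_nt.fa_nonneg v x)).1 hv
  obtain ⟨i, hi⟩ : ∃ i, u i ≠ 0 := by
    by_contra hcon
    push Not at hcon
    exact hu.ne (funext hcon)
  -- (1)
  have hell : ell Λ α u κ k ≤ β + M := by
    obtain ⟨z, hz, z', hz', hne, hwd⟩ := hex
    have hd := eq_smul hwd hi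
    set s := (z - z') i / u i with hs
    have hs0 : s ≠ 0 := by
      intro h0
      rw [h0, zero_smul] at hd
      exact hne (sub_eq_zero.1 hd)
    have hbox := hZ z hz z' hz'
    rw [hd] at hbox
    obtain ⟨h1, h2⟩ := hlocal1 u hu s hs0 β κ k hbox
    have h3 := Pool.Agent.Lib.MP_4d5ce1_nt.product_formula hs0
    have h4 := finsum_le hs0 T (fun v => -((jp Λ α u κ v : ℝ) * lnv v - err bad c v)) h1 (by
      intro v hv
      rw [hT, Finset.mem_union, not_or] at hv
      simp only [jp_eq_zero Λ α u κ hv.1, Nat.cast_zero, zero_mul, err, if_neg hv.2, sub_zero,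
        neg_zero])
    have h5 : ∑ w : InfinitePlace K, (w.mult : ℝ) * Real.log (w s) ≤
        ∑ w : InfinitePlace K, (w.mult : ℝ) *
          ((β - h) / dg K - (ji Λ α u k w : ℝ) / (w.mult : ℝ) + c) :=
      Finset.sum_le_sum fun w _ => mul_le_mul_of_nonneg_left (h2 w) (Nat.cast_nonneg _)
    rw [Finset.sum_neg_distrib] at h4
    linarith
  -- (2)
  have hfib : ∀ τ : K, ((Z.filter fun z => wd u z = τ).card : ℝ) ≤
      C1 * Real.exp (β - ell Λ α u κ k + M) := by
    intro τ
    rcases (Z.filter fun z => wd u z = τ).eq_empty_or_nonempty with he | ⟨z1, hz1⟩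
    · rw [he, Finset.card_empty, Nat.cast_zero]
      positivity
    rw [Finset.mem_filter] at hz1
    set s : (Fin 2 → K) → K := fun z => (z i - z1 i) / u i with hs
    have hsub : ∀ x ∈ Z.filter (fun z => wd u z = τ), ∀ y ∈ Z.filter (fun z => wd u z = τ),
        x - y = (s x - s y) • u := by
      intro x hx y hy
      rw [Finset.mem_filter] at hx hy
      have h1 : wd u (x - y) = 0 := by rw [wd_sub, hx.2, hy.2, sub_self]
      have h2 := eq_smul h1 hi
      have h3 : (x - y) i / u i = s x - s y := by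
        simp only [hs, Pi.sub_apply]
        ring
      rw [h3] at h2
      exact h2
    have hs1 : s z1 = 0 := by simp [hs]
    have hz1' : z1 ∈ Z.filter fun z => wd u z = τ := Finset.mem_filter.2 hz1
    have hloc : ∀ x ∈ Z.filter (fun z => wd u z = τ), ∀ y ∈ Z.filter (fun z => wd u z = τ),
        s x - s y ≠ 0 → (∀ v, Real.log (fa v (s x - s y)) ≤
          -((jp Λ α u κ v : ℝ) * lnv v - err bad c v)) ∧
        (∀ w : InfinitePlace K, Real.log (w (s x - s y)) ≤
          (β - h) / dg K - (ji Λ α u k w : ℝ) / (w.mult : ℝ) + c) := by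
      intro x hx y hy hne
      have hbox := hZ x (Finset.mem_filter.1 hx).1 y (Finset.mem_filter.1 hy).1
      rw [hsub x hx y hy] at hbox
      exact hlocal1 u hu _ hne β κ k hbox
    have hne : ∀ x ∈ Z.filter (fun z => wd u z = τ), ∀ y ∈ Z.filter (fun z => wd u z = τ),
        x ≠ y → s x - s y ≠ 0 := by
      intro x hx y hy hxy h0
      have h1 := hsub x hx y hy
      rw [h0, zero_smul] at h1
      exact hxy (sub_eq_zero.1 h1)
    have hmain := hp1 (Z.filter fun z => wd u z = τ) (fun x y => s x - s y) (fun _ x => s x)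
      (fun w => Real.exp ((β - h) / dg K - (ji Λ α u k w : ℝ) / (w.mult : ℝ) + c))
      (fun _ => 1) T (fun v => (jp Λ α u κ v : ℝ) * lnv v - err bad c v)
      (fun w => Real.exp_pos _) (fun w => one_pos) hne
      (fun x hx w => by
        by_cases h0 : s x = 0
        · simp only [h0, map_zero]
          exact (Real.exp_pos _).le
        · have h1 := (hloc x hx z1 hz1' (by rwa [hs1, sub_zero])).2 w
          rw [hs1, sub_zero] at h1
          exact (Real.log_le_iff_le_exp (InfinitePlace.pos_iff.2 h0)).1 h1)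
      (fun x hx y hy w => by rw [one_mul, one_mul])
      (fun x hx y hy hxy v hv => (hloc x hx y hy (hne x hx y hy hxy)).1 v)
      (fun x hx y hy hxy v hv => by
        have h1 := (hloc x hx y hy (hne x hx y hy hxy)).1 v
        rw [hT, Finset.mem_union, not_or] at hv
        rw [jp_eq_zero Λ α u κ hv.1, err, if_neg hv.2] at h1
        simp only [Nat.cast_zero, zero_mul, sub_zero, neg_zero] at h1
        exact hlog_nonpos (hne x hx y hy hxy) v h1)
    simp only [Real.log_exp, Real.log_one, add_zero] at hmain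
    rw [hsum1, max_eq_right (Real.one_le_exp (by linarith))] at hmain
    exact hmain
  -- (3)
  have himg : ((Z.image (wd u)).card : ℝ) ≤
      C2 * (1 + Real.exp (β + ell Λ α u κ k - ind Λ κ k + M)) := by
    rcases (Z.image (wd u)).eq_empty_or_nonempty with he | ⟨τ1, hτ1⟩
    · rw [he, Finset.card_empty, Nat.cast_zero]
      positivity
    have hloc : ∀ x ∈ Z.image (wd u), ∀ y ∈ Z.image (wd u),
        x - y ≠ 0 → (∀ v, Real.log (fa v (x - y)) ≤
          -(((tt (κ v) Λ : ℝ) - jp Λ α u κ v) * lnv v - err bad c v)) ∧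
        (∀ w : InfinitePlace K, Real.log (w (x - y)) ≤
          (β + h) / dg K - ((tt (k w) Λ : ℝ) - ji Λ α u k w) / (w.mult : ℝ) + c) := by
      intro x hx y hy hne
      obtain ⟨z, hz, rfl⟩ := Finset.mem_image.1 hx
      obtain ⟨z', hz', rfl⟩ := Finset.mem_image.1 hy
      rw [← wd_sub] at hne ⊢
      exact hlocal2 u hu _ hne β κ k (hZ z hz z' hz')
    have hmain := hp2 (Z.image (wd u)) (fun x y => x - y) (fun _ x => x - τ1)
      (fun w => Real.exp ((β + h) / dg K - ((tt (k w) Λ : ℝ) - ji Λ α u k w) / (w.mult : ℝ) + c))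
      (fun _ => 1) T (fun v => ((tt (κ v) Λ : ℝ) - jp Λ α u κ v) * lnv v - err bad c v)
      (fun w => Real.exp_pos _) (fun w => one_pos)
      (fun x hx y hy hxy => sub_ne_zero.2 hxy)
      (fun x hx w => by
        by_cases h0 : x - τ1 = 0
        · simp only [h0, map_zero]
          exact (Real.exp_pos _).le
        · exact (Real.log_le_iff_le_exp (InfinitePlace.pos_iff.2 h0)).1
            ((hloc x hx τ1 hτ1 h0).2 w))
      (fun x hx y hy w => by rw [one_mul, one_mul, sub_sub_sub_cancel_right])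
      (fun x hx y hy hxy v hv => (hloc x hx y hy (sub_ne_zero.2 hxy)).1 v)
      (fun x hx y hy hxy v hv => by
        have h1 := (hloc x hx y hy (sub_ne_zero.2 hxy)).1 v
        rw [hT, Finset.mem_union, not_or] at hv
        rw [jp_eq_zero Λ α u κ hv.1, tt_eq_zero Λ κ hv.1, err, if_neg hv.2] at h1
        simp only [Nat.cast_zero, sub_self, zero_mul, neg_zero] at h1
        exact hlog_nonpos (sub_ne_zero.2 hxy) v h1)
    simp only [Real.log_exp, Real.log_one, add_zero] at hmain
    rw [hsum2] at hmain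
    refine hmain.trans (mul_le_mul_of_nonneg_left ?_ hC2.le)
    exact max_le (le_add_of_nonneg_right (Real.exp_pos _).le) (le_add_of_nonneg_left zero_le_one)
  refine ⟨?_, ?_⟩
  · have h1 : 0 ≤ C1 * C2 * Real.exp (2 * M) := by positivity
    linarith
  · have hcard : (Z.card : ℝ) ≤ (Z.image (wd u)).card * (C1 * Real.exp (β - ell Λ α u κ k + M)) := by
      rw [Finset.card_eq_sum_card_image (wd u) Z]
      push_cast
      refine (Finset.sum_le_sum fun τ _ => hfib τ).trans (le_of_eq ?_)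
      rw [Finset.sum_const, nsmul_eq_mul]
    have h2 : (Z.card : ℝ) ≤ C2 * (1 + Real.exp (β + ell Λ α u κ k - ind Λ κ k + M)) *
        (C1 * Real.exp (β - ell Λ α u κ k + M)) :=
      hcard.trans (mul_le_mul_of_nonneg_right himg (by positivity))
    have h3 : C2 * (1 + Real.exp (β + ell Λ α u κ k - ind Λ κ k + M)) *
        (C1 * Real.exp (β - ell Λ α u κ k + M)) =
        C1 * C2 * (Real.exp M * Real.exp (β - ell Λ α u κ k) +
          Real.exp (2 * M) * Real.exp (2 * β - ind Λ κ k)) := by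
      have e1 : Real.exp (β - ell Λ α u κ k + M) = Real.exp M * Real.exp (β - ell Λ α u κ k) := by
        rw [← Real.exp_add]; ring_nf
      have e2 : Real.exp (β + ell Λ α u κ k - ind Λ κ k + M) *
          Real.exp (β - ell Λ α u κ k + M) =
          Real.exp (2 * M) * Real.exp (2 * β - ind Λ κ k) := by
        rw [← Real.exp_add, ← Real.exp_add]; ring_nf
      calc _ = C1 * C2 * (Real.exp (β - ell Λ α u κ k + M) +
            Real.exp (β + ell Λ α u κ k - ind Λ κ k + M) *
              Real.exp (β - ell Λ α u κ k + M)) := by ring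
        _ = _ := by rw [e2, e1]
    rw [h3] at h2
    have h4 : Real.exp M ≤ Real.exp (2 * M) := Real.exp_le_exp.2 (by linarith)
    have h5 : (0:ℝ) < C1 * C2 := by positivity
    have p1 := Real.exp_pos (β - ell Λ α u κ k)
    have p2 := Real.exp_pos (2 * β - ind Λ κ k)
    have h6 : Real.exp M * Real.exp (β - ell Λ α u κ k) ≤
        Real.exp (2 * M) * Real.exp (β - ell Λ α u κ k) := mul_le_mul_of_nonneg_right h4 p1.le
    calc (Z.card : ℝ) ≤ _ := h2
      _ ≤ C1 * C2 * (Real.exp (2 * M) * Real.exp (β - ell Λ α u κ k) +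
          Real.exp (2 * M) * Real.exp (2 * β - ind Λ κ k)) := by
          refine mul_le_mul_of_nonneg_left ?_ h5.le
          linarith
      _ = C1 * C2 * Real.exp (2 * M) * (Real.exp (β - ell Λ α u κ k) +
          Real.exp (2 * β - ind Λ κ k)) := by ring
      _ ≤ (M + C1 * C2 * Real.exp (2 * M)) * (Real.exp (β - ell Λ α u κ k) +
          Real.exp (2 * β - ind Λ κ k)) := by
          refine mul_le_mul_of_nonneg_right ?_ (by positivity)
          linarith

end Pool.Agent.Lib.MP_44a246_nt.HP
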