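import Pool.Agent.Lib.MP_44a246_nt.HP.Defs

set_option autoImplicit false

open NumberField IsDedekindDomain Height
open Pool.Agent.Lib.MP_4d5ce1_nt (ordv fa nv)

namespace Pool.Agent.Lib.MP_44a246_nt.HP

/-! ## HP-14 -/

private lemma sc_lf_add {K : Type*} [Field K] {m : ℕ} (a u v : Fin m → K) :
    lf a (u + v) = lf a u + lf a v := by
  unfold lf
  rw [← Finset.sum_add_distrib]
  exact Finset.sum_congr rfl fun i _ => by rw [Pi.add_apply, mul_add]

private lemma sc_lf_smul {K : Type*} [Field K] {m : ℕ} (a u : Fin m → K) (c : K) :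
    lf a (c • u) = c * lf a u := by
  unfold lf
  rw [Finset.mul_sum]
  exact Finset.sum_congr rfl fun i _ => by rw [Pi.smul_apply, smul_eq_mul]; ring

private lemma sc_aux {K : Type*} [Field K] {n q : ℕ} {a : Fin q → Fin (n + 1) → K}
    (ha : ∀ s : Fin (n + 1) → Fin q, Function.Injective s → LinearIndependent K fun i => a (s i))
    (T : Finset (Fin q)) (hT : T.card = n + 1) :
    (∀ u : Fin (n + 1) → K, (∀ t ∈ T, lf (a t) u = 0) → u = 0) ∧
      ∀ v : Fin q → K, ∃ u : Fin (n + 1) → K, ∀ t ∈ T, lf (a t) u = v t := by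
  set e := T.equivFinOfCardEq hT with he
  set s : Fin (n + 1) → Fin q := fun i => (e.symm i : Fin q) with hs
  have hsi : Function.Injective s := Subtype.val_injective.comp e.symm.injective
  have hst : ∀ t (ht : t ∈ T), s (e ⟨t, ht⟩) = t := by
    intro t ht
    rw [hs]
    simp only [Equiv.symm_apply_apply]
  have hsT : ∀ i, s i ∈ T := fun i => (e.symm i).2
  set A : Matrix (Fin (n + 1)) (Fin (n + 1)) K := Matrix.of (fun i => a (s i)) with hA
  have hunit : IsUnit A := by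
    rw [← Matrix.linearIndependent_rows_iff_isUnit]
    exact ha s hsi
  have hdet : IsUnit A.det := (Matrix.isUnit_iff_isUnit_det A).1 hunit
  have hmul : ∀ u i, (A.mulVec u) i = lf (a (s i)) u := fun u i => rfl
  constructor
  · intro u hu
    have h1 : A.mulVec u = 0 := by
      funext i
      rw [hmul]
      exact hu _ (hsT i)
    have h2 : (A⁻¹).mulVec (A.mulVec u) = u := by
      rw [Matrix.mulVec_mulVec, Matrix.nonsing_inv_mul A hdet, Matrix.one_mulVec]
    rw [← h2, h1, Matrix.mulVec_zero]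
  · intro v
    refine ⟨(A⁻¹).mulVec (fun i => v (s i)), fun t ht => ?_⟩
    have h1 := hmul ((A⁻¹).mulVec (fun i => v (s i))) (e ⟨t, ht⟩)
    rw [Matrix.mulVec_mulVec, Matrix.mul_nonsing_inv A hdet, Matrix.one_mulVec] at h1
    simp only [hst t ht] at h1
    exact h1.symm

theorem slice_coords (K : Type*) [Field K] (n q : ℕ) (hn : 2 ≤ n) (hq : n + 1 ≤ q)
    (a : Fin q → Fin (n + 1) → K)
    (ha : ∀ s : Fin (n + 1) → Fin q, Function.Injective s → LinearIndependent K fun i => a (s i))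
    (F : Finset (Fin q)) (hF : F.card = n - 1) :
    ∃ (l₁ l₂ : Fin q) (α : Fin q → Fin 2 → K), l₁ ∈ Fᶜ ∧ l₂ ∈ Fᶜ ∧ l₁ ≠ l₂ ∧
      (∀ u : Fin (n + 1) → K, (∀ g ∈ F, lf (a g) u = 0) → ∀ l ∈ Fᶜ,
        lf (a l) u = lf (α l) ![lf (a l₁) u, lf (a l₂) u]) ∧
      (∀ l ∈ Fᶜ, ∀ l' ∈ Fᶜ, l ≠ l' → wd (α l) (α l') ≠ 0) ∧
      (∀ u : Fin (n + 1) → K, (∀ g ∈ F, lf (a g) u = 0) → lf (a l₁) u = 0 → lf (a l₂) u = 0 →
        u = 0) := by
  have hFc : 1 < Fᶜ.card := by
    rw [Finset.card_compl, Fintype.card_fin, hF]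
    omega
  obtain ⟨l₁, h₁, l₂, h₂, h12⟩ := Finset.one_lt_card.1 hFc
  have hcard : ∀ l ∈ Fᶜ, ∀ l' ∈ Fᶜ, l ≠ l' → (insert l (insert l' F)).card = n + 1 := by
    intro l hl l' hl' hne
    rw [Finset.mem_compl] at hl hl'
    rw [Finset.card_insert_of_notMem, Finset.card_insert_of_notMem hl', hF]
    · omega
    · rw [Finset.mem_insert]
      rintro (h | h)
      · exact hne h
      · exact hl h
  -- vectors killed by everything vanish
  have hzero : ∀ l ∈ Fᶜ, ∀ l' ∈ Fᶜ, l ≠ l' → ∀ u : Fin (n + 1) → K, (∀ g ∈ F, lf (a g) u = 0) →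
      lf (a l) u = 0 → lf (a l') u = 0 → u = 0 := by
    intro l hl l' hl' hne u hu h h'
    refine (sc_aux ha _ (hcard l hl l' hl' hne)).1 u fun t ht => ?_
    rw [Finset.mem_insert, Finset.mem_insert] at ht
    rcases ht with rfl | rfl | ht
    · exact h
    · exact h'
    · exact hu t ht
  -- the dual basis of the slice
  have hex : ∀ x y : K, ∃ u : Fin (n + 1) → K, (∀ g ∈ F, lf (a g) u = 0) ∧ lf (a l₁) u = x ∧
      lf (a l₂) u = y := by
    intro x y
    obtain ⟨u, hu⟩ := (sc_aux ha _ (hcard l₁ h₁ l₂ h₂ h12)).2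
      (fun t => if t = l₁ then x else if t = l₂ then y else 0)
    rw [Finset.mem_compl] at h₁ h₂
    refine ⟨u, fun g hg => ?_, ?_, ?_⟩
    · rw [hu g (Finset.mem_insert_of_mem (Finset.mem_insert_of_mem hg)), if_neg, if_neg]
      · rintro rfl
        exact h₂ hg
      · rintro rfl
        exact h₁ hg
    · rw [hu l₁ (Finset.mem_insert_self _ _), if_pos rfl]
    · rw [hu l₂ (Finset.mem_insert_of_mem (Finset.mem_insert_self _ _)), if_neg h12.symm,
        if_pos rfl]
  obtain ⟨e₁, he1, he11, he12⟩ := hex 1 0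
  obtain ⟨e₂, he2, he21, he22⟩ := hex 0 1
  have hlf2 : ∀ (b : Fin 2 → K) (x y : K), lf b ![x, y] = b 0 * x + b 1 * y := by
    intro b x y
    unfold lf
    rw [Fin.sum_univ_two]
    rfl
  have hF' : ∀ x y : K, ∀ g ∈ F, lf (a g) (x • e₁ + y • e₂) = 0 := by
    intro x y g hg
    rw [sc_lf_add, sc_lf_smul, sc_lf_smul, he1 g hg, he2 g hg, mul_zero, mul_zero, add_zero]
  refine ⟨l₁, l₂, fun l => ![lf (a l) e₁, lf (a l) e₂], h₁, h₂, h12, ?_, ?_, hzero l₁ h₁ l₂ h₂ h12⟩
  · intro u hu l _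
    have hu' : u + (-1 : K) • (lf (a l₁) u • e₁ + lf (a l₂) u • e₂) = 0 := by
      refine hzero l₁ h₁ l₂ h₂ h12 _ (fun g hg => ?_) ?_ ?_
      · rw [sc_lf_add, sc_lf_smul, hF' _ _ g hg, hu g hg, mul_zero, add_zero]
      · rw [sc_lf_add, sc_lf_smul, sc_lf_add, sc_lf_smul, sc_lf_smul, he11, he21]
        ring
      · rw [sc_lf_add, sc_lf_smul, sc_lf_add, sc_lf_smul, sc_lf_smul, he12, he22]
        ring
    have h0 : lf (a l) (u + (-1 : K) • (lf (a l₁) u • e₁ + lf (a l₂) u • e₂)) = 0 := by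
      rw [hu']
      unfold lf
      simp
    rw [sc_lf_add, sc_lf_smul, sc_lf_add, sc_lf_smul, sc_lf_smul] at h0
    rw [hlf2]
    change lf (a l) u = lf (a l) e₁ * lf (a l₁) u + lf (a l) e₂ * lf (a l₂) u
    linear_combination h0
  · intro l hl l' hl' hne hwd
    -- a common zero gives a contradiction
    have key : ∀ x y : K, lf (a l) e₁ * x + lf (a l) e₂ * y = 0 →
        lf (a l') e₁ * x + lf (a l') e₂ * y = 0 → x = 0 ∧ y = 0 := by
      intro x y hx hy
      have h0 : x • e₁ + y • e₂ = 0 := by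
        refine hzero l hl l' hl' hne _ (hF' x y) ?_ ?_
        · rw [sc_lf_add, sc_lf_smul, sc_lf_smul]
          linear_combination hx
        · rw [sc_lf_add, sc_lf_smul, sc_lf_smul]
          linear_combination hy
      have e1 : lf (a l₁) (x • e₁ + y • e₂) = x := by
        rw [sc_lf_add, sc_lf_smul, sc_lf_smul, he11, he21]
        ring
      have e2 : lf (a l₂) (x • e₁ + y • e₂) = y := by
        rw [sc_lf_add, sc_lf_smul, sc_lf_smul, he12, he22]
        ring
      have hz : ∀ b : Fin (n + 1) → K, lf b 0 = 0 := by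
        intro b
        unfold lf
        simp
      rw [h0, hz] at e1 e2
      exact ⟨e1.symm, e2.symm⟩
    have hwd' : lf (a l) e₁ * lf (a l') e₂ - lf (a l) e₂ * lf (a l') e₁ = 0 := hwd
    have h1 := key (-(lf (a l) e₂)) (lf (a l) e₁) (by ring) (by linear_combination hwd')
    have h2 := key (-(lf (a l') e₂)) (lf (a l') e₁) (by linear_combination (-1 : K) * hwd')
      (by ring)
    have h3 := key 1 0 (by rw [h1.2]; ring) (by rw [h2.2]; ring)
    exact one_ne_zero h3.1

end Pool.Agent.Lib.MP_44a246_nt.HP
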