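import Pool.Agent.Lib.MP_44a246_nt.HP.Balance
import Pool.Agent.Lib.MP_44a246_nt.HP.Slice
import Pool.Agent.Lib.MP_44a246_nt.HP.Coord
import Pool.Agent.Lib.MP_44a246_nt.HP.SliceCoords
import Pool.Agent.Lib.MP_44a246_nt.HP.MidSum

set_option autoImplicit false

open NumberField IsDedekindDomain Height
open Pool.Agent.Lib.MP_4d5ce1_nt (ordv fa nv)

namespace Pool.Agent.Lib.MP_44a246_nt.HP

/-! ## HP-15 -/

private lemma fx_lf_sub {K : Type*} [Field K] [NumberField K] {m : ℕ} (a y y' : Fin m → K) :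
    lf a (y - y') = lf a y - lf a y' := by
  simp only [lf, Pi.sub_apply, mul_sub, Finset.sum_sub_distrib]

private lemma fx_wd_smul {K : Type*} [Field K] [NumberField K] (t s : K) (z z' : Fin 2 → K) :
    wd (t • z) (s • z') = t * s * wd z z' := by
  simp only [wd, Pi.smul_apply, smul_eq_mul]
  ring

private lemma fx_prop {K : Type*} [Field K] [NumberField K] {z z' : Fin 2 → K} (hz : z ≠ 0)
    (hz' : z' ≠ 0) (h : wd z z' = 0) : ∃ s : K, s ≠ 0 ∧ z' = s • z := by
  have h' : z 0 * z' 1 = z 1 * z' 0 := by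
    have := h
    simp only [wd] at this
    exact sub_eq_zero.1 this
  have key : ∃ s : K, z' = s • z := by
    by_cases h0 : z 0 = 0
    · have h1 : z 1 ≠ 0 := by
        intro h1
        apply hz
        funext i
        fin_cases i
        · exact h0
        · exact h1
      refine ⟨z' 1 / z 1, ?_⟩
      funext i
      fin_cases i
      · have : z' 0 = 0 := by
          rw [h0, zero_mul] at h'
          exact (mul_eq_zero.1 h'.symm).resolve_left h1
        simp [this, h0]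
      · simp [h1]
    · refine ⟨z' 0 / z 0, ?_⟩
      funext i
      fin_cases i
      · simp [h0]
      · simp only [Fin.mk_one, Pi.smul_apply, smul_eq_mul]
        field_simp
        linear_combination h'
  obtain ⟨s, hs⟩ := key
  refine ⟨s, ?_, hs⟩
  rintro rfl
  exact hz' (by rw [hs, zero_smul])

private lemma fx_dir {K : Type*} [Field K] [NumberField K] {C₀ : ℝ}
    (hbal : ∀ x : Fin 2 → K, x ≠ 0 → ∃ t : K, t ≠ 0 ∧ Bal C₀ (t • x)) :
    ∃ Uf : (Fin 2 → K) → (Fin 2 → K),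
      (∀ z, z ≠ 0 → Bal C₀ (Uf z) ∧ ∃ t : K, t ≠ 0 ∧ Uf z = t • z) ∧
      (∀ z z', z ≠ 0 → z' ≠ 0 → Uf z ≠ Uf z' → wd (Uf z) (Uf z') ≠ 0) := by
  classical
  let g : Projectivization K (Fin 2 → K) → (Fin 2 → K) :=
    fun P => (hbal P.rep P.rep_nonzero).choose • P.rep
  have hg : ∀ P, (hbal P.rep P.rep_nonzero).choose ≠ 0 ∧ Bal C₀ (g P) :=
    fun P => (hbal P.rep P.rep_nonzero).choose_spec
  let Uf : (Fin 2 → K) → (Fin 2 → K) :=
    fun z => if hz : z ≠ 0 then g (Projectivization.mk K z hz) else 0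
  have hUf : ∀ z (hz : z ≠ 0), Uf z = g (Projectivization.mk K z hz) := fun z hz => by
    simp only [Uf, dif_pos hz]
  have h1 : ∀ z, z ≠ 0 → Bal C₀ (Uf z) ∧ ∃ t : K, t ≠ 0 ∧ Uf z = t • z := by
    intro z hz
    rw [hUf z hz]
    refine ⟨(hg _).2, ?_⟩
    obtain ⟨b, hb⟩ := Projectivization.exists_smul_eq_mk_rep K z hz
    refine ⟨(hbal (Projectivization.mk K z hz).rep
      (Projectivization.mk K z hz).rep_nonzero).choose * (b : K), mul_ne_zero (hg _).1 b.ne_zero, ?_⟩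
    rw [mul_smul]
    change _ • _ = _
    congr 1
    rw [← hb, Units.smul_def]
  refine ⟨Uf, h1, ?_⟩
  intro z z' hz hz' hne hw
  apply hne
  obtain ⟨t, ht, h2⟩ := (h1 z hz).2
  obtain ⟨t', ht', h3⟩ := (h1 z' hz').2
  rw [h2, h3, fx_wd_smul] at hw
  have hw' : wd z z' = 0 := (mul_eq_zero.1 hw).resolve_left (mul_ne_zero ht ht')
  obtain ⟨s, hs, h4⟩ := fx_prop hz hz' hw'
  rw [hUf z hz, hUf z' hz']
  congr 1
  rw [Projectivization.mk_eq_mk_iff']
  exact ⟨s⁻¹, by rw [h4, smul_smul, inv_mul_cancel₀ hs, one_smul]⟩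

private lemma fx_exp (x y : ℝ) (h : y ≤ 2 * x) (β : ℝ) :
    Real.exp (β - x) ≤ 1 + Real.exp (2 * β - y) := by
  have h1 : Real.exp (β - x) ≤ 1 + Real.exp (2 * (β - x)) := by
    have h2 : Real.exp (2 * (β - x)) = Real.exp (β - x) ^ 2 := by
      rw [two_mul, Real.exp_add, sq]
    rw [h2]
    nlinarith [Real.exp_pos (β - x), sq_nonneg (Real.exp (β - x) - 1)]
  have h3 : Real.exp (2 * (β - x)) ≤ Real.exp (2 * β - y) := by
    apply Real.exp_le_exp.2
    linarith
  linarith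

/-- number of slices -/
private lemma fx_slices (K : Type*) [Field K] [NumberField K] {n q : ℕ}
    (a : Fin q → Fin (n + 1) → K) (F : Finset (Fin q)) (A Cc : ℝ)
    (hcoord : ∀ (β : ℝ) (κ : HeightOneSpectrum (𝓞 K) →₀ ℕ)
      (k : InfinitePlace K → ℕ) (U : Finset K),
      (∀ u ∈ U, u ≠ 0) →
      (∀ u ∈ U, ∀ v, fa v u ≤ (nv v ^ (κ v))⁻¹) →
      (∀ u ∈ U, ∀ w : InfinitePlace K, w u ≤
        A * Real.exp (β / dg K - (k w : ℝ) / (w.mult : ℝ))) →
      (U.card : ℝ) ≤ Cc * Real.exp (β - ∑ v ∈ κ.support, (κ v : ℝ) * lnv v - ∑ w, (k w : ℝ)))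
    (β : ℝ) (κ : HeightOneSpectrum (𝓞 K) →₀ (Fin q → ℕ)) (k : InfinitePlace K → Fin q → ℕ)
    (Y : Finset (Fin (n + 1) → K)) (hne : ∀ y ∈ Y, ∀ l, lf (a l) y ≠ 0)
    (hbox : ∀ y ∈ Y, InBox Finset.univ a A β κ k y)
    (S : Finset (Fin q → K))
    (hS : ∀ s ∈ S, (∀ g, g ∉ F → s g = 0) ∧ ∃ y ∈ Y, ∀ g ∈ F, s g = lf (a g) y) :
    (S.card : ℝ) ≤ Cc ^ F.card * Real.exp (F.card * β - phi F κ k) := by
  classical
  let U : Fin q → Finset K := fun g => if g ∈ F then Y.image (lf (a g)) else {0}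
  have hsub : S ⊆ Fintype.piFinset U := by
    intro s hs
    obtain ⟨h0, y, hy, h1⟩ := hS s hs
    rw [Fintype.mem_piFinset]
    intro g
    by_cases hg : g ∈ F
    · simp only [U, if_pos hg]
      rw [h1 g hg]
      exact Finset.mem_image_of_mem _ hy
    · simp only [U, if_neg hg]
      rw [h0 g hg]
      exact Finset.mem_singleton_self _
  have hcard : (S.card : ℝ) ≤ ∏ g, ((U g).card : ℝ) := by
    have := Finset.card_le_card hsub
    rw [Fintype.card_piFinset] at this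
    exact_mod_cast this
  have hprod : ∏ g, ((U g).card : ℝ) = ∏ g ∈ F, ((Y.image (lf (a g))).card : ℝ) := by
    rw [← Finset.prod_subset (Finset.subset_univ F)]
    · refine Finset.prod_congr rfl fun g hg => ?_
      simp only [U, if_pos hg]
    · intro g _ hg
      simp only [U, if_neg hg, Finset.card_singleton, Nat.cast_one]
  have hone : ∀ g ∈ F, ((Y.image (lf (a g))).card : ℝ) ≤
      Cc * Real.exp (β - ∑ v ∈ κ.support, (κ v g : ℝ) * lnv v - ∑ w, (k w g : ℝ)) := by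
    intro g _
    let κg : HeightOneSpectrum (𝓞 K) →₀ ℕ := κ.mapRange (fun e => e g) rfl
    have hκg : ∀ v, κg v = κ v g := fun v => Finsupp.mapRange_apply ..
    have h := hcoord β κg (fun w => k w g) (Y.image (lf (a g))) ?_ ?_ ?_
    · have hs : ∑ v ∈ κg.support, (κg v : ℝ) * lnv v =
          ∑ v ∈ κ.support, (κ v g : ℝ) * lnv v := by
        have hsub' : κg.support ⊆ κ.support := by
          intro v hv
          rw [Finsupp.mem_support_iff] at hv ⊢
          intro h0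
          apply hv
          rw [hκg, h0]
          rfl
        rw [Finset.sum_subset hsub']
        · refine Finset.sum_congr rfl fun v _ => ?_
          rw [hκg]
        · intro v _ hv
          rw [Finsupp.notMem_support_iff.1 hv]
          simp
      rw [hs] at h
      exact h
    · intro u hu
      obtain ⟨y, hy, rfl⟩ := Finset.mem_image.1 hu
      exact hne y hy g
    · intro u hu v
      obtain ⟨y, hy, rfl⟩ := Finset.mem_image.1 hu
      rw [hκg]
      exact (hbox y hy).fin v g (Finset.mem_univ _)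
    · intro u hu w
      obtain ⟨y, hy, rfl⟩ := Finset.mem_image.1 hu
      exact (hbox y hy).inf w g (Finset.mem_univ _)
  calc (S.card : ℝ) ≤ ∏ g ∈ F, ((Y.image (lf (a g))).card : ℝ) := hcard.trans_eq hprod
    _ ≤ ∏ g ∈ F, (Cc * Real.exp (β - ∑ v ∈ κ.support, (κ v g : ℝ) * lnv v -
          ∑ w, (k w g : ℝ))) :=
        Finset.prod_le_prod (fun g _ => Nat.cast_nonneg _) hone
    _ = Cc ^ F.card * Real.exp (F.card * β - phi F κ k) := by
        rw [Finset.prod_mul_distrib, Finset.prod_const, ← Real.exp_sum]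
        congr 2
        rw [Finset.sum_sub_distrib, Finset.sum_sub_distrib, Finset.sum_const, nsmul_eq_mul, phi,
          Finset.sum_comm, Finset.sum_comm (s := F) (t := Finset.univ)]
        have e1 : ∀ v : HeightOneSpectrum (𝓞 K), ∑ x ∈ F, (κ v x : ℝ) * lnv v =
            ((∑ g ∈ F, κ v g : ℕ) : ℝ) * lnv v := by
          intro v
          rw [← Finset.sum_mul]
          push_cast
          rfl
        have e2 : ∀ w : InfinitePlace K, ∑ x ∈ F, (k w x : ℝ) =
            ((∑ g ∈ F, k w g : ℕ) : ℝ) := by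
          intro w
          push_cast
          rfl
        simp only [e1, e2]
        ring

/-- one slice -/
private lemma fx_fibre (K : Type*) [Field K] [NumberField K] {n q : ℕ}
    (a : Fin q → Fin (n + 1) → K) (F : Finset (Fin q)) (l₁ l₂ : Fin q) (α : Fin q → Fin 2 → K)
    (hc : ∀ u : Fin (n + 1) → K, (∀ g ∈ F, lf (a g) u = 0) → ∀ l ∈ Fᶜ,
        lf (a l) u = lf (α l) ![lf (a l₁) u, lf (a l₂) u])
    (hi : ∀ u : Fin (n + 1) → K, (∀ g ∈ F, lf (a g) u = 0) → lf (a l₁) u = 0 →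
        lf (a l₂) u = 0 → u = 0)
    (C₀ A Cs : ℝ) (hCs : 0 < Cs)
    (Uf : (Fin 2 → K) → (Fin 2 → K))
    (hUf : ∀ z, z ≠ 0 → Bal C₀ (Uf z) ∧ ∃ t : K, t ≠ 0 ∧ Uf z = t • z)
    (β : ℝ) (κ : HeightOneSpectrum (𝓞 K) →₀ (Fin q → ℕ)) (k : InfinitePlace K → Fin q → ℕ)
    (hslice : ∀ Z : Finset (Fin 2 → K),
      (∀ z ∈ Z, ∀ z' ∈ Z, InBox Fᶜ α (2 * A) β κ k (z - z')) →
      ∀ u : Fin 2 → K, Bal C₀ u → (∃ z ∈ Z, ∃ z' ∈ Z, z ≠ z' ∧ wd u (z - z') = 0) →
      ell Fᶜ α u κ k ≤ β + Cs ∧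
      (Z.card : ℝ) ≤ Cs * (Real.exp (β - ell Fᶜ α u κ k) + Real.exp (2 * β - ind Fᶜ κ k)))
    (Y : Finset (Fin (n + 1) → K))
    (hbox : ∀ y ∈ Y, InBox Finset.univ a A β κ k y)
    (hsl : ∀ y ∈ Y, ∀ y' ∈ Y, ∀ g ∈ F, lf (a g) y = lf (a g) y') :
    ((Y.card : ℝ) ≤ 2 * (Cs + 1) * (1 + Real.exp (2 * β - ind Fᶜ κ k))) ∨
    ∃ z : Fin 2 → K, z ≠ 0 ∧ ell Fᶜ α (Uf z) κ k ≤ β + Cs ∧
      2 * ell Fᶜ α (Uf z) κ k < ind Fᶜ κ k ∧
      (Y.card : ℝ) ≤ 2 * (Cs + 1) * (1 + Real.exp (2 * β - ind Fᶜ κ k)) +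
        2 * (Cs + 1) * Real.exp (β - ell Fᶜ α (Uf z) κ k) := by
  classical
  set zf : (Fin (n + 1) → K) → (Fin 2 → K) := fun y => ![lf (a l₁) y, lf (a l₂) y] with hzf
  have hzsub : ∀ y y', zf y - zf y' = ![lf (a l₁) (y - y'), lf (a l₂) (y - y')] := by
    intro y y'
    funext i
    fin_cases i <;> simp [hzf, fx_lf_sub]
  have hker : ∀ y ∈ Y, ∀ y' ∈ Y, ∀ g ∈ F, lf (a g) (y - y') = 0 := by
    intro y hy y' hy' g hg
    rw [fx_lf_sub, hsl y hy y' hy' g hg, sub_self]
  have hinj : Set.InjOn zf (Y : Set (Fin (n + 1) → K)) := by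
    intro y hy y' hy' h
    have h0 : zf y - zf y' = 0 := sub_eq_zero.2 h
    rw [hzsub] at h0
    have h1 : lf (a l₁) (y - y') = 0 := by simpa using congrFun h0 0
    have h2 : lf (a l₂) (y - y') = 0 := by simpa using congrFun h0 1
    exact sub_eq_zero.1 (hi _ (hker y hy y' hy') h1 h2)
  have hcardZ : (Y.image zf).card = Y.card := Finset.card_image_of_injOn hinj
  have hE : 0 < Real.exp (2 * β - ind Fᶜ κ k) := Real.exp_pos _
  by_cases hcard : Y.card ≤ 1
  · left
    have : (Y.card : ℝ) ≤ 1 := by exact_mod_cast hcard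
    nlinarith
  · push Not at hcard
    obtain ⟨y, hy, y', hy', hyy⟩ := Finset.one_lt_card.1 hcard
    have hzne : zf y ≠ zf y' := fun h => hyy (hinj hy hy' h)
    have hz0 : zf y - zf y' ≠ 0 := sub_ne_zero.2 hzne
    obtain ⟨hb, t, ht, hut⟩ := hUf _ hz0
    have hboxZ : ∀ z ∈ Y.image zf, ∀ z' ∈ Y.image zf, InBox Fᶜ α (2 * A) β κ k (z - z') := by
      intro z hz z' hz'
      obtain ⟨x, hx, rfl⟩ := Finset.mem_image.1 hz
      obtain ⟨x', hx', rfl⟩ := Finset.mem_image.1 hz'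
      have hval : ∀ l ∈ Fᶜ, lf (α l) (zf x - zf x') = lf (a l) x - lf (a l) x' := by
        intro l hl
        rw [hzsub, ← hc _ (hker x hx x' hx') l hl, fx_lf_sub]
      constructor
      · intro v l hl
        rw [hval l hl]
        exact (Pool.Agent.Lib.MP_4d5ce1_nt.fa_sub_le v _ _).trans (max_le
          ((hbox x hx).fin v l (Finset.mem_univ _)) ((hbox x' hx').fin v l (Finset.mem_univ _)))
      · intro w l hl
        rw [hval l hl]
        have h1 := (hbox x hx).inf w l (Finset.mem_univ _)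
        have h2 := (hbox x' hx').inf w l (Finset.mem_univ _)
        have h3 : w (lf (a l) x - lf (a l) x') ≤ w (lf (a l) x) + w (lf (a l) x') := by
          have := w.1.add_le (lf (a l) x) (-(lf (a l) x'))
          rw [← sub_eq_add_neg, AbsoluteValue.map_neg] at this
          exact this
        linarith
    obtain ⟨he, hZ⟩ := hslice (Y.image zf) hboxZ (Uf (zf y - zf y')) hb
      ⟨zf y, Finset.mem_image_of_mem _ hy, zf y', Finset.mem_image_of_mem _ hy', hzne, by
        rw [hut]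
        simp only [wd, Pi.smul_apply, smul_eq_mul]
        ring⟩
    rw [hcardZ] at hZ
    by_cases hcase : ind Fᶜ κ k ≤ 2 * ell Fᶜ α (Uf (zf y - zf y')) κ k
    · left
      have h1 := fx_exp _ _ hcase β
      nlinarith
    · right
      push Not at hcase
      refine ⟨zf y - zf y', hz0, he, hcase, ?_⟩
      have hP : 0 < Real.exp (β - ell Fᶜ α (Uf (zf y - zf y')) κ k) := Real.exp_pos _
      nlinarith

theorem fixed_F (K : Type*) [Field K] [NumberField K] (n q : ℕ) (hn : 2 ≤ n) (hq : n + 1 ≤ q)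
    (a : Fin q → Fin (n + 1) → K)
    (ha : ∀ s : Fin (n + 1) → Fin q, Function.Injective s → LinearIndependent K fun i => a (s i))
    (F : Finset (Fin q)) (hF : F.card = n - 1) :
    ∃ bad₀ : Finset (HeightOneSpectrum (𝓞 K)), ∀ bad, bad₀ ⊆ bad → ∀ A η : ℝ, 1 ≤ A → 0 < η →
      ∃ C : ℝ, 0 < C ∧ ∀ β D₂ : ℝ, 0 ≤ β → D₂ ≤ 1 →
      ∀ (Y : Finset (Fin (n + 1) → K))
        (κ : (Fin (n + 1) → K) → HeightOneSpectrum (𝓞 K) →₀ (Fin q → ℕ))
        (k : (Fin (n + 1) → K) → InfinitePlace K → Fin q → ℕ),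
      (∀ y ∈ Y, ∀ l, lf (a l) y ≠ 0) →
      (∀ y ∈ Y, InBox Finset.univ a A β (κ y) (k y) y) →
      (∀ y ∈ Y, KeyOK F bad A β D₂ (κ y) (k y)) →
      (Y.card : ℝ) ≤ C * Real.exp ((n + 1 - D₂ + η) * β) := by
  classical
  obtain ⟨l₁, l₂, α, -, -, -, hc, hwd, hi⟩ := slice_coords K n q hn hq a ha F hF
  obtain ⟨C₀, hC₀, hbal⟩ := exists_bal K 2
  obtain ⟨Uf, hUf, hUf'⟩ := fx_dir hbal
  have hFc : 2 ≤ Fᶜ.card := by
    rw [Finset.card_compl, Fintype.card_fin, hF]
    omega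
  obtain ⟨bad₁, hmid⟩ := mid_sum K q F hFc α hwd C₀ hC₀
  refine ⟨bad₁, fun bad hbad A η hA hη => ?_⟩
  obtain ⟨Cc, hCc, hcoord⟩ := coord_card K A hA
  obtain ⟨Cs, hCs, hslice⟩ := slice_bound K q Fᶜ hFc α hwd C₀ (2 * A) hC₀ (by linarith)
  set A' : ℝ := A + Cs with hA'
  have hA'1 : A ≤ A' := by linarith
  obtain ⟨Cm, hCm, hmid'⟩ := hmid bad hbad A' η (by linarith) hη
  obtain ⟨Ck, hCk, hkey⟩ := key_sum K (Fin q) A η (by linarith) hη
  set G : ℝ := Cc ^ (n - 1) with hG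
  have hG0 : 0 < G := pow_pos hCc _
  set Bd : ℝ := Real.exp (∑ v ∈ bad, lnv v) with hBd
  have hBd0 : 0 < Bd := Real.exp_pos _
  set Q : ℝ := 2 * (Cs + 1) with hQ
  have hQ0 : 0 < Q := by positivity
  refine ⟨Q * (G * (2 * Real.exp A * Bd * Ck)) + Q * (G * Cm), by positivity, ?_⟩
  intro β D₂ hβ hD₂ Y κ k hne hbox hok
  -- keys and slices
  set kk : (Fin (n + 1) → K) → (HeightOneSpectrum (𝓞 K) →₀ (Fin q → ℕ)) ×
    (InfinitePlace K → Fin q → ℕ) := fun y => (κ y, k y) with hkk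
  set cc : (Fin (n + 1) → K) → (Fin q → K) := fun y g => if g ∈ F then lf (a g) y else 0
    with hcc
  set R := Y.image (fun y => (kk y, cc y)) with hR
  have hYc : (Y.card : ℝ) =
      ∑ r ∈ R, (((Y.filter fun y => (kk y, cc y) = r).card : ℕ) : ℝ) := by
    rw [Finset.card_eq_sum_card_image (fun y => (kk y, cc y)) Y]
    push_cast
    rfl
  -- keys are fine
  have hRok : ∀ r ∈ R, KeyOK F bad A β D₂ r.1.1 r.1.2 := by
    intro r hr
    obtain ⟨y, hy, rfl⟩ := Finset.mem_image.1 hr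
    exact hok y hy
  -- number of slices
  have hN : ∀ (p : (HeightOneSpectrum (𝓞 K) →₀ (Fin q → ℕ)) × (InfinitePlace K → Fin q → ℕ))
      (T : Finset (((HeightOneSpectrum (𝓞 K) →₀ (Fin q → ℕ)) ×
        (InfinitePlace K → Fin q → ℕ)) × (Fin q → K))), T ⊆ R → (∀ r ∈ T, r.1 = p) →
      (T.card : ℝ) ≤ G * Real.exp ((n - 1) * β - phi F p.1 p.2) := by
    intro p T hT hTp
    have hinj : Set.InjOn Prod.snd (T : Set (((HeightOneSpectrum (𝓞 K) →₀ (Fin q → ℕ)) ×
        (InfinitePlace K → Fin q → ℕ)) × (Fin q → K))) := by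
      intro r hr r' hr' h
      exact Prod.ext ((hTp r hr).trans (hTp r' hr').symm) h
    rw [← Finset.card_image_of_injOn hinj]
    have h := fx_slices K a F A Cc hcoord β p.1 p.2 (Y.filter fun y => kk y = p)
      (fun y hy => hne y (Finset.mem_filter.1 hy).1) ?_ (T.image Prod.snd) ?_
    · rw [hF] at h
      have hcast : ((n - 1 : ℕ) : ℝ) = (n : ℝ) - 1 := by
        rw [Nat.cast_sub (by omega), Nat.cast_one]
      rw [hcast] at h
      exact h
    · intro y hy
      obtain ⟨hy1, hy2⟩ := Finset.mem_filter.1 hy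
      have := hbox y hy1
      rw [← hy2]
      exact this
    · intro s hs
      obtain ⟨r, hr, rfl⟩ := Finset.mem_image.1 hs
      obtain ⟨y, hy, hyr⟩ := Finset.mem_image.1 (hT hr)
      have hr2 : r.2 = cc y := by rw [← hyr]
      have hr1 : kk y = p := by rw [← hTp r hr, ← hyr]
      refine ⟨fun g hg => ?_, y, Finset.mem_filter.2 ⟨hy, hr1⟩, fun g hg => ?_⟩
      · rw [hr2]
        simp only [hcc, if_neg hg]
      · rw [hr2]
        simp only [hcc, if_pos hg]
  -- the bound for one slice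
  have hfib : ∀ r ∈ R, ((((Y.filter fun y => (kk y, cc y) = r).card : ℕ) : ℝ) ≤
      Q * (1 + Real.exp (2 * β - ind Fᶜ r.1.1 r.1.2))) ∨
      ∃ z : Fin 2 → K, z ≠ 0 ∧ ell Fᶜ α (Uf z) r.1.1 r.1.2 ≤ β + Cs ∧
      2 * ell Fᶜ α (Uf z) r.1.1 r.1.2 < ind Fᶜ r.1.1 r.1.2 ∧
      (((Y.filter fun y => (kk y, cc y) = r).card : ℕ) : ℝ) ≤
        Q * (1 + Real.exp (2 * β - ind Fᶜ r.1.1 r.1.2)) +
        Q * Real.exp (β - ell Fᶜ α (Uf z) r.1.1 r.1.2) := by
    intro r hr
    refine fx_fibre K a F l₁ l₂ α hc hi C₀ A Cs hCs Uf hUf β r.1.1 r.1.2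
      (fun Z hZ u hu hex => hslice β r.1.1 r.1.2 Z hZ u hu hex) _ ?_ ?_
    · intro y hy
      obtain ⟨hy1, hy2⟩ := Finset.mem_filter.1 hy
      have := hbox y hy1
      rw [← hy2]
      exact this
    · intro y hy y' hy' g hg
      have h1 := (Finset.mem_filter.1 hy).2
      have h2 := (Finset.mem_filter.1 hy').2
      have h3 : cc y = cc y' := by
        have := h1.trans h2.symm
        exact (Prod.ext_iff.1 this).2
      have h4 := congrFun h3 g
      simp only [hcc, if_pos hg] at h4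
      exact h4
  -- choose directions
  set Bad : (((HeightOneSpectrum (𝓞 K) →₀ (Fin q → ℕ)) ×
        (InfinitePlace K → Fin q → ℕ)) × (Fin q → K)) → (Fin 2 → K) → Prop := fun r z =>
      z ≠ 0 ∧ ell Fᶜ α (Uf z) r.1.1 r.1.2 ≤ β + Cs ∧
      2 * ell Fᶜ α (Uf z) r.1.1 r.1.2 < ind Fᶜ r.1.1 r.1.2 ∧
      (((Y.filter fun y => (kk y, cc y) = r).card : ℕ) : ℝ) ≤
        Q * (1 + Real.exp (2 * β - ind Fᶜ r.1.1 r.1.2)) +
        Q * Real.exp (β - ell Fᶜ α (Uf z) r.1.1 r.1.2) with hBad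
  set R2 := R.filter (fun r => ∃ z, Bad r z) with hR2
  set zz : (((HeightOneSpectrum (𝓞 K) →₀ (Fin q → ℕ)) ×
        (InfinitePlace K → Fin q → ℕ)) × (Fin q → K)) → (Fin 2 → K) := fun r =>
      if h : ∃ z, Bad r z then h.choose else 0 with hzz
  have hzz' : ∀ r ∈ R2, Bad r (zz r) := by
    intro r hr
    have h := (Finset.mem_filter.1 hr).2
    simp only [hzz, dif_pos h]
    exact h.choose_spec
  have hsplit : (Y.card : ℝ) ≤
      ∑ r ∈ R, Q * (1 + Real.exp (2 * β - ind Fᶜ r.1.1 r.1.2)) +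
      ∑ r ∈ R2, Q * Real.exp (β - ell Fᶜ α (Uf (zz r)) r.1.1 r.1.2) := by
    rw [hYc, hR2, Finset.sum_filter, ← Finset.sum_add_distrib]
    refine Finset.sum_le_sum fun r hr => ?_
    by_cases h : ∃ z, Bad r z
    · rw [if_pos h]
      exact (hzz' r (Finset.mem_filter.2 ⟨hr, h⟩)).2.2.2
    · rw [if_neg h, add_zero]
      rcases hfib r hr with h1 | ⟨z, hz⟩
      · exact h1
      · exact absurd ⟨z, hz⟩ h
  -- first sum
  have hcode : ∀ p ∈ R.image Prod.fst, Real.exp (- code bad p.1) ≤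
      Bd * Real.exp (- ∑ v ∈ p.1.support, lnv v) := by
    intro p _
    rw [hBd, ← Real.exp_add]
    apply Real.exp_le_exp.2
    have h1 : ∑ v ∈ p.1.support, lnv v ≤ code bad p.1 + ∑ v ∈ bad, lnv v := by
      rw [code, gsupp, ← Finset.sum_filter_add_sum_filter_not p.1.support (fun v => v ∉ bad)]
      refine add_le_add ?_ ?_
      · exact le_of_eq (Finset.sum_congr (by ext; simp) fun _ _ => rfl)
      · refine Finset.sum_le_sum_of_subset_of_nonneg ?_ fun v _ _ => (lnv_pos v).le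
        intro v hv
        have := (Finset.mem_filter.1 hv).2
        push Not at this
        exact this
    linarith
  have hpk : ∀ p ∈ R.image Prod.fst, KeyOK F bad A β D₂ p.1 p.2 := by
    intro p hp
    obtain ⟨r, hr, rfl⟩ := Finset.mem_image.1 hp
    exact hRok r hr
  have hsum1 : ∑ r ∈ R, Q * (1 + Real.exp (2 * β - ind Fᶜ r.1.1 r.1.2)) ≤
      Q * (G * (2 * Real.exp A * Bd * Ck)) * Real.exp ((n + 1 - D₂ + η) * β) := by
    have e1 : ∑ r ∈ R, Q * (1 + Real.exp (2 * β - ind Fᶜ r.1.1 r.1.2)) =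
        ∑ p ∈ R.image Prod.fst, ((R.filter fun r => r.1 = p).card : ℝ) *
          (Q * (1 + Real.exp (2 * β - ind Fᶜ p.1 p.2))) := by
      rw [Finset.sum_comp (fun p : (HeightOneSpectrum (𝓞 K) →₀ (Fin q → ℕ)) ×
        (InfinitePlace K → Fin q → ℕ) => Q * (1 + Real.exp (2 * β - ind Fᶜ p.1 p.2)))
        Prod.fst]
      simp only [nsmul_eq_mul]
    rw [e1]
    have e2 : ∀ p ∈ R.image Prod.fst, ((R.filter fun r => r.1 = p).card : ℝ) *
          (Q * (1 + Real.exp (2 * β - ind Fᶜ p.1 p.2))) ≤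
        Q * (G * (2 * Real.exp A * Bd)) * Real.exp ((n + 1 - D₂) * β) *
          Real.exp (- ∑ v ∈ p.1.support, lnv v) := by
      intro p hp
      have h1 := hN p (R.filter fun r => r.1 = p) (Finset.filter_subset _ _)
        (fun r hr => (Finset.mem_filter.1 hr).2)
      have h2 := hpk p hp
      have h3 : Real.exp ((n - 1) * β - phi F p.1 p.2) ≤
          Real.exp A * Real.exp ((n + 1 - D₂) * β) * Real.exp (- code bad p.1) := by
        rw [← Real.exp_add, ← Real.exp_add]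
        apply Real.exp_le_exp.2
        have := h2.slack
        nlinarith
      have h4 : Real.exp ((n - 1) * β - phi F p.1 p.2) *
          Real.exp (2 * β - ind Fᶜ p.1 p.2) ≤
          Real.exp A * Real.exp ((n + 1 - D₂) * β) * Real.exp (- code bad p.1) := by
        rw [← Real.exp_add, ← Real.exp_add, ← Real.exp_add]
        apply Real.exp_le_exp.2
        have := h2.gain
        nlinarith
      have h5 := hcode p hp
      calc ((R.filter fun r => r.1 = p).card : ℝ) *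
            (Q * (1 + Real.exp (2 * β - ind Fᶜ p.1 p.2)))
          ≤ (G * Real.exp ((n - 1) * β - phi F p.1 p.2)) *
            (Q * (1 + Real.exp (2 * β - ind Fᶜ p.1 p.2))) := by
            apply mul_le_mul_of_nonneg_right h1
            positivity
        _ = Q * G * (Real.exp ((n - 1) * β - phi F p.1 p.2) +
            Real.exp ((n - 1) * β - phi F p.1 p.2) * Real.exp (2 * β - ind Fᶜ p.1 p.2)) := by
            ring
        _ ≤ Q * G * (Real.exp A * Real.exp ((n + 1 - D₂) * β) * Real.exp (- code bad p.1) +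
            Real.exp A * Real.exp ((n + 1 - D₂) * β) * Real.exp (- code bad p.1)) := by
            gcongr
        _ = Q * (G * (2 * Real.exp A)) * Real.exp ((n + 1 - D₂) * β) *
            Real.exp (- code bad p.1) := by ring
        _ ≤ Q * (G * (2 * Real.exp A)) * Real.exp ((n + 1 - D₂) * β) *
            (Bd * Real.exp (- ∑ v ∈ p.1.support, lnv v)) := by gcongr
        _ = Q * (G * (2 * Real.exp A * Bd)) * Real.exp ((n + 1 - D₂) * β) *
          Real.exp (- ∑ v ∈ p.1.support, lnv v) := by ring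
    refine (Finset.sum_le_sum e2).trans ?_
    rw [← Finset.mul_sum]
    have h6 := hkey β hβ (R.image Prod.fst) (fun p hp => (hpk p hp).size)
    calc Q * (G * (2 * Real.exp A * Bd)) * Real.exp ((n + 1 - D₂) * β) *
          ∑ p ∈ R.image Prod.fst, Real.exp (- ∑ v ∈ p.1.support, lnv v)
        ≤ Q * (G * (2 * Real.exp A * Bd)) * Real.exp ((n + 1 - D₂) * β) *
          (Ck * Real.exp (η * β)) := by gcongr
      _ = Q * (G * (2 * Real.exp A * Bd * Ck)) *
          (Real.exp ((n + 1 - D₂) * β) * Real.exp (η * β)) := by ring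
      _ = Q * (G * (2 * Real.exp A * Bd * Ck)) * Real.exp ((n + 1 - D₂ + η) * β) := by
          rw [← Real.exp_add]
          congr 2
          ring
  -- second sum
  have hsum2 : ∑ r ∈ R2, Q * Real.exp (β - ell Fᶜ α (Uf (zz r)) r.1.1 r.1.2) ≤
      Q * (G * Cm) * Real.exp ((n + 1 - D₂ + η) * β) := by
    set DD : (((HeightOneSpectrum (𝓞 K) →₀ (Fin q → ℕ)) ×
        (InfinitePlace K → Fin q → ℕ)) × (Fin q → K)) →
        (HeightOneSpectrum (𝓞 K) →₀ (Fin q → ℕ)) × (InfinitePlace K → Fin q → ℕ) ×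
        (Fin 2 → K) := fun r => (r.1.1, r.1.2, Uf (zz r)) with hDD
    have e1 : ∑ r ∈ R2, Q * Real.exp (β - ell Fᶜ α (Uf (zz r)) r.1.1 r.1.2) =
        ∑ d ∈ R2.image DD, ((R2.filter fun r => DD r = d).card : ℝ) *
          (Q * Real.exp (β - ell Fᶜ α d.2.2 d.1 d.2.1)) := by
      rw [Finset.sum_comp (fun d : (HeightOneSpectrum (𝓞 K) →₀ (Fin q → ℕ)) ×
        (InfinitePlace K → Fin q → ℕ) × (Fin 2 → K) =>
          Q * Real.exp (β - ell Fᶜ α d.2.2 d.1 d.2.1)) DD]
      simp only [nsmul_eq_mul]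
    rw [e1]
    have e2 : ∀ d ∈ R2.image DD, ((R2.filter fun r => DD r = d).card : ℝ) *
          (Q * Real.exp (β - ell Fᶜ α d.2.2 d.1 d.2.1)) ≤
        Q * G * Real.exp (n * β) * Real.exp (- phi F d.1 d.2.1 - ell Fᶜ α d.2.2 d.1 d.2.1) := by
      intro d _
      have h1 := hN (d.1, d.2.1) (R2.filter fun r => DD r = d)
        ((Finset.filter_subset _ _).trans (Finset.filter_subset _ _))
        (fun r hr => by
          have := (Finset.mem_filter.1 hr).2
          rw [← this])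
      calc ((R2.filter fun r => DD r = d).card : ℝ) *
          (Q * Real.exp (β - ell Fᶜ α d.2.2 d.1 d.2.1))
          ≤ (G * Real.exp ((n - 1) * β - phi F d.1 d.2.1)) *
            (Q * Real.exp (β - ell Fᶜ α d.2.2 d.1 d.2.1)) := by
            apply mul_le_mul_of_nonneg_right h1
            positivity
        _ = Q * G * (Real.exp ((n - 1) * β - phi F d.1 d.2.1) *
            Real.exp (β - ell Fᶜ α d.2.2 d.1 d.2.1)) := by ring
        _ = Q * G * (Real.exp (n * β) *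
            Real.exp (- phi F d.1 d.2.1 - ell Fᶜ α d.2.2 d.1 d.2.1)) := by
            rw [← Real.exp_add, ← Real.exp_add]
            congr 2
            ring
        _ = Q * G * Real.exp (n * β) *
            Real.exp (- phi F d.1 d.2.1 - ell Fᶜ α d.2.2 d.1 d.2.1) := by ring
    refine (Finset.sum_le_sum e2).trans ?_
    rw [← Finset.mul_sum]
    have h6 := hmid' β D₂ hβ (R2.image DD) ?_ ?_ ?_ ?_ ?_
    · have h7 : Real.exp (n * β) * Real.exp (η * β) ≤ Real.exp ((n + 1 - D₂ + η) * β) := by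
        rw [← Real.exp_add]
        apply Real.exp_le_exp.2
        nlinarith
      calc Q * G * Real.exp (n * β) *
            ∑ d ∈ R2.image DD, Real.exp (- phi F d.1 d.2.1 - ell Fᶜ α d.2.2 d.1 d.2.1)
          ≤ Q * G * Real.exp (n * β) * (Cm * Real.exp (η * β)) := by gcongr
        _ = Q * (G * Cm) * (Real.exp (n * β) * Real.exp (η * β)) := by ring
        _ ≤ Q * (G * Cm) * Real.exp ((n + 1 - D₂ + η) * β) := by gcongr
    · intro d hd
      obtain ⟨r, hr, rfl⟩ := Finset.mem_image.1 hd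
      exact (hUf _ (hzz' r hr).1).1
    · intro d hd d' hd' hdd
      obtain ⟨r, hr, rfl⟩ := Finset.mem_image.1 hd
      obtain ⟨r', hr', rfl⟩ := Finset.mem_image.1 hd'
      exact hUf' _ _ (hzz' r hr).1 (hzz' r' hr').1 hdd
    · intro d hd
      obtain ⟨r, hr, rfl⟩ := Finset.mem_image.1 hd
      have h := hRok r (Finset.mem_filter.1 hr).1
      refine ⟨h.size.trans (by gcongr), ?_, ?_, h.useful, h.sel⟩
      · have := h.gain
        show D₂ * β - A' ≤ phi F r.1.1 r.1.2 + ind Fᶜ r.1.1 r.1.2 - code bad r.1.1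
        linarith
      · have := h.slack
        show code bad r.1.1 - phi F r.1.1 r.1.2 ≤ D₂ * β + A'
        linarith
    · intro d hd
      obtain ⟨r, hr, rfl⟩ := Finset.mem_image.1 hd
      have h := (hzz' r hr).2.1
      show ell Fᶜ α (Uf (zz r)) r.1.1 r.1.2 ≤ A' * (β + 1)
      nlinarith
    · intro d hd
      obtain ⟨r, hr, rfl⟩ := Finset.mem_image.1 hd
      exact (hzz' r hr).2.2.1
  calc (Y.card : ℝ) ≤ _ := hsplit
    _ ≤ Q * (G * (2 * Real.exp A * Bd * Ck)) * Real.exp ((n + 1 - D₂ + η) * β) +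
        Q * (G * Cm) * Real.exp ((n + 1 - D₂ + η) * β) := add_le_add hsum1 hsum2
    _ = _ := by ring

end Pool.Agent.Lib.MP_44a246_nt.HP
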