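import Pool.Agent.Lib.MP_44a246_nt.HP.Selection
import Pool.Agent.Lib.MP_44a246_nt.HP.Comb

/-!
# From the exponent data of a point to its key
-/

set_option autoImplicit false

open NumberField IsDedekindDomain Height
open Pool.Agent.Lib.MP_4d5ce1_nt (ordv fa nv)

namespace Pool.Agent.Lib.MP_44a246_nt.HP

section finalaux

lemma fa_eps_congr {ι : Type*} {q : ℕ} {I : Finset ι} {b : ι → ℝ} {e e' : ι → Fin q → ℕ}
    (h : ∀ i ∈ I, e i = e' i) (l : Fin q) : eps I b e l = eps I b e' l := by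
  classical
  unfold eps
  have h1 : I.filter (fun i => ∀ l', l' ≠ l → e i l' = 0) =
      I.filter (fun i => ∀ l', l' ≠ l → e' i l' = 0) := by
    apply Finset.filter_congr
    intro i hi
    rw [h i hi]
  rw [h1]
  refine Finset.sum_congr rfl fun i hi => ?_
  rw [h i (Finset.mem_filter.mp hi).1]

lemma fa_sel_congr {ι : Type*} {q : ℕ} {F : Finset (Fin q)} {I : Finset ι} {b : ι → ℝ}
    {e e' : ι → Fin q → ℕ} (h : ∀ i ∈ I, e i = e' i) (hs : Sel F I b e) : Sel F I b e' := by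
  rcases hs with ⟨f, hf, h1⟩ | ⟨p, hp, f, hf, h1, h2, h3, h4⟩
  · left
    refine ⟨f, hf, fun l => ?_⟩
    rw [← fa_eps_congr h l, ← fa_eps_congr h f]
    exact h1 l
  · right
    refine ⟨p, hp, f, hf, ?_, ?_, ?_, ?_⟩
    · rw [← h p hp]; exact h1
    · obtain ⟨l, hl, hl'⟩ := h2
      exact ⟨l, hl, by rw [← h p hp]; exact hl'⟩
    · intro l
      rw [← fa_eps_congr h l]
      exact h3 l
    · intro l hl
      rw [← h p hp] at hl
      rw [← fa_eps_congr h l, ← fa_eps_congr h f]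
      exact h4 l hl

lemma fa_tt_zero {q : ℕ} (Λ : Finset (Fin q)) : tt (0 : Fin q → ℕ) Λ = 0 := by
  unfold tt
  simp

lemma fa_not_useful {q : ℕ} {e : Fin q → ℕ} (h : ¬ Useful e) : ∑ l, e l ≤ 1 := by
  classical
  unfold Useful at h
  push Not at h
  obtain ⟨h1, h2⟩ := h
  by_cases h0 : ∃ l, e l ≠ 0
  · obtain ⟨l, hl⟩ := h0
    have h3 : ∑ l', e l' = e l := by
      apply Finset.sum_eq_single l
      · intro l' _ hl'
        exact h1 l l' (Ne.symm hl') hl
      · intro h4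
        exact absurd (Finset.mem_univ l) h4
    rw [h3]
    have := h2 l
    omega
  · push Not at h0
    rw [Finset.sum_eq_zero fun l _ => h0 l]
    exact zero_le_one

variable {K : Type*} [Field K] [NumberField K]

open Classical in
/-- The key of a point. -/
theorem key_of_data {n q : ℕ} (hn : 2 ≤ n) (hq : n + 1 ≤ q)
    (bad : Finset (HeightOneSpectrum (𝓞 K))) (A D D₂ h : ℝ) (hA : 1 ≤ A) (hD : 0 ≤ D)
    (hD₂ : D₂ = min 1 (D / (n - 1))) (hh : 0 ≤ h)
    (E : HeightOneSpectrum (𝓞 K) →₀ (Fin q → ℕ)) (k : InfinitePlace K → Fin q → ℕ)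
    (hsiz : siz E k ≤ A * (h + 1))
    (hex : D * h - A ≤
          ∑ v ∈ gsupp bad E, (((∑ l, E v l : ℕ) : ℝ) - 1) * lnv v +
          ∑ v ∈ bad, ((∑ l, E v l : ℕ) : ℝ) * lnv v + ∑ w, ((∑ l, k w l : ℕ) : ℝ))
    (hgood : ∀ v, v ∉ bad → (Finset.univ.filter fun l => E v l ≠ 0).card ≤ n)
    (hbad : ∀ v ∈ bad, ((∑ l, E v l : ℕ) : ℝ) * lnv v ≤
          (n - 1) * (tt (E v) Finset.univ * lnv v) + A)
    (hinf : ∀ w, ((∑ l, k w l : ℕ) : ℝ) ≤ (n - 1) * tt (k w) Finset.univ + A) :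
    ∃ F : Finset (Fin q), F.card = n - 1 ∧ ∃ κ : HeightOneSpectrum (𝓞 K) →₀ (Fin q → ℕ),
      (∀ v l, κ v l ≤ E v l) ∧ ∀ β, h ≤ β → β ≤ h + 1 →
      KeyOK F bad (A * (1 + bad.card + Fintype.card (InfinitePlace K)) + 1) β D₂ κ k := by
  have hn1 : (1:ℝ) ≤ (n:ℝ) - 1 := by
    have : (2:ℝ) ≤ n := by exact_mod_cast hn
    linarith
  have hn0 : (0:ℝ) < (n:ℝ) - 1 := by linarith
  have hD₂0 : 0 ≤ D₂ := by rw [hD₂]; exact le_min zero_le_one (div_nonneg hD hn0.le)
  have hD₂1 : D₂ ≤ 1 := by rw [hD₂]; exact min_le_left _ _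
  have hD₂D : D₂ * h ≤ D * h / (n - 1) := by
    have h1 : D₂ ≤ D / (n - 1) := by rw [hD₂]; exact min_le_right _ _
    have := mul_le_mul_of_nonneg_right h1 hh
    calc D₂ * h ≤ D / (n - 1) * h := this
      _ = D * h / (n - 1) := by ring
  set I : Finset (HeightOneSpectrum (𝓞 K)) := (gsupp bad E).filter fun v => Useful (E v) with hI
  set xM : ℝ := ∑ v ∈ bad, (tt (E v) Finset.univ : ℝ) * lnv v +
    ∑ w : InfinitePlace K, (tt (k w) Finset.univ : ℝ) with hxM
  have hxM0 : 0 ≤ xM := by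
    rw [hxM]
    apply add_nonneg
    · exact Finset.sum_nonneg fun v _ => mul_nonneg (Nat.cast_nonneg _) (lnv_pos v).le
    · exact Finset.sum_nonneg fun w _ => Nat.cast_nonneg _
  set A₁ : ℝ := A * (1 + bad.card + Fintype.card (InfinitePlace K)) with hA₁
  have hA₁0 : 0 ≤ A₁ := by positivity
  -- the excess of the useful items
  have h1 : ∑ v ∈ gsupp bad E, (((∑ l, E v l : ℕ) : ℝ) - 1) * lnv v ≤
      (n - 1) * ∑ v ∈ I, ((tt (E v) Finset.univ : ℝ) - 1) * lnv v := by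
    have h2 : ∑ v ∈ gsupp bad E, (((∑ l, E v l : ℕ) : ℝ) - 1) * lnv v ≤
        ∑ v ∈ I, (((∑ l, E v l : ℕ) : ℝ) - 1) * lnv v := by
      rw [← Finset.sum_filter_add_sum_filter_not (gsupp bad E) (fun v => Useful (E v))]
      have h3 : ∑ v ∈ (gsupp bad E).filter (fun v => ¬ Useful (E v)),
          (((∑ l, E v l : ℕ) : ℝ) - 1) * lnv v ≤ 0 := by
        apply Finset.sum_nonpos
        intro v hv
        have h4 := fa_not_useful (Finset.mem_filter.mp hv).2
        have h5 : ((∑ l, E v l : ℕ) : ℝ) ≤ 1 := by exact_mod_cast h4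
        exact mul_nonpos_of_nonpos_of_nonneg (by linarith) (lnv_pos v).le
      linarith
    refine h2.trans ?_
    rw [Finset.mul_sum]
    apply Finset.sum_le_sum
    intro v hv
    have h3 := Finset.mem_filter.mp hv
    have h4 : v ∈ E.support ∧ v ∉ bad := by
      have := h3.1
      unfold gsupp at this
      exact Finset.mem_filter.mp this
    have h5 : E v ≠ 0 := Finsupp.mem_support_iff.mp h4.1
    have h6 := excess_le hn (by omega) (E v) h5 (hgood v h4.2)
    rw [← mul_assoc]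
    exact mul_le_mul_of_nonneg_right h6 (lnv_pos v).le
  have h2 : ∑ v ∈ bad, ((∑ l, E v l : ℕ) : ℝ) * lnv v ≤
      (n - 1) * ∑ v ∈ bad, (tt (E v) Finset.univ : ℝ) * lnv v + bad.card * A := by
    rw [Finset.mul_sum, ← nsmul_eq_mul, ← Finset.sum_const, ← Finset.sum_add_distrib]
    exact Finset.sum_le_sum fun v hv => hbad v hv
  have h3 : ∑ w : InfinitePlace K, ((∑ l, k w l : ℕ) : ℝ) ≤
      (n - 1) * ∑ w : InfinitePlace K, (tt (k w) Finset.univ : ℝ) +
        Fintype.card (InfinitePlace K) * A := by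
    rw [Finset.mul_sum, ← Finset.card_univ, ← nsmul_eq_mul, ← Finset.sum_const,
      ← Finset.sum_add_distrib]
    exact Finset.sum_le_sum fun w _ => hinf w
  have h4 : D * h ≤ (n - 1) * (xM + ∑ v ∈ I, ((tt (E v) Finset.univ : ℝ) - 1) * lnv v) + A₁ := by
    rw [hxM, hA₁]
    nlinarith
  have h5 : D₂ * h - A₁ ≤ xM + ∑ v ∈ I, ((tt (E v) Finset.univ : ℝ) - 1) * lnv v := by
    have h6 : D * h / (n - 1) ≤ xM + ∑ v ∈ I, ((tt (E v) Finset.univ : ℝ) - 1) * lnv v + A₁ := by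
      rw [div_le_iff₀ hn0]
      nlinarith
    linarith
  obtain ⟨F, hF, T, hT, ht1, ht2, ht3⟩ := selection q n hn hq I lnv (fun i _ => lnv_pos i)
    (fun v => E v) (fun i hi => (Finset.mem_filter.mp hi).2) xM (D₂ * h - A₁) hxM0 h5
  have hTI : ∀ v ∈ T, E v ≠ 0 ∧ v ∉ bad ∧ Useful (E v) := by
    intro v hv
    have h6 := Finset.mem_filter.mp (hT hv)
    have h7 : v ∈ E.support ∧ v ∉ bad := by
      have := h6.1
      unfold gsupp at this
      exact Finset.mem_filter.mp this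
    exact ⟨Finsupp.mem_support_iff.mp h7.1, h7.2, h6.2⟩
  set κ : HeightOneSpectrum (𝓞 K) →₀ (Fin q → ℕ) := E.filter (fun v => v ∈ T ∨ v ∈ bad) with hκ
  have hκT : ∀ v ∈ T, κ v = E v := by
    intro v hv
    rw [hκ, Finsupp.filter_apply, if_pos (Or.inl hv)]
  have hκb : ∀ v ∈ bad, κ v = E v := by
    intro v hv
    rw [hκ, Finsupp.filter_apply, if_pos (Or.inr hv)]
  have hκle : ∀ v l, κ v l ≤ E v l := by
    intro v l
    rw [hκ, Finsupp.filter_apply]
    split_ifs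
    · exact le_rfl
    · exact Nat.zero_le _
  have hgs : gsupp bad κ = T := by
    unfold gsupp
    ext v
    rw [Finset.mem_filter, hκ, Finsupp.support_filter, Finset.mem_filter]
    constructor
    · rintro ⟨⟨_, h6⟩, h7⟩
      exact h6.resolve_right h7
    · intro hv
      obtain ⟨h6, h7, _⟩ := hTI v hv
      exact ⟨⟨Finsupp.mem_support_iff.mpr h6, Or.inl hv⟩, h7⟩
  -- sums over the support of κ
  have hsplit : ∀ f : HeightOneSpectrum (𝓞 K) → (Fin q → ℕ) → ℝ, (∀ v, f v 0 = 0) →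
      ∑ v ∈ κ.support, f v (κ v) = ∑ v ∈ T, f v (E v) + ∑ v ∈ bad, f v (E v) := by
    intro f hf
    have h6 : ∑ v ∈ κ.support, f v (κ v) = ∑ v ∈ κ.support ∪ (T ∪ bad), f v (κ v) := by
      apply Finset.sum_subset Finset.subset_union_left
      intro v _ hv
      rw [Finsupp.notMem_support_iff.mp hv]
      exact hf v
    have h7 : κ.support ∪ (T ∪ bad) = T ∪ bad := by
      apply Finset.union_eq_right.mpr
      intro v hv
      rw [hκ, Finsupp.support_filter, Finset.mem_filter] at hv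
      rw [Finset.mem_union]
      exact hv.2
    rw [h6, h7, Finset.sum_union (by
      rw [Finset.disjoint_left]
      intro v hv hv'
      exact (hTI v hv).2.1 hv')]
    congr 1
    · exact Finset.sum_congr rfl fun v hv => by rw [hκT v hv]
    · exact Finset.sum_congr rfl fun v hv => by rw [hκb v hv]
  have hFc : 2 ≤ (Fᶜ).card := by
    rw [Finset.card_compl, Fintype.card_fin, hF]
    omega
  refine ⟨F, hF, κ, hκle, ?_⟩
  intro β hβ1 hβ2
  have hphi : phi F κ k = ∑ v ∈ T, ((∑ g ∈ F, E v g : ℕ) : ℝ) * lnv v +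
      ∑ v ∈ bad, ((∑ g ∈ F, E v g : ℕ) : ℝ) * lnv v + ∑ w, ((∑ g ∈ F, k w g : ℕ) : ℝ) := by
    unfold phi
    rw [hsplit (fun v e => ((∑ g ∈ F, e g : ℕ) : ℝ) * lnv v) (by intro v; simp)]
  have hind : ind Fᶜ κ k = ∑ v ∈ T, (tt (E v) Fᶜ : ℝ) * lnv v +
      ∑ v ∈ bad, (tt (E v) Fᶜ : ℝ) * lnv v + ∑ w, (tt (k w) Fᶜ : ℝ) := by
    unfold ind
    rw [hsplit (fun v e => (tt e Fᶜ : ℝ) * lnv v) (by intro v; simp [fa_tt_zero])]
  have hcode : code bad κ = ∑ v ∈ T, lnv v := by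
    unfold code
    rw [hgs]
  constructor
  · -- size
    have h6 : siz κ k ≤ siz E k := by
      unfold siz
      have h7 : ∑ v ∈ κ.support, ((∑ l, κ v l : ℕ) : ℝ) * lnv v ≤
          ∑ v ∈ E.support, ((∑ l, E v l : ℕ) : ℝ) * lnv v := by
        have h8 : κ.support ⊆ E.support := by
          rw [hκ, Finsupp.support_filter]
          exact Finset.filter_subset _ _
        refine (Finset.sum_le_sum fun v _ => ?_).trans
          (Finset.sum_le_sum_of_subset_of_nonneg (f := fun v => ((∑ l, E v l : ℕ) : ℝ) * lnv v)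
            h8 fun v _ _ => mul_nonneg (Nat.cast_nonneg _) (lnv_pos v).le)
        apply mul_le_mul_of_nonneg_right _ (lnv_pos v).le
        exact_mod_cast Finset.sum_le_sum fun l _ => hκle v l
      linarith
    have h7 : A * (h + 1) ≤ (A₁ + 1) * (β + 1) := by
      have h8 : A ≤ A₁ := by
        rw [hA₁]
        have h9 : (0:ℝ) ≤ bad.card + Fintype.card (InfinitePlace K) := by positivity
        nlinarith
      apply mul_le_mul (by linarith) (by linarith) (by linarith) (by linarith)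
    exact h6.trans (hsiz.trans h7)
  · -- gain
    rw [hphi, hind, hcode]
    have h6 : ∑ v ∈ bad, (tt (E v) Finset.univ : ℝ) * lnv v ≤
        ∑ v ∈ bad, ((∑ g ∈ F, E v g : ℕ) : ℝ) * lnv v + ∑ v ∈ bad, (tt (E v) Fᶜ : ℝ) * lnv v := by
      rw [← Finset.sum_add_distrib]
      apply Finset.sum_le_sum
      intro v _
      rw [← add_mul]
      apply mul_le_mul_of_nonneg_right _ (lnv_pos v).le
      exact_mod_cast tt_univ_le F hFc (E v)
    have h7 : ∑ w : InfinitePlace K, (tt (k w) Finset.univ : ℝ) ≤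
        ∑ w : InfinitePlace K, ((∑ g ∈ F, k w g : ℕ) : ℝ) +
          ∑ w : InfinitePlace K, (tt (k w) Fᶜ : ℝ) := by
      rw [← Finset.sum_add_distrib]
      apply Finset.sum_le_sum
      intro w _
      exact_mod_cast tt_univ_le F hFc (k w)
    have h8 : ∑ i ∈ T, (((∑ g ∈ F, E i g : ℕ) : ℝ) + tt (E i) Fᶜ - 1) * lnv i =
        ∑ v ∈ T, ((∑ g ∈ F, E v g : ℕ) : ℝ) * lnv v + ∑ v ∈ T, (tt (E v) Fᶜ : ℝ) * lnv v -
          ∑ v ∈ T, lnv v := by
      rw [← Finset.sum_add_distrib, ← Finset.sum_sub_distrib]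
      refine Finset.sum_congr rfl fun v _ => by ring
    have h9 := ht1
    rw [h8, hxM] at h9
    have h10 : D₂ * β ≤ D₂ * h + 1 := by nlinarith
    linarith
  · -- slack
    rw [hphi, hcode]
    have h6 : 0 ≤ ∑ v ∈ bad, ((∑ g ∈ F, E v g : ℕ) : ℝ) * lnv v :=
      Finset.sum_nonneg fun v _ => mul_nonneg (Nat.cast_nonneg _) (lnv_pos v).le
    have h7 : 0 ≤ ∑ w : InfinitePlace K, ((∑ g ∈ F, k w g : ℕ) : ℝ) :=
      Finset.sum_nonneg fun w _ => Nat.cast_nonneg _
    have h8 : ∑ i ∈ T, (1 - ((∑ g ∈ F, E i g : ℕ) : ℝ)) * lnv i =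
        ∑ v ∈ T, lnv v - ∑ v ∈ T, ((∑ g ∈ F, E v g : ℕ) : ℝ) * lnv v := by
      rw [← Finset.sum_sub_distrib]
      refine Finset.sum_congr rfl fun v _ => by ring
    have h9 := ht2
    rw [h8] at h9
    have h10 : max (D₂ * h - A₁) 0 ≤ D₂ * β := by
      apply max_le
      · have := mul_le_mul_of_nonneg_left hβ1 hD₂0
        linarith
      · exact mul_nonneg hD₂0 (hh.trans hβ1)
    linarith
  · intro v hv
    rw [hgs] at hv
    rw [hκT v hv]
    exact (hTI v hv).2.2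
  · rw [hgs]
    exact fa_sel_congr (fun v hv => (hκT v hv).symm) ht3

end finalaux

end Pool.Agent.Lib.MP_44a246_nt.HP
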