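import Pool.Agent.Lib.MP_44a246_nt.HP.Defs

set_option autoImplicit false

open NumberField IsDedekindDomain Height
open Pool.Agent.Lib.MP_4d5ce1_nt (ordv fa nv)

namespace Pool.Agent.Lib.MP_44a246_nt.HP

/-! ## HP-1 -/

private lemma hp1_cell_real (m : ℕ) (x : ℝ) (s : ℝ) (hs : 0 < s) (hx : |x| ≤ m * s) :
    (⌊x / s⌋ + m).toNat < 2 * m + 1 ∧ ((⌊x / s⌋ + m).toNat : ℤ) = ⌊x / s⌋ + m := by
  have h1 : |x / s| ≤ m := by
    rw [abs_div, abs_of_pos hs, div_le_iff₀ hs]; exact hx
  rw [abs_le] at h1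
  have h2 : -(m : ℤ) ≤ ⌊x / s⌋ := by
    rw [Int.le_floor]; push_cast; linarith
  have h3 : ⌊x / s⌋ ≤ m := by
    rw [← Int.cast_le (R := ℝ)]
    exact (Int.floor_le _).trans (by push_cast; linarith)
  omega

private lemma hp1_cell_close {x y s : ℝ} (hs : 0 < s) (h : ⌊x / s⌋ = ⌊y / s⌋) : |x - y| ≤ s := by
  have h1 := Int.abs_sub_lt_one_of_floor_eq_floor h
  rw [← sub_div, abs_div, abs_of_pos hs, div_lt_one hs] at h1
  exact h1.le

/-- Cells of relative side `σ` in the ball of radius `r` at an infinite place. -/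
private lemma hp1_cells {K : Type*} [Field K] [NumberField K] (w : InfinitePlace K) :
    ∃ C : ℝ, 0 < C ∧ ∀ r σ : ℝ, 0 < r → 0 < σ → σ ≤ 1 →
      ∃ N : ℕ, (N : ℝ) ≤ C / σ ^ w.mult ∧ ∃ f : K → Fin N, ∀ z z' : K,
        w z ≤ r → w z' ≤ r → f z = f z' → w (z - z') ≤ σ * r := by
  classical
  refine ⟨7 ^ 2, by positivity, ?_⟩
  intro R σ hR hσ hσ1
  set s : ℝ := σ * R / 2 with hs
  have hspos : 0 < s := by positivity
  set m : ℕ := ⌈2 / σ⌉₊ with hm
  have hm1 : 2 / σ ≤ m := Nat.le_ceil _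
  have hm2 : (m : ℝ) < 2 / σ + 1 := Nat.ceil_lt_add_one (by positivity)
  have hmD : R ≤ m * s := by
    calc R = (2 / σ) * s := by rw [hs]; field_simp
      _ ≤ m * s := mul_le_mul_of_nonneg_right hm1 hspos.le
  have hcount : ((2 * m + 1 : ℕ) : ℝ) ≤ 7 / σ := by
    push_cast
    have h1 : (2 * (m : ℝ) + 1) ≤ 4 / σ + 3 := by
      have : 4 / σ = 2 * (2 / σ) := by ring
      rw [this]; linarith
    have h2 : (3 : ℝ) ≤ 3 / σ := by
      rw [le_div_iff₀ hσ]; nlinarith
    calc (2 * (m : ℝ) + 1) ≤ 4 / σ + 3 := h1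
      _ ≤ 4 / σ + 3 / σ := by linarith
      _ = 7 / σ := by ring
  let dre : K → ℝ := fun z => (w.embedding z).re
  let dim : K → ℝ := fun z => (w.embedding z).im
  have hre : ∀ z, w z ≤ R → |dre z| ≤ m * s := fun z hz => by
    rw [← w.norm_embedding_eq] at hz
    exact (Complex.abs_re_le_norm _).trans (hz.trans hmD)
  have him : ∀ z, w z ≤ R → |dim z| ≤ m * s := fun z hz => by
    rw [← w.norm_embedding_eq] at hz
    exact (Complex.abs_im_le_norm _).trans (hz.trans hmD)
  let code : ℝ → Fin (2 * m + 1) := fun x =>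
    if h : (⌊x / s⌋ + m).toNat < 2 * m + 1 then ⟨(⌊x / s⌋ + m).toNat, h⟩ else ⟨0, by omega⟩
  have hcode : ∀ x y : ℝ, |x| ≤ m * s → |y| ≤ m * s → code x = code y → |x - y| ≤ s := by
    intro x y hx hy hxy
    obtain ⟨h1, h2⟩ := hp1_cell_real m x s hspos hx
    obtain ⟨h3, h4⟩ := hp1_cell_real m y s hspos hy
    simp only [code, h1, h3, dif_pos, Fin.mk.injEq] at hxy
    apply hp1_cell_close hspos
    omega
  by_cases hw : w.IsReal
  · have hmult : w.mult = 1 := by simp [InfinitePlace.mult, hw]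
    refine ⟨2 * m + 1, ?_, ?_⟩
    · rw [hmult, pow_one]
      refine hcount.trans ?_
      apply div_le_div_of_nonneg_right _ hσ.le
      norm_num
    · refine ⟨fun z => code (dre z), ?_⟩
      intro z z' hz hz' h1
      have h2 := hcode _ _ (hre z hz) (hre z' hz') h1
      have him0 : ∀ x : K, (w.embedding x).im = 0 := by
        intro x
        rw [← InfinitePlace.embedding_of_isReal_apply hw]
        exact Complex.ofReal_im _
      have h3 : w.embedding (z - z') = ((dre z - dre z' : ℝ) : ℂ) := by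
        apply Complex.ext
        · simp only [dre, map_sub, Complex.sub_re, Complex.ofReal_re]
        · rw [him0, Complex.ofReal_im]
      rw [← w.norm_embedding_eq, h3, Complex.norm_real, Real.norm_eq_abs]
      refine h2.trans ?_
      rw [hs]
      have : 0 < σ * R := by positivity
      linarith
  · have hmult : w.mult = 2 := by simp [InfinitePlace.mult, hw]
    refine ⟨(2 * m + 1) * (2 * m + 1), ?_, ?_⟩
    · rw [hmult, Nat.cast_mul]
      have h5 : ((2 * m + 1 : ℕ) : ℝ) * ((2 * m + 1 : ℕ) : ℝ) ≤ (7 / σ) * (7 / σ) :=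
        mul_le_mul hcount hcount (Nat.cast_nonneg _) (by positivity)
      calc ((2 * m + 1 : ℕ) : ℝ) * ((2 * m + 1 : ℕ) : ℝ) ≤ (7 / σ) * (7 / σ) := h5
        _ = 7 ^ 2 / σ ^ 2 := by field_simp
    · refine ⟨fun z => finProdFinEquiv (code (dre z), code (dim z)), ?_⟩
      intro z z' hz hz' h
      have h1' := finProdFinEquiv.injective h
      rw [Prod.mk.injEq] at h1'
      have h2 := hcode _ _ (hre z hz) (hre z' hz') h1'.1
      have h3 := hcode _ _ (him z hz) (him z' hz') h1'.2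
      rw [← w.norm_embedding_eq]
      refine (Complex.norm_le_abs_re_add_abs_im _).trans ?_
      have h4 : (w.embedding (z - z')).re = dre z - dre z' := by
        simp only [dre, map_sub, Complex.sub_re]
      have h5 : (w.embedding (z - z')).im = dim z - dim z' := by
        simp only [dim, map_sub, Complex.sub_im]
      rw [h4, h5]
      rw [hs] at h2 h3
      linarith

/-- Existence of the scale `σ`. -/
private lemma hp1_sigma (d : ℕ) (hd : 0 < d) (y : ℝ) (hy : 0 < y) :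
    ∃ σ : ℝ, 0 < σ ∧ σ ≤ 1 ∧ σ ^ d * y < 1 ∧ (σ ^ d)⁻¹ ≤ 1 + 2 * y := by
  set z : ℝ := min 1 (1 / (2 * y)) with hz
  have hz0 : 0 < z := lt_min one_pos (by positivity)
  have hz1 : z ≤ 1 := min_le_left _ _
  refine ⟨z ^ (1 / (d:ℝ)), Real.rpow_pos_of_pos hz0 _, ?_, ?_, ?_⟩
  · exact Real.rpow_le_one hz0.le hz1 (by positivity)
  · rw [← Real.rpow_natCast, ← Real.rpow_mul hz0.le,
      one_div_mul_cancel (by positivity), Real.rpow_one]
    have : z ≤ 1 / (2 * y) := min_le_right _ _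
    calc z * y ≤ 1 / (2 * y) * y := mul_le_mul_of_nonneg_right this hy.le
      _ = 1 / 2 := by field_simp
      _ < 1 := by norm_num
  · rw [← Real.rpow_natCast, ← Real.rpow_mul hz0.le,
      one_div_mul_cancel (by positivity), Real.rpow_one]
    rcases min_cases 1 (1 / (2 * y)) with ⟨h1, _⟩ | ⟨h1, _⟩
    · rw [hz, h1]; simp; positivity
    · rw [hz, h1]; simp

/-- Upper bound for the finite part of the product formula. -/
private lemma hp1_finite_part {K : Type*} [Field K] [NumberField K] {z : K} (hz : z ≠ 0)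
    (T : Finset (HeightOneSpectrum (𝓞 K))) (e : HeightOneSpectrum (𝓞 K) → ℝ)
    (h1 : ∀ v ∈ T, Real.log (fa v z) ≤ - e v) (h2 : ∀ v ∉ T, fa v z ≤ 1) :
    ∑ᶠ v : HeightOneSpectrum (𝓞 K), Real.log (fa v z) ≤ - ∑ v ∈ T, e v := by
  classical
  have hfin := Pool.Agent.Lib.MP_4d5ce1_nt.finite_fa_ne_one hz
  rw [finsum_eq_sum_of_support_subset (s := T ∪ (hfin.toFinset \ T))]
  · rw [Finset.sum_union Finset.disjoint_sdiff, ← Finset.sum_neg_distrib]
    have h3 : ∑ v ∈ T, Real.log (fa v z) ≤ ∑ v ∈ T, - e v := Finset.sum_le_sum h1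
    have h4 : ∑ v ∈ hfin.toFinset \ T, Real.log (fa v z) ≤ 0 := by
      apply Finset.sum_nonpos
      intro v hv
      have hv' : v ∉ T := (Finset.mem_sdiff.mp hv).2
      exact Real.log_nonpos (Pool.Agent.Lib.MP_4d5ce1_nt.fa_nonneg v z) (h2 v hv')
    linarith
  · intro v hv
    have hv1 : fa v z ≠ 1 := by
      intro h
      apply hv
      simp [h]
    by_cases hT : v ∈ T
    · simp [hT]
    · simp [hT, hv1]

theorem packing_principle (K : Type*) [Field K] [NumberField K] (ι : Type*) (A : ℝ)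
    (hA : 1 ≤ A) :
    ∃ C : ℝ, 0 < C ∧ ∀ (X : Finset ι) (Δ : ι → ι → K) (s : InfinitePlace K → ι → K)
      (r ρ : InfinitePlace K → ℝ) (T : Finset (HeightOneSpectrum (𝓞 K)))
      (e : HeightOneSpectrum (𝓞 K) → ℝ),
      (∀ w, 0 < r w) → (∀ w, 0 < ρ w) →
      (∀ x ∈ X, ∀ y ∈ X, x ≠ y → Δ x y ≠ 0) →
      (∀ x ∈ X, ∀ w, w (s w x) ≤ r w) →
      (∀ x ∈ X, ∀ y ∈ X, ∀ w, w (Δ x y) ≤ A * ρ w * w (s w x - s w y)) →
      (∀ x ∈ X, ∀ y ∈ X, x ≠ y → ∀ v ∈ T, Real.log (fa v (Δ x y)) ≤ - e v) →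
      (∀ x ∈ X, ∀ y ∈ X, x ≠ y → ∀ v ∉ T, fa v (Δ x y) ≤ 1) →
      (X.card : ℝ) ≤ C * max 1 (Real.exp
        (∑ w : InfinitePlace K, (w.mult : ℝ) * (Real.log (r w) + Real.log (ρ w)) -
          ∑ v ∈ T, e v)) := by
  classical
  choose Cw hCw hfw using fun w : InfinitePlace K => hp1_cells w
  set d := Module.finrank ℚ K with hd
  have hdpos : 0 < d := Module.finrank_pos
  have hA0 : 0 < A := by linarith
  have hprodCw : 0 < ∏ w, Cw w := Finset.prod_pos fun w _ => hCw w
  refine ⟨(∏ w, Cw w) * (1 + 2 * A ^ d), by positivity, ?_⟩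
  intro X Δ s r ρ T e hr hρ hne hs hΔ hT hnT
  set E : ℝ := ∑ w : InfinitePlace K, (w.mult : ℝ) * (Real.log (r w) + Real.log (ρ w)) -
          ∑ v ∈ T, e v with hE
  set R : ℝ := Real.exp E with hR
  have hRpos : 0 < R := Real.exp_pos _
  obtain ⟨σ, hσ0, hσ1, hσ2, hσ3⟩ := hp1_sigma d hdpos (A ^ d * R) (by positivity)
  choose Nw hNw fw hfw' using fun w : InfinitePlace K => hfw w (r w) σ (hr w) hσ0 hσ1
  have hmult : ∑ w : InfinitePlace K, (w.mult : ℝ) = d := by
    exact_mod_cast InfinitePlace.sum_mult_eq (K := K)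
  -- the coding map
  let code : X → (∀ w : InfinitePlace K, Fin (Nw w)) := fun x w => fw w (s w x)
  have hinj : Function.Injective code := by
    intro ⟨x, hx⟩ ⟨y, hy⟩ hcode
    by_contra hxy
    have hxy' : x ≠ y := fun h => hxy (Subtype.ext h)
    have hz := hne x hx y hy hxy'
    have hpf := Pool.Agent.Lib.MP_4d5ce1_nt.product_formula hz
    have hfp := hp1_finite_part hz T e (hT x hx y hy hxy') (hnT x hx y hy hxy')
    have harch : ∑ w : InfinitePlace K, (w.mult : ℝ) * Real.log (w (Δ x y)) ≤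
        ∑ w : InfinitePlace K, (w.mult : ℝ) *
          (Real.log A + Real.log σ + (Real.log (r w) + Real.log (ρ w))) := by
      apply Finset.sum_le_sum
      intro w _
      apply mul_le_mul_of_nonneg_left _ (by positivity)
      have hc : fw w (s w x) = fw w (s w y) := congrFun hcode w
      have h1 : w (s w x - s w y) ≤ σ * r w := hfw' w _ _ (hs x hx w) (hs y hy w) hc
      have h2 : w (Δ x y) ≤ A * ρ w * (σ * r w) :=
        (hΔ x hx y hy w).trans
          (mul_le_mul_of_nonneg_left h1 (mul_nonneg hA0.le (hρ w).le))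
      have h3 : 0 < w (Δ x y) := InfinitePlace.pos_iff.mpr hz
      have h4 := Real.log_le_log h3 h2
      rw [Real.log_mul (mul_pos hA0 (hρ w)).ne' (mul_pos hσ0 (hr w)).ne',
        Real.log_mul hA0.ne' (hρ w).ne', Real.log_mul hσ0.ne' (hr w).ne'] at h4
      linarith
    have hsplit : ∑ w : InfinitePlace K, (w.mult : ℝ) *
          (Real.log A + Real.log σ + (Real.log (r w) + Real.log (ρ w))) =
        d * Real.log A + d * Real.log σ +
          ∑ w : InfinitePlace K, (w.mult : ℝ) * (Real.log (r w) + Real.log (ρ w)) := by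
      simp only [mul_add (_ : ℝ) (Real.log A + Real.log σ) _, Finset.sum_add_distrib]
      rw [← Finset.sum_mul, hmult]
      ring
    have hlog : Real.log (σ ^ d * (A ^ d * R)) < 0 := Real.log_neg (by positivity) hσ2
    rw [Real.log_mul (by positivity) (by positivity), Real.log_mul (by positivity) (by positivity),
      Real.log_pow, Real.log_pow, hR, Real.log_exp] at hlog
    linarith
  have hcard : X.card ≤ ∏ w, Nw w := by
    have h := Fintype.card_le_of_injective code hinj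
    simpa using h
  have hprodNw : (∏ w, (Nw w : ℝ)) ≤ (∏ w, Cw w) * (σ ^ d)⁻¹ := by
    calc (∏ w, (Nw w : ℝ)) ≤ ∏ w, (Cw w / σ ^ w.mult) :=
          Finset.prod_le_prod (fun w _ => by positivity) (fun w _ => hNw w)
      _ = (∏ w, Cw w) * (σ ^ d)⁻¹ := by
          rw [Finset.prod_div_distrib, div_eq_mul_inv, Finset.prod_pow_eq_pow_sum,
            InfinitePlace.sum_mult_eq]
  have hcardR : (X.card : ℝ) ≤ ∏ w, (Nw w : ℝ) := by exact_mod_cast hcard
  have h1 : (1:ℝ) ≤ max 1 R := le_max_left _ _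
  have h2 : R ≤ max 1 R := le_max_right _ _
  calc (X.card : ℝ) ≤ ∏ w, (Nw w : ℝ) := hcardR
    _ ≤ (∏ w, Cw w) * (σ ^ d)⁻¹ := hprodNw
    _ ≤ (∏ w, Cw w) * (1 + 2 * (A ^ d * R)) := mul_le_mul_of_nonneg_left hσ3 hprodCw.le
    _ ≤ (∏ w, Cw w) * ((1 + 2 * A ^ d) * max 1 R) := by
        apply mul_le_mul_of_nonneg_left _ hprodCw.le
        have hAd : 0 < A ^ d := by positivity
        nlinarith
    _ = (∏ w, Cw w) * (1 + 2 * A ^ d) * max 1 R := by ring

end Pool.Agent.Lib.MP_44a246_nt.HP
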